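import Pool.Agent.Helper59.MixInt.Bump
import Pool.Agent.Helper59.MixInt.Trig

/-!
# The Monte Carlo error for integration with random points: definitions
-/

open MeasureTheory UnitAddTorus Filter
open scoped ENNReal

noncomputable section

namespace Pool.Agent.Helper6.MixRan

open Pool.Agent.Helper59.MixInt

/-- The random mapping `φ` of the algorithm is measurable (jointly in the random element and the
function values), so that the error at every continuous `f` is a random variable. -/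
def JMeas {d n : ℕ} (A : RandAlg d n) : Prop :=
  Measurable fun p : A.Ω × (Fin n → ℝ) => A.φ p.1 p.2

/-- The Monte Carlo error `sup_{‖f‖ ≤ 1} 𝔼 |S(f) - A(f)|`. -/
def errRan {d n : ℕ} (k : ℝ) (A : RandAlg d n) : ℝ≥0∞ :=
  ⨆ f ∈ mixBall d k, ∫⁻ ω, ENNReal.ofReal |integ f - A.out ω f| ∂A.μ

/-- `e^ran(n)`: the smallest Monte Carlo error over all random point sets with at most `n` points
and all algorithms. -/
def eRan (d : ℕ) (k : ℝ) (n : ℕ) : ℝ≥0∞ :=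
  ⨅ (A : RandAlg d n) (_ : JMeas A), errRan k A

/-- `e^ran(𝒫_n)`: the smallest Monte Carlo error of algorithms that use `n` independent uniformly
distributed points. -/
def eRanIID (d : ℕ) (k : ℝ) (n : ℕ) : ℝ≥0∞ :=
  ⨅ (A : RandAlg d n) (_ : JMeas A) (_ : A.IsIID), errRan k A

/-! ### The prior on coefficients -/

/-- square root of the density of one coefficient -/
def tent (x : ℝ) : ℝ := Real.sqrt (3 / 2) * max 0 (1 - |x|)

/-- density of the prior on the coefficients -/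
def dens {J : Type*} [Fintype J] (g : J → ℝ) : ℝ := ∏ j, tent (g j) ^ 2

/-! ### The frame -/

/-- grid centre belonging to `(a, b, i, j)` -/
def ctr (t : ℕ × ℕ × ℕ × ℕ) : Tor 2 :=
  ![((((t.2.2.1 : ℝ) / 2 ^ (t.1 + 1) : ℝ)) : UnitAddCircle),
    ((((t.2.2.2 : ℝ) / 2 ^ (t.2.1 + 1) : ℝ)) : UnitAddCircle)]

/-- grid hat function -/
def hatf (t : ℕ × ℕ × ℕ × ℕ) (x : Tor 2) : ℝ := prod2 (hat t.1) (hat t.2.1) (ctr t) x

/-- the shapes `(m, 0)` and `(0, m)` for `m₀ ≤ m ≤ M` -/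
def shp (m₀ M : ℕ) : Finset (ℕ × ℕ) :=
  (Finset.Icc m₀ M).image (fun m => (m, 0)) ∪ (Finset.Icc m₀ M).image (fun m => (0, m))

/-- the grid -/
def TT (m₀ M : ℕ) : Finset (ℕ × ℕ × ℕ × ℕ) :=
  (Finset.range (M + 1) ×ˢ Finset.range (M + 1) ×ˢ Finset.range (2 ^ (M + 1)) ×ˢ
    Finset.range (2 ^ (M + 1))).filter fun t =>
      (t.1, t.2.1) ∈ shp m₀ M ∧ t.2.2.1 < 2 ^ (t.1 + 1) ∧ t.2.2.2 < 2 ^ (t.2.1 + 1)

/-- the smoothness parameter of the counterexample -/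
abbrev k₀ : ℝ := 3 / 4

/-- amplitude of the constant function -/
def τ₀ : ℝ := 1 / 8

/-- amplitude of the characters of the layer -/
def τ₁ (r : ℕ) : ℝ := 1 / (16 * Real.sqrt ((Lam r).card * (4 * (r : ℝ) ^ 2) ^ k₀))

/-- amplitude of the hats of level `m` -/
def τ₂ (m₀ m : ℕ) : ℝ :=
  1 / (5000 * CS k₀) * ((2 : ℝ) ^ m) ^ (-(3 / 4 : ℝ)) * ((2 : ℝ) ^ (m - m₀ : ℕ)) ^ (-(1 / 8 : ℝ))

/-- the index set of the frame -/
abbrev JJ (r m₀ M : ℕ) : Type := Unit ⊕ ((↥(Lam r) × Bool) ⊕ ↥(TT m₀ M))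

/-- the three parts of the prior function with coefficients `g` -/
def F0 (r m₀ M : ℕ) (g : JJ r m₀ M → ℝ) (_x : Tor 2) : ℝ := τ₀ * g (Sum.inl ())

/-- the trigonometric part -/
def F1 (r m₀ M : ℕ) (g : JJ r m₀ M → ℝ) (x : Tor 2) : ℝ :=
  ∑ h : ↥(Lam r), τ₁ r * (g (Sum.inr (Sum.inl (h, false))) * (mFourier h.1 x).re +
    g (Sum.inr (Sum.inl (h, true))) * (mFourier h.1 x).im)

/-- the hat part -/
def F2 (r m₀ M : ℕ) (g : JJ r m₀ M → ℝ) (x : Tor 2) : ℝ :=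
  ∑ t : ↥(TT m₀ M), τ₂ m₀ (t.1.1 + t.1.2.1) * g (Sum.inr (Sum.inr t)) * hatf t.1 x

/-- the function with coefficients `g` -/
def FF (r m₀ M : ℕ) (g : JJ r m₀ M → ℝ) (x : Tor 2) : ℝ :=
  F0 r m₀ M g x + F1 r m₀ M g x + F2 r m₀ M g x

end Pool.Agent.Helper6.MixRan
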