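import Pool.Agent.Helper59.MixInt.Fool
import Pool.Agent.Helper6.MixRan.Defs

open MeasureTheory UnitAddTorus Filter Topology Set
open scoped ENNReal

noncomputable section

namespace Pool.Agent.Helper6.MixRan

open Pool.Agent.Helper59.MixInt

section general

variable {d : ℕ}

theorem mFourierCoeff_sum {κ : Type*} (s : Finset κ) (f : κ → Tor d → ℝ)
    (hf : ∀ i ∈ s, Continuous (f i)) (h : Fin d → ℤ) :
    mFourierCoeff (fun x => ((∑ i ∈ s, f i x : ℝ) : ℂ)) h =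
      ∑ i ∈ s, mFourierCoeff (fun x => (f i x : ℂ)) h := by
  simp only [mFourierCoeff_eq]
  rw [← integral_finsetSum _ fun i hi => integrable_mFourier_mul (hf i hi) _]
  refine integral_congr_ae (Eventually.of_forall fun x => ?_)
  simp only
  rw [Complex.ofReal_sum, Finset.mul_sum]

/-- The squared norm of a finite sum. -/
theorem mixNormSq_sum_le {k : ℝ} {κ : Type*} (s : Finset κ) (f : κ → Tor d → ℝ)
    (hf : ∀ i ∈ s, Continuous (f i)) :
    mixNormSq k (fun x => ∑ i ∈ s, f i x) ≤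
      ENNReal.ofReal (s.card : ℝ) * ∑ i ∈ s, mixNormSq k (f i) := by
  unfold mixNormSq
  rw [← Summable.tsum_finsetSum (fun i _ => ENNReal.summable), ← ENNReal.tsum_mul_left]
  refine ENNReal.tsum_le_tsum fun h => ?_
  rw [mFourierCoeff_sum s f hf h, ← ENNReal.ofReal_sum_of_nonneg (fun i _ => by positivity),
    ← ENNReal.ofReal_mul (by positivity)]
  apply ENNReal.ofReal_le_ofReal
  rw [← Finset.sum_mul, ← mul_assoc]
  apply mul_le_mul_of_nonneg_right _ (Finset.prod_nonneg fun j _ => by positivity)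
  calc ‖∑ i ∈ s, mFourierCoeff (fun x => (f i x : ℂ)) h‖ ^ 2
      ≤ (∑ i ∈ s, ‖mFourierCoeff (fun x => (f i x : ℂ)) h‖) ^ 2 :=
        pow_le_pow_left₀ (norm_nonneg _) (norm_sum_le _ _) 2
    _ ≤ _ := sq_sum_le_card_mul_sum_sq

theorem mixNormSq_const_mul {k : ℝ} (c : ℝ) (f : Tor d → ℝ) :
    mixNormSq k (fun x => c * f x) = ENNReal.ofReal (c ^ 2) * mixNormSq k f := by
  unfold mixNormSq
  rw [← ENNReal.tsum_mul_left]
  refine tsum_congr fun h => ?_
  have h1 : mFourierCoeff (fun x => ((c * f x : ℝ) : ℂ)) h =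
      (c : ℂ) * mFourierCoeff (fun x => (f x : ℂ)) h := by
    simp only [mFourierCoeff_eq]
    rw [← integral_const_mul]
    refine integral_congr_ae (Eventually.of_forall fun x => ?_)
    simp only
    push_cast
    ring
  rw [h1, norm_mul, mul_pow, Complex.norm_real, Real.norm_eq_abs, sq_abs, mul_assoc,
    ENNReal.ofReal_mul (sq_nonneg _)]

end general

/-! ### Separation of the grid centres -/

theorem sep1 {a i i' : ℕ} (hmod : i % 4 = i' % 4) (hi : i < 2 ^ (a + 1)) (hi' : i' < 2 ^ (a + 1))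
    (hne : i ≠ i') :
    1 / 2 ^ a < ‖((((i : ℝ) / 2 ^ (a + 1) : ℝ)) : UnitAddCircle) -
      ((((i' : ℝ) / 2 ^ (a + 1) : ℝ)) : UnitAddCircle)‖ := by
  have ha : 1 ≤ a := by
    rcases Nat.eq_zero_or_pos a with h | h
    · subst h
      simp only [zero_add, pow_one] at hi hi'
      omega
    · exact h
  obtain ⟨b, rfl⟩ : ∃ b, a = b + 1 := ⟨a - 1, by omega⟩
  rw [← AddCircle.coe_sub, UnitAddCircle.norm_eq]
  set x : ℝ := (i : ℝ) / 2 ^ (b + 1 + 1) - (i' : ℝ) / 2 ^ (b + 1 + 1) with hx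
  set N : ℤ := round x with hN
  have hp : (0 : ℝ) < 2 ^ (b + 1 + 1) := by positivity
  have hE : x - N = (((i : ℤ) - i' - N * 2 ^ (b + 1 + 1) : ℤ) : ℝ) / 2 ^ (b + 1 + 1) := by
    rw [hx]
    push_cast
    field_simp
  have hpow : (2 : ℤ) ^ (b + 1 + 1) = 4 * 2 ^ b := by ring
  have hpowN : (2 : ℕ) ^ (b + 1 + 1) = 4 * 2 ^ b := by ring
  set E : ℤ := (i : ℤ) - i' - N * 2 ^ (b + 1 + 1) with hEdef
  have hdiv : (4 : ℤ) ∣ E := by
    rw [hEdef, hpow]
    have h1 : (4 : ℤ) ∣ (i : ℤ) - i' := by omega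
    exact dvd_sub h1 ⟨N * 2 ^ b, by ring⟩
  have hne0 : E ≠ 0 := by
    intro h0
    have h1 : (i : ℤ) - i' = N * 2 ^ (b + 1 + 1) := by rw [hEdef] at h0; linarith
    have h2 : |(i : ℤ) - i'| < 2 ^ (b + 1 + 1) := by
      rw [abs_lt]
      have e1 : (i : ℤ) < 2 ^ (b + 1 + 1) := by exact_mod_cast hi
      have e2 : (i' : ℤ) < 2 ^ (b + 1 + 1) := by exact_mod_cast hi'
      constructor <;> omega
    have h3 : N ≠ 0 := by
      rintro h4
      rw [h4, zero_mul] at h1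
      omega
    rw [h1, abs_mul, abs_of_pos (by positivity : (0 : ℤ) < 2 ^ (b + 1 + 1))] at h2
    have h5 : 1 ≤ |N| := Int.one_le_abs h3
    nlinarith [(by positivity : (0 : ℤ) < 2 ^ (b + 1 + 1))]
  have hge : 4 ≤ |E| := by
    obtain ⟨q, hq⟩ := hdiv
    have hq0 : q ≠ 0 := by
      rintro rfl
      exact hne0 (by simpa using hq)
    rw [hq, abs_mul]
    have := Int.one_le_abs hq0
    have h4 : |(4 : ℤ)| = 4 := rfl
    rw [h4]
    omega
  have hgeR : (4 : ℝ) ≤ |(E : ℝ)| := by exact_mod_cast hge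
  rw [hE, abs_div, abs_of_pos hp, div_lt_div_iff₀ (by positivity) hp]
  have h6 : (2 : ℝ) ^ (b + 1 + 1) = 2 * 2 ^ (b + 1) := by ring
  rw [h6]
  nlinarith [(by positivity : (0 : ℝ) < 2 ^ (b + 1))]

/-- Two centres of one shape and one class are not near. -/
theorem sep_ctr {a b : ℕ} {i j i' j' : ℕ} (hi : i < 2 ^ (a + 1)) (hj : j < 2 ^ (b + 1))
    (hi' : i' < 2 ^ (a + 1)) (hj' : j' < 2 ^ (b + 1)) (h1 : i % 4 = i' % 4) (h2 : j % 4 = j' % 4)
    (hne : (i, j) ≠ (i', j')) : ¬ near a b (ctr (a, b, i, j)) (ctr (a, b, i', j')) := by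
  rintro ⟨n1, n2⟩
  simp only [ctr, Matrix.cons_val_zero, Matrix.cons_val_one] at n1 n2
  by_cases hii : i = i'
  · have hjj : j ≠ j' := by
      rintro rfl
      exact hne (by rw [hii])
    exact absurd n2 (not_le.2 (sep1 h2 hj hj' hjj))
  · exact absurd n1 (not_le.2 (sep1 h1 hi hi' hii))

end Pool.Agent.Helper6.MixRan
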