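import Pool.Agent.Helper6.MixRan.NormA

open MeasureTheory UnitAddTorus Filter Topology Set
open scoped ENNReal

noncomputable section

namespace Pool.Agent.Helper6.MixRan

open Pool.Agent.Helper59.MixInt

variable {r m₀ M : ℕ}

/-! ### The constant part -/

theorem norm_F0 {g : JJ r m₀ M → ℝ} (hg : ∀ j, |g j| ≤ 1) :
    mixNormSq k₀ (F0 r m₀ M g) ≤ ENNReal.ofReal (1 / 64) := by
  have h1 : F0 r m₀ M g = fun x : Tor 2 => (τ₀ * g (Sum.inl ())) * (fun _ => (1 : ℝ)) x := by
    funext x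
    simp [F0]
  rw [h1, mixNormSq_const_mul, mixNormSq_one, mul_one]
  apply ENNReal.ofReal_le_ofReal
  have h2 := hg (Sum.inl ())
  have h3 : g (Sum.inl ()) ^ 2 ≤ 1 := by
    rw [← sq_abs]
    exact pow_le_one₀ (abs_nonneg _) h2
  rw [mul_pow, τ₀]
  nlinarith

/-! ### The trigonometric part -/

/-- coefficient of the cosine -/
def ga (g : JJ r m₀ M → ℝ) (b : Bool) (h : Fin 2 → ℤ) : ℝ :=
  if hh : h ∈ Lam r then g (Sum.inr (Sum.inl (⟨h, hh⟩, b))) else 0

theorem abs_ga_le {g : JJ r m₀ M → ℝ} (hg : ∀ j, |g j| ≤ 1) (b : Bool) (h : Fin 2 → ℤ) :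
    |ga g b h| ≤ 1 := by
  unfold ga
  split_ifs
  · exact hg _
  · simp

/-- complex coefficient -/
def bc (g : JJ r m₀ M → ℝ) (h : Fin 2 → ℤ) : ℂ :=
  (τ₁ r : ℂ) * ((ga g false h : ℂ) - Complex.I * (ga g true h : ℂ))

/-- symmetrised complex coefficient -/
def bs (g : JJ r m₀ M → ℝ) (h : Fin 2 → ℤ) : ℂ :=
  (bc g h + (starRingEnd ℂ) (bc g (-h))) / 2

theorem norm_bc_le {g : JJ r m₀ M → ℝ} (hg : ∀ j, |g j| ≤ 1) (h : Fin 2 → ℤ) :
    ‖bc g h‖ ≤ 2 * |τ₁ r| := by
  unfold bc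
  rw [norm_mul, Complex.norm_real, Real.norm_eq_abs, mul_comm]
  apply mul_le_mul_of_nonneg_right _ (abs_nonneg _)
  calc ‖(ga g false h : ℂ) - Complex.I * (ga g true h : ℂ)‖
      ≤ ‖(ga g false h : ℂ)‖ + ‖Complex.I * (ga g true h : ℂ)‖ := norm_sub_le _ _
    _ = |ga g false h| + |ga g true h| := by
        rw [norm_mul, Complex.norm_I, one_mul, Complex.norm_real, Complex.norm_real,
          Real.norm_eq_abs, Real.norm_eq_abs]
    _ ≤ 2 := by
        have := abs_ga_le hg false h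
        have := abs_ga_le hg true h
        linarith

theorem norm_bs_le {g : JJ r m₀ M → ℝ} (hg : ∀ j, |g j| ≤ 1) (h : Fin 2 → ℤ) :
    ‖bs g h‖ ≤ 2 * |τ₁ r| := by
  unfold bs
  rw [norm_div]
  have h1 := norm_add_le (bc g h) ((starRingEnd ℂ) (bc g (-h)))
  rw [RCLike.norm_conj] at h1
  have h2 := norm_bc_le hg h
  have h3 := norm_bc_le hg (-h)
  have h4 : ‖(2 : ℂ)‖ = 2 := by simp
  rw [h4]
  linarith

theorem F1_ofReal (g : JJ r m₀ M → ℝ) (x : Tor 2) :
    (F1 r m₀ M g x : ℂ) = ∑ h ∈ Lam r, bs g h * mFourier h x := by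
  have h1 : (F1 r m₀ M g x : ℂ) = ∑ h ∈ Lam r, ((bc g h * mFourier h x).re : ℂ) := by
    unfold F1
    rw [Complex.ofReal_sum, ← Finset.sum_coe_sort (Lam r)]
    refine Finset.sum_congr rfl fun h _ => ?_
    congr 1
    have e1 : ga g false h.1 = g (Sum.inr (Sum.inl (h, false))) := by
      unfold ga
      rw [dif_pos h.2]
    have e2 : ga g true h.1 = g (Sum.inr (Sum.inl (h, true))) := by
      unfold ga
      rw [dif_pos h.2]
    rw [← e1, ← e2, bc, mul_assoc, Complex.re_ofReal_mul]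
    congr 1
    simp only [Complex.mul_re, Complex.sub_re, Complex.ofReal_re, Complex.sub_im,
      Complex.ofReal_im, Complex.I_re, Complex.I_im, Complex.mul_im]
    ring
  have h2 : ∀ z : ℂ, ((z.re : ℝ) : ℂ) = z / 2 + (starRingEnd ℂ) z / 2 := by
    intro z
    rw [Complex.re_eq_add_conj]
    ring
  rw [h1]
  simp only [h2]
  rw [Finset.sum_add_distrib]
  have h3 : ∑ h ∈ Lam r, (starRingEnd ℂ) (bc g h * mFourier h x) / 2 =
      ∑ h ∈ Lam r, (starRingEnd ℂ) (bc g (-h)) * mFourier h x / 2 := by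
    refine Finset.sum_nbij' (fun h => -h) (fun h => -h) (fun h hh => neg_mem_Lam.2 hh)
      (fun h hh => neg_mem_Lam.2 hh) (fun h _ => neg_neg h) (fun h _ => neg_neg h) ?_
    intro h _
    rw [neg_neg, map_mul, mFourier_neg]
  rw [h3, ← Finset.sum_add_distrib]
  refine Finset.sum_congr rfl fun h _ => ?_
  unfold bs
  ring

theorem norm_F1 {g : JJ r m₀ M → ℝ} (hg : ∀ j, |g j| ≤ 1) :
    mixNormSq k₀ (F1 r m₀ M g) ≤ ENNReal.ofReal (1 / 64) := by
  have h1 : ∀ h', mFourierCoeff (fun x => (F1 r m₀ M g x : ℂ)) h' =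
      if h' ∈ Lam r then bs g h' else 0 := by
    intro h'
    simp only [F1_ofReal]
    exact mFourierCoeff_trig _ _ _
  unfold mixNormSq
  simp only [h1]
  rw [tsum_eq_sum (s := Lam r)]
  · rw [← ENNReal.ofReal_sum_of_nonneg]
    · apply ENNReal.ofReal_le_ofReal
      have h2 : ∀ h ∈ Lam r, ‖if h ∈ Lam r then bs g h else 0‖ ^ 2 *
          ∏ j, (1 + (h j : ℝ) ^ 2) ^ k₀ ≤ 4 * τ₁ r ^ 2 * (4 * (r : ℝ) ^ 2) ^ k₀ := by
        intro h hh
        rw [if_pos hh]
        apply mul_le_mul _ (weight_le hh (by norm_num [k₀]))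
          (Finset.prod_nonneg fun j _ => by positivity) (by positivity)
        calc ‖bs g h‖ ^ 2 ≤ (2 * |τ₁ r|) ^ 2 :=
              pow_le_pow_left₀ (norm_nonneg _) (norm_bs_le hg h) 2
          _ = 4 * τ₁ r ^ 2 := by rw [mul_pow, sq_abs]; norm_num
      refine (Finset.sum_le_sum h2).trans ?_
      rw [Finset.sum_const, nsmul_eq_mul]
      set B : ℝ := ((Lam r).card : ℝ) * (4 * (r : ℝ) ^ 2) ^ k₀ with hB
      have hB0 : 0 ≤ B := by positivity
      have h3 : τ₁ r ^ 2 = 1 / (256 * B) := by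
        unfold τ₁
        rw [← hB, div_pow, mul_pow, Real.sq_sqrt hB0]
        norm_num
      rw [h3]
      by_cases hz : B = 0
      · have : ((Lam r).card : ℝ) * (4 * (1 / (256 * B)) * (4 * (r : ℝ) ^ 2) ^ k₀) = 0 := by
          rw [hz]
          simp
        rw [this]
        norm_num
      · have : ((Lam r).card : ℝ) * (4 * (1 / (256 * B)) * (4 * (r : ℝ) ^ 2) ^ k₀) =
            4 * (1 / (256 * B)) * B := by
          rw [hB]
          ring
        rw [this]
        apply le_of_eq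
        field_simp
        norm_num
    · intro h _
      exact mul_nonneg (sq_nonneg _) (Finset.prod_nonneg fun j _ => by positivity)
  · intro h hh
    rw [if_neg hh]
    simp

theorem continuous_F1 (g : JJ r m₀ M → ℝ) : Continuous (F1 r m₀ M g) := by
  unfold F1
  refine continuous_finsetSum _ fun h _ => ?_
  have hc : Continuous fun x : Tor 2 => mFourier h.1 x := map_continuous (mFourier h.1)
  exact continuous_const.mul ((continuous_const.mul (Complex.continuous_re.comp hc)).add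
    (continuous_const.mul (Complex.continuous_im.comp hc)))

end Pool.Agent.Helper6.MixRan
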