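import Pool.Agent.Helper59.MixInt.Fool
import Pool.Agent.Helper6.MixRan.Defs
import Pool.Agent.Helper6.MixRan.NormB

open MeasureTheory UnitAddTorus Filter Topology Set
open scoped ENNReal

noncomputable section

namespace Pool.Agent.Helper6.MixRan

open Pool.Agent.Helper59.MixInt

variable {r m₀ M : ℕ}

/-- coefficients of the hats -/
def g2 (g : JJ r m₀ M → ℝ) (t : ℕ × ℕ × ℕ × ℕ) : ℝ :=
  if ht : t ∈ TT m₀ M then g (Sum.inr (Sum.inr ⟨t, ht⟩)) else 0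

theorem abs_g2_le {g : JJ r m₀ M → ℝ} (hg : ∀ j, |g j| ≤ 1) (t : ℕ × ℕ × ℕ × ℕ) :
    |g2 g t| ≤ 1 := by
  unfold g2
  split_ifs
  · exact hg _
  · simp

/-- the 16 classes -/
def QQ : Finset (ℕ × ℕ) := Finset.range 4 ×ˢ Finset.range 4

/-- the centres of shape `s` in the class `q` -/
def Iq (m₀ M : ℕ) (q s : ℕ × ℕ) : Finset (ℕ × ℕ × ℕ × ℕ) :=
  ((TT m₀ M).filter fun t => (t.2.2.1 % 4, t.2.2.2 % 4) = q).filter fun t => (t.1, t.2.1) = s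

theorem mem_TT {t : ℕ × ℕ × ℕ × ℕ} (ht : t ∈ TT m₀ M) :
    (t.1, t.2.1) ∈ shp m₀ M ∧ t.2.2.1 < 2 ^ (t.1 + 1) ∧ t.2.2.2 < 2 ^ (t.2.1 + 1) :=
  (Finset.mem_filter.1 ht).2

/-- one class of the hat part -/
def F2q (r m₀ M : ℕ) (g : JJ r m₀ M → ℝ) (q : ℕ × ℕ) (x : Tor 2) : ℝ :=
  ∑ s ∈ shp m₀ M, bsum (Iq m₀ M q s) (fun t => τ₂ m₀ (s.1 + s.2) * g2 g t) ctr
    (hat s.1) (hat s.2) x

theorem F2_eq (g : JJ r m₀ M → ℝ) (x : Tor 2) :
    F2 r m₀ M g x = ∑ q ∈ QQ, F2q r m₀ M g q x := by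
  have h1 : F2 r m₀ M g x = ∑ t ∈ TT m₀ M, τ₂ m₀ (t.1 + t.2.1) * g2 g t * hatf t x := by
    unfold F2
    rw [← Finset.sum_coe_sort (TT m₀ M)]
    refine Finset.sum_congr rfl fun t _ => ?_
    have : g2 g t.1 = g (Sum.inr (Sum.inr t)) := by
      unfold g2
      rw [dif_pos t.2]
    rw [this]
  rw [h1, ← Finset.sum_fiberwise_of_maps_to (s := TT m₀ M) (t := QQ)
    (g := fun t => (t.2.2.1 % 4, t.2.2.2 % 4))]
  · refine Finset.sum_congr rfl fun q _ => ?_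
    rw [← Finset.sum_fiberwise_of_maps_to
      (s := (TT m₀ M).filter fun t => (t.2.2.1 % 4, t.2.2.2 % 4) = q) (t := shp m₀ M)
      (g := fun t => (t.1, t.2.1))]
    · refine Finset.sum_congr rfl fun s _ => ?_
      unfold bsum
      refine Finset.sum_congr rfl fun t ht => ?_
      have hs : (t.1, t.2.1) = s := (Finset.mem_filter.1 ht).2
      have hs1 : t.1 = s.1 := by rw [← hs]
      have hs2 : t.2.1 = s.2 := by rw [← hs]
      unfold hatf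
      rw [hs1, hs2]
    · intro t ht
      exact (mem_TT (Finset.mem_filter.1 ht).1).1
  · intro t _
    exact Finset.mem_product.2 ⟨Finset.mem_range.2 (Nat.mod_lt _ (by norm_num)),
      Finset.mem_range.2 (Nat.mod_lt _ (by norm_num))⟩

theorem sep_Iq (q : ℕ × ℕ) : ∀ s ∈ shp m₀ M, ∀ i ∈ Iq m₀ M q s, ∀ j ∈ Iq m₀ M q s, i ≠ j →
    ¬ near s.1 s.2 (ctr i) (ctr j) := by
  intro s _ t ht t' ht' hne
  obtain ⟨h1, h2⟩ := Finset.mem_filter.1 ht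
  obtain ⟨h3, h4⟩ := Finset.mem_filter.1 h1
  obtain ⟨h1', h2'⟩ := Finset.mem_filter.1 ht'
  obtain ⟨h3', h4'⟩ := Finset.mem_filter.1 h1'
  obtain ⟨_, h5, h6⟩ := mem_TT h3
  obtain ⟨_, h5', h6'⟩ := mem_TT h3'
  obtain ⟨a, b, i, j⟩ := t
  obtain ⟨a', b', i', j'⟩ := t'
  simp only at h2 h4 h5 h6 h2' h4' h5' h6'
  obtain ⟨rfl, rfl⟩ := Prod.mk.inj (h2'.trans h2.symm)
  subst h2
  rw [← h4'] at h4
  obtain ⟨e1, e2⟩ := Prod.mk.inj h4
  refine sep_ctr h5 h6 h5' h6' e1 e2 fun h => hne ?_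
  obtain ⟨rfl, rfl⟩ := Prod.mk.inj h
  rfl

theorem card_Iq_le (q s : ℕ × ℕ) : (Iq m₀ M q s).card ≤ 4 * 2 ^ (s.1 + s.2) := by
  have h1 : Iq m₀ M q s ⊆ (Finset.range (2 ^ (s.1 + 1)) ×ˢ Finset.range (2 ^ (s.2 + 1))).image
      fun p => (s.1, s.2, p.1, p.2) := by
    intro t ht
    obtain ⟨h1, h2⟩ := Finset.mem_filter.1 ht
    obtain ⟨h3, _⟩ := Finset.mem_filter.1 h1
    obtain ⟨_, h5, h6⟩ := mem_TT h3
    obtain ⟨a, b, i, j⟩ := t
    simp only at h2 h5 h6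
    subst h2
    exact Finset.mem_image.2 ⟨(i, j), Finset.mem_product.2
      ⟨Finset.mem_range.2 h5, Finset.mem_range.2 h6⟩, rfl⟩
  calc (Iq m₀ M q s).card ≤ _ := Finset.card_le_card h1
    _ ≤ _ := Finset.card_image_le
    _ = 4 * 2 ^ (s.1 + s.2) := by
        rw [Finset.card_product, Finset.card_range, Finset.card_range]
        ring

theorem CS_pos₀ : 0 < CS k₀ := CS_pos (by norm_num [k₀])

/-- the geometric ratio -/
def xq : ℝ := (2 : ℝ) ^ (-(1 / 4 : ℝ))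

theorem xq_pos : 0 < xq := Real.rpow_pos_of_pos two_pos _

theorem xq_pow : xq ^ 4 = 1 / 2 := by
  unfold xq
  rw [← Real.rpow_natCast, ← Real.rpow_mul two_pos.le]
  norm_num

theorem xq_le : xq ≤ 11 / 13 := by
  by_contra h
  push Not at h
  have h1 : (11 / 13 : ℝ) ^ 4 < xq ^ 4 := pow_lt_pow_left₀ h (by norm_num) (by norm_num)
  rw [xq_pow] at h1
  norm_num at h1

theorem tau2_sq {m : ℕ} : ((4 : ℝ) ^ m) ^ k₀ * τ₂ m₀ m ^ 2 =
    1 / (5000 * CS k₀) ^ 2 * xq ^ (m - m₀) := by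
  have h2 : (0 : ℝ) < (2 : ℝ) ^ m := by positivity
  have h3 : (0 : ℝ) < (2 : ℝ) ^ (m - m₀) := by positivity
  have e1 : ((4 : ℝ) ^ m) ^ k₀ = ((2 : ℝ) ^ m) ^ (3 / 2 : ℝ) := by
    have : (4 : ℝ) ^ m = ((2 : ℝ) ^ m) ^ (2 : ℝ) := by
      rw [show (4 : ℝ) = 2 ^ 2 by norm_num, ← pow_mul, mul_comm 2 m, pow_mul]
      norm_num
    rw [this, ← Real.rpow_mul h2.le]
    norm_num [k₀]
  have e2 : (((2 : ℝ) ^ m) ^ (-(3 / 4 : ℝ))) ^ 2 = ((2 : ℝ) ^ m) ^ (-(3 / 2 : ℝ)) := by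
    rw [← Real.rpow_natCast, ← Real.rpow_mul h2.le]
    norm_num
  have e3 : (((2 : ℝ) ^ (m - m₀)) ^ (-(1 / 8 : ℝ))) ^ 2 = xq ^ (m - m₀) := by
    unfold xq
    rw [← Real.rpow_natCast, ← Real.rpow_mul h3.le, ← Real.rpow_natCast, ← Real.rpow_natCast,
      ← Real.rpow_mul two_pos.le, ← Real.rpow_mul two_pos.le]
    congr 1
    push_cast
    ring
  have e4 : ((2 : ℝ) ^ m) ^ (3 / 2 : ℝ) * ((2 : ℝ) ^ m) ^ (-(3 / 2 : ℝ)) = 1 := by
    rw [← Real.rpow_add h2]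
    norm_num
  unfold τ₂
  rw [mul_pow, mul_pow, e2, e3, e1]
  calc ((2 : ℝ) ^ m) ^ (3 / 2 : ℝ) * ((1 / (5000 * CS k₀)) ^ 2 *
        ((2 : ℝ) ^ m) ^ (-(3 / 2 : ℝ)) * xq ^ (m - m₀))
      = (1 / (5000 * CS k₀)) ^ 2 * xq ^ (m - m₀) *
        (((2 : ℝ) ^ m) ^ (3 / 2 : ℝ) * ((2 : ℝ) ^ m) ^ (-(3 / 2 : ℝ))) := by ring
    _ = _ := by
        rw [e4, mul_one, div_pow, one_pow]

theorem sum_xq_le : ∑ m ∈ Finset.Icc m₀ M, xq ^ (m - m₀) ≤ 13 / 2 := by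
  have h1 : ∑ m ∈ Finset.Icc m₀ M, xq ^ (m - m₀) = ∑ j ∈ Finset.range (M + 1 - m₀), xq ^ j := by
    rw [Finset.range_eq_Ico, Finset.sum_Ico_eq_sum_range, ← Finset.Ico_add_one_right_eq_Icc,
      Finset.sum_Ico_eq_sum_range]
    simp
  have hx := xq_pos
  have hx1 := xq_le
  rw [h1, geom_sum_eq (by linarith)]
  have h2 : 0 < xq ^ (M + 1 - m₀) := by positivity
  rw [div_le_iff_of_neg (by linarith)]
  nlinarith

theorem sum_shp_le (f : ℕ → ℝ) (hf : ∀ m, 0 ≤ f m) :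
    ∑ s ∈ shp m₀ M, f (s.1 + s.2) ≤ 2 * ∑ m ∈ Finset.Icc m₀ M, f m := by
  unfold shp
  have h1 := Finset.sum_union_inter (s₁ := (Finset.Icc m₀ M).image fun m => (m, 0))
    (s₂ := (Finset.Icc m₀ M).image fun m => (0, m)) (f := fun s : ℕ × ℕ => f (s.1 + s.2))
  have h2 : 0 ≤ ∑ s ∈ (Finset.Icc m₀ M).image (fun m => (m, 0)) ∩
      (Finset.Icc m₀ M).image (fun m => (0, m)), f (s.1 + s.2) :=
    Finset.sum_nonneg fun s _ => hf _
  have h3 : ∑ s ∈ (Finset.Icc m₀ M).image (fun m => (m, 0)), f (s.1 + s.2) =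
      ∑ m ∈ Finset.Icc m₀ M, f m := by
    rw [Finset.sum_image (by intro a _ b _ h; exact (Prod.mk.inj h).1)]
    simp
  have h4 : ∑ s ∈ (Finset.Icc m₀ M).image (fun m => (0, m)), f (s.1 + s.2) =
      ∑ m ∈ Finset.Icc m₀ M, f m := by
    rw [Finset.sum_image (by intro a _ b _ h; exact (Prod.mk.inj h).2)]
    simp
  linarith

theorem norm_F2q {g : JJ r m₀ M → ℝ} (hg : ∀ j, |g j| ≤ 1) (q : ℕ × ℕ) :
    mixNormSq k₀ (F2q r m₀ M g q) ≤ ENNReal.ofReal (1 / 4096) := by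
  have hC := CS_pos₀
  refine (mixNormSq_shapes_le (by norm_num [k₀]) (by norm_num [k₀]) (shp m₀ M)
    (Iq m₀ M q) (fun s t => τ₂ m₀ (s.1 + s.2) * g2 g t) ctr (sep_Iq q)).trans ?_
  apply ENNReal.ofReal_le_ofReal
  have h1 : ∀ s ∈ shp m₀ M, ((4 : ℝ) ^ (s.1 + s.2)) ^ k₀ * (1 / 2 ^ (s.1 + s.2) *
      ∑ t ∈ Iq m₀ M q s, (τ₂ m₀ (s.1 + s.2) * g2 g t) ^ 2) ≤
      4 / (5000 * CS k₀) ^ 2 * xq ^ (s.1 + s.2 - m₀) := by
    intro s _
    have h2 : ∑ t ∈ Iq m₀ M q s, (τ₂ m₀ (s.1 + s.2) * g2 g t) ^ 2 ≤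
        4 * 2 ^ (s.1 + s.2) * τ₂ m₀ (s.1 + s.2) ^ 2 := by
      calc ∑ t ∈ Iq m₀ M q s, (τ₂ m₀ (s.1 + s.2) * g2 g t) ^ 2
          ≤ ∑ t ∈ Iq m₀ M q s, τ₂ m₀ (s.1 + s.2) ^ 2 := by
            refine Finset.sum_le_sum fun t _ => ?_
            rw [mul_pow]
            have h3 : g2 g t ^ 2 ≤ 1 := by
              rw [← sq_abs]
              exact pow_le_one₀ (abs_nonneg _) (abs_g2_le hg t)
            nlinarith [sq_nonneg (τ₂ m₀ (s.1 + s.2))]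
        _ = ((Iq m₀ M q s).card : ℝ) * τ₂ m₀ (s.1 + s.2) ^ 2 := by
            rw [Finset.sum_const, nsmul_eq_mul]
        _ ≤ _ := by
            apply mul_le_mul_of_nonneg_right _ (sq_nonneg _)
            exact_mod_cast card_Iq_le q s
    have h5 : (0 : ℝ) < 2 ^ (s.1 + s.2) := by positivity
    calc ((4 : ℝ) ^ (s.1 + s.2)) ^ k₀ * (1 / 2 ^ (s.1 + s.2) *
          ∑ t ∈ Iq m₀ M q s, (τ₂ m₀ (s.1 + s.2) * g2 g t) ^ 2)
        ≤ ((4 : ℝ) ^ (s.1 + s.2)) ^ k₀ * (1 / 2 ^ (s.1 + s.2) *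
          (4 * 2 ^ (s.1 + s.2) * τ₂ m₀ (s.1 + s.2) ^ 2)) := by gcongr
      _ = 4 * (((4 : ℝ) ^ (s.1 + s.2)) ^ k₀ * τ₂ m₀ (s.1 + s.2) ^ 2) := by
          field_simp
      _ = _ := by
          rw [tau2_sq]
          ring
  have h6 : ∑ s ∈ shp m₀ M, ((4 : ℝ) ^ (s.1 + s.2)) ^ k₀ * (1 / 2 ^ (s.1 + s.2) *
      ∑ t ∈ Iq m₀ M q s, (τ₂ m₀ (s.1 + s.2) * g2 g t) ^ 2) ≤
      4 / (5000 * CS k₀) ^ 2 * 13 := by
    refine (Finset.sum_le_sum h1).trans ?_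
    rw [← Finset.mul_sum]
    apply mul_le_mul_of_nonneg_left _ (by positivity)
    refine (sum_shp_le (fun m => xq ^ (m - m₀)) fun m => (pow_pos xq_pos _).le).trans ?_
    have := sum_xq_le (m₀ := m₀) (M := M)
    linarith
  calc 100 * CS k₀ ^ 2 * _ ≤ 100 * CS k₀ ^ 2 * (4 / (5000 * CS k₀) ^ 2 * 13) :=
        mul_le_mul_of_nonneg_left h6 (by positivity)
    _ = 5200 / 25000000 := by
        field_simp
        norm_num
    _ ≤ 1 / 4096 := by norm_num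

theorem continuous_F2q (g : JJ r m₀ M → ℝ) (q : ℕ × ℕ) : Continuous (F2q r m₀ M g q) := by
  unfold F2q bsum
  refine continuous_finsetSum _ fun s _ => continuous_finsetSum _ fun t _ => ?_
  exact continuous_const.mul (continuous_prod2_hat _ _ _)

theorem norm_F2 {g : JJ r m₀ M → ℝ} (hg : ∀ j, |g j| ≤ 1) :
    mixNormSq k₀ (F2 r m₀ M g) ≤ ENNReal.ofReal (1 / 16) := by
  have h1 : F2 r m₀ M g = fun x => ∑ q ∈ QQ, F2q r m₀ M g q x := funext (F2_eq g)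
  rw [h1]
  refine (mixNormSq_sum_le QQ (F2q r m₀ M g) fun q _ => continuous_F2q g q).trans ?_
  have hc : QQ.card = 16 := by decide
  calc ENNReal.ofReal (QQ.card : ℝ) * ∑ q ∈ QQ, mixNormSq k₀ (F2q r m₀ M g q)
      ≤ ENNReal.ofReal (QQ.card : ℝ) * ∑ q ∈ QQ, ENNReal.ofReal (1 / 4096) := by
        gcongr with q _
        exact norm_F2q hg q
    _ = ENNReal.ofReal (1 / 16) := by
        rw [Finset.sum_const, hc, nsmul_eq_mul, ← ENNReal.ofReal_natCast,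
          ← ENNReal.ofReal_mul (by positivity), ← ENNReal.ofReal_mul (by positivity)]
        norm_num

theorem continuous_F2 (g : JJ r m₀ M → ℝ) : Continuous (F2 r m₀ M g) := by
  have h1 : F2 r m₀ M g = fun x => ∑ q ∈ QQ, F2q r m₀ M g q x := funext (F2_eq g)
  rw [h1]
  exact continuous_finsetSum _ fun q _ => continuous_F2q g q

theorem continuous_F0 (g : JJ r m₀ M → ℝ) : Continuous (F0 r m₀ M g) := continuous_const

theorem continuous_FF (g : JJ r m₀ M → ℝ) : Continuous (FF r m₀ M g) :=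
  ((continuous_F0 g).add (continuous_F1 g)).add (continuous_F2 g)

/-- All prior functions lie in the unit ball.
`F0`: `mixNormSq ≤ 1/64`; `F1`: coefficients at `h ∈ Lam r` are `≤ 2 τ₁`, `weight_le`, so
`mixNormSq ≤ 1/64`; `F2`: split the grid into 16 classes (`i % 4`, `j % 4`), two different centres of
one shape and class are not `near s.1 s.2`; `mixNormSq_shapes_le` (k = 3/4) for every class, at most
`4 * 2^m` indices per shape, `∑_{m ≥ m₀} 2^{-(m - m₀)/4} ≤ 13/2`; `mixNormSq ≤ 1/16`. -/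
theorem FF_mem_mixBall (r m₀ M : ℕ) {g : JJ r m₀ M → ℝ} (hg : ∀ j, |g j| ≤ 1) :
    FF r m₀ M g ∈ mixBall 2 k₀ := by
  refine ⟨continuous_FF g, ?_⟩
  have h1 : FF r m₀ M g = fun x => ∑ i : Fin 3, (![F0 r m₀ M g, F1 r m₀ M g, F2 r m₀ M g] i) x := by
    funext x
    rw [Fin.sum_univ_three]
    rfl
  rw [h1]
  refine (mixNormSq_sum_le Finset.univ
    (fun i : Fin 3 => ![F0 r m₀ M g, F1 r m₀ M g, F2 r m₀ M g] i) ?_).trans ?_
  · intro i _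
    fin_cases i
    · exact continuous_F0 g
    · exact continuous_F1 g
    · exact continuous_F2 g
  · rw [Fin.sum_univ_three]
    calc ENNReal.ofReal ((Finset.univ : Finset (Fin 3)).card : ℝ) *
          (mixNormSq k₀ (F0 r m₀ M g) + mixNormSq k₀ (F1 r m₀ M g) + mixNormSq k₀ (F2 r m₀ M g))
        ≤ ENNReal.ofReal ((Finset.univ : Finset (Fin 3)).card : ℝ) *
          (ENNReal.ofReal (1 / 64) + ENNReal.ofReal (1 / 64) + ENNReal.ofReal (1 / 16)) := by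
          gcongr
          · exact norm_F0 hg
          · exact norm_F1 hg
          · exact norm_F2 hg
      _ ≤ 1 := by
          rw [← ENNReal.ofReal_add (by norm_num) (by norm_num),
            ← ENNReal.ofReal_add (by norm_num) (by norm_num),
            ← ENNReal.ofReal_mul (by positivity), ENNReal.ofReal_le_one, Finset.card_univ,
            Fintype.card_fin]
          norm_num

end Pool.Agent.Helper6.MixRan
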