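import Pool.Agent.Helper6.MixRan.Prior
import Pool.Agent.Helper6.MixRan.Norm

/-!
# The lower bound from the fooling functions in the frame
-/

open MeasureTheory UnitAddTorus Filter Topology Set
open scoped ENNReal

noncomputable section

namespace Pool.Agent.Helper6.MixRan

open Pool.Agent.Helper59.MixInt

variable {r m₀ M : ℕ}

/-- the members of the frame -/
def psi (r m₀ M : ℕ) : JJ r m₀ M → Tor 2 → ℝ
  | Sum.inl _ => fun _ => τ₀
  | Sum.inr (Sum.inl (h, false)) => fun x => τ₁ r * (mFourier h.1 x).re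
  | Sum.inr (Sum.inl (h, true)) => fun x => τ₁ r * (mFourier h.1 x).im
  | Sum.inr (Sum.inr t) => fun x => τ₂ m₀ (t.1.1 + t.1.2.1) * hatf t.1 x

theorem FF_eq_sum (g : JJ r m₀ M → ℝ) (x : Tor 2) :
    FF r m₀ M g x = ∑ j, g j * psi r m₀ M j x := by
  unfold FF F0 F1 F2
  rw [Fintype.sum_sum_type, Fintype.sum_sum_type, Fintype.sum_prod_type]
  simp only [Finset.univ_unique, Finset.sum_singleton, Fintype.sum_bool, psi]
  rw [← add_assoc]
  congr 1
  · congr 1
    · rw [mul_comm]
    · refine Finset.sum_congr rfl fun h _ => ?_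
      ring
  · refine Finset.sum_congr rfl fun t _ => ?_
    ring

theorem continuous_hatf (t : ℕ × ℕ × ℕ × ℕ) : Continuous (hatf t) := by
  unfold hatf
  exact continuous_prod2_hat _ _ _

theorem continuous_psi (j : JJ r m₀ M) : Continuous (psi r m₀ M j) := by
  rcases j with _ | ⟨h, b⟩ | t
  · exact continuous_const
  · cases b
    · exact continuous_const.mul (Complex.continuous_re.comp (map_continuous (mFourier h.1)))
    · exact continuous_const.mul (Complex.continuous_im.comp (map_continuous (mFourier h.1)))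
  · exact continuous_const.mul (continuous_hatf t.1)

theorem integrable_psi (j : JJ r m₀ M) : Integrable (psi r m₀ M j) (unif 2) := by
  obtain ⟨B, hB⟩ := IsCompact.exists_bound_of_continuousOn (isCompact_univ (X := Tor 2))
    (continuous_psi j).continuousOn
  exact integrable_of_bdd (continuous_psi j).measurable (B := B)
    (fun x => by simpa using hB x (Set.mem_univ x))

theorem integ_FF (g : JJ r m₀ M → ℝ) :
    integ (FF r m₀ M g) = ∑ j, g j * integ (psi r m₀ M j) := by
  unfold integ
  simp only [FF_eq_sum]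
  rw [integral_finsetSum _ fun j _ => (integrable_psi j).const_mul _]
  refine Finset.sum_congr rfl fun j _ => ?_
  rw [integral_const_mul]

theorem eRanIID_ge_of {n r m₀ M : ℕ} {K : ℝ} (hK : 0 < K) (G : Set (Fin n → Tor 2))
    (hGm : MeasurableSet G) (hG2 : ENNReal.ofReal (1 / 2) ≤ iidLaw 2 n G)
    (hG : ∀ P ∈ G, ∃ w : JJ r m₀ M → ℝ, (∀ i, FF r m₀ M w (P i) = 0) ∧
      1 / 2 ≤ integ (FF r m₀ M w) ∧ ∑ j, w j ^ 2 ≤ K) :
    ENNReal.ofReal (1 / (64 * Real.sqrt (6 * K))) ≤ eRanIID 2 k₀ n := by
  unfold eRanIID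
  refine le_iInf fun A => le_iInf fun hJ => le_iInf fun hI => ?_
  set δ : ℝ := 1 / Real.sqrt (6 * K) with hδ
  have hs : 0 < Real.sqrt (6 * K) := Real.sqrt_pos.2 (by positivity)
  have hδ0 : 0 < δ := by positivity
  have hδK : δ ^ 2 * K = 1 / 6 := by
    rw [hδ, div_pow, one_pow, Real.sq_sqrt (by positivity)]
    field_simp
  -- the integrand
  set H : (JJ r m₀ M → ℝ) → A.Ω → ℝ≥0∞ := fun g ω =>
    ENNReal.ofReal |integ (FF r m₀ M g) - A.out ω (FF r m₀ M g)| with hH
  have hHm : Measurable fun p : (JJ r m₀ M → ℝ) × A.Ω => H p.1 p.2 := by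
    refine ENNReal.measurable_ofReal.comp (continuous_abs.measurable.comp (Measurable.sub ?_ ?_))
    · simp only [integ_FF]
      exact Finset.measurable_fun_sum _ fun j _ =>
        ((measurable_pi_apply j).comp measurable_fst).mul_const _
    · have : (fun p : (JJ r m₀ M → ℝ) × A.Ω => A.out p.2 (FF r m₀ M p.1)) =
          (fun q : A.Ω × (Fin n → ℝ) => A.φ q.1 q.2) ∘
            fun p : (JJ r m₀ M → ℝ) × A.Ω => (p.2, fun i => FF r m₀ M p.1 (A.pts p.2 i)) := by
        ext p
        rfl
      rw [this]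
      refine Measurable.comp hJ (measurable_snd.prodMk ?_)
      rw [measurable_pi_iff]
      intro i
      simp only [FF_eq_sum]
      refine Finset.measurable_fun_sum _ fun j _ => ?_
      refine ((measurable_pi_apply j).comp measurable_fst).mul ?_
      exact (continuous_psi j).measurable.comp
        ((measurable_pi_apply i).comp (A.meas.comp measurable_snd))
  -- upper estimate
  have hup : ∫⁻ g, (∫⁻ ω, H g ω ∂A.μ) * ENNReal.ofReal (dens g) ≤ errRan k₀ A := by
    calc ∫⁻ g, (∫⁻ ω, H g ω ∂A.μ) * ENNReal.ofReal (dens g)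
        ≤ ∫⁻ g : JJ r m₀ M → ℝ, errRan k₀ A * ENNReal.ofReal (dens g) := by
          refine lintegral_mono fun g => ?_
          by_cases hg : ∀ j, |g j| ≤ 1
          · gcongr
            unfold errRan
            exact le_iSup₂ (f := fun f (_ : f ∈ mixBall 2 k₀) =>
              ∫⁻ ω, ENNReal.ofReal |integ f - A.out ω f| ∂A.μ) _ (FF_mem_mixBall r m₀ M hg)
          · push Not at hg
            obtain ⟨j, hj⟩ := hg
            rw [dens_eq_zero (j := j) hj.le]
            simp
      _ = errRan k₀ A := by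
          have hm : Measurable fun g : JJ r m₀ M → ℝ => ENNReal.ofReal (dens g) :=
            ENNReal.measurable_ofReal.comp measurable_dens
          rw [lintegral_const_mul _ hm, lintegral_dens, mul_one]
  refine le_trans ?_ hup
  -- Tonelli
  have hswap : ∫⁻ g, (∫⁻ ω, H g ω ∂A.μ) * ENNReal.ofReal (dens g) =
      ∫⁻ ω, (∫⁻ g, H g ω * ENNReal.ofReal (dens g)) ∂A.μ := by
    have h1 : ∀ g : JJ r m₀ M → ℝ, (∫⁻ ω, H g ω ∂A.μ) * ENNReal.ofReal (dens g) =
        ∫⁻ ω, H g ω * ENNReal.ofReal (dens g) ∂A.μ := by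
      intro g
      rw [lintegral_mul_const]
      exact hHm.comp measurable_prodMk_left
    simp only [h1]
    refine lintegral_lintegral_swap ?_
    refine Measurable.aemeasurable (hHm.mul ?_)
    exact (ENNReal.measurable_ofReal.comp measurable_dens).comp measurable_fst
  rw [hswap]
  -- lower estimate
  have hpre : MeasurableSet (A.pts ⁻¹' G) := A.meas hGm
  have hμ : A.μ (A.pts ⁻¹' G) = iidLaw 2 n G := by
    rw [← Measure.map_apply A.meas hGm]
    unfold RandAlg.IsIID at hI
    rw [hI]
  have hlow : ∀ ω ∈ A.pts ⁻¹' G, ENNReal.ofReal (δ / 2) / 16 ≤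
      ∫⁻ g, H g ω * ENNReal.ofReal (dens g) := by
    intro ω hω
    obtain ⟨w, hw0, hwi, hwK⟩ := hG _ hω
    refine prior_bound (G := fun g => H g ω) (hHm.comp measurable_prodMk_right)
      (fun j => δ * w j) ?_ ?_
    · simp only [mul_pow]
      rw [← Finset.mul_sum, ← hδK]
      gcongr
    · intro g
      have e1 : FF r m₀ M (g + fun j => δ * w j) =
          fun x => FF r m₀ M g x + δ * FF r m₀ M w x := by
        ext x
        simp only [FF_eq_sum, Pi.add_apply, Finset.mul_sum, ← Finset.sum_add_distrib]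
        refine Finset.sum_congr rfl fun j _ => ?_
        ring
      have e2 : A.out ω (FF r m₀ M (g + fun j => δ * w j)) = A.out ω (FF r m₀ M g) := by
        unfold RandAlg.out
        congr 1
        ext i
        rw [e1]
        simp only
        rw [hw0 i]
        ring
      have e3 : integ (FF r m₀ M (g + fun j => δ * w j)) =
          integ (FF r m₀ M g) + δ * integ (FF r m₀ M w) := by
        simp only [integ_FF, Pi.add_apply, Finset.mul_sum, ← Finset.sum_add_distrib]
        refine Finset.sum_congr rfl fun j _ => ?_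
        ring
      simp only [hH]
      rw [e2, e3, ← ENNReal.ofReal_add (abs_nonneg _) (abs_nonneg _)]
      apply ENNReal.ofReal_le_ofReal
      set a := integ (FF r m₀ M g) - A.out ω (FF r m₀ M g) with ha
      have h5 : integ (FF r m₀ M g) + δ * integ (FF r m₀ M w) - A.out ω (FF r m₀ M g) =
          a + δ * integ (FF r m₀ M w) := by
        rw [ha]
        ring
      rw [h5]
      have h6 : δ / 2 ≤ δ * integ (FF r m₀ M w) := by nlinarith
      have h7 := neg_abs_le a
      have h8 := le_abs_self (a + δ * integ (FF r m₀ M w))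
      linarith
  calc ENNReal.ofReal (1 / (64 * Real.sqrt (6 * K)))
      = ENNReal.ofReal (δ / 2) / 16 * ENNReal.ofReal (1 / 2) := by
        have h16 : (16 : ℝ≥0∞) = ENNReal.ofReal 16 := by simp
        rw [h16, ← ENNReal.ofReal_div_of_pos (by norm_num), ← ENNReal.ofReal_mul (by positivity)]
        congr 1
        rw [hδ]
        field_simp
        norm_num
    _ ≤ ENNReal.ofReal (δ / 2) / 16 * A.μ (A.pts ⁻¹' G) := by
        rw [hμ]
        gcongr
    _ = ∫⁻ ω, (A.pts ⁻¹' G).indicator (fun _ => ENNReal.ofReal (δ / 2) / 16) ω ∂A.μ := by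
        rw [lintegral_indicator hpre]
        simp
    _ ≤ ∫⁻ ω, (∫⁻ g, H g ω * ENNReal.ofReal (dens g)) ∂A.μ := by
        refine lintegral_mono fun ω => ?_
        by_cases hω : ω ∈ A.pts ⁻¹' G
        · rw [Set.indicator_of_mem hω]
          exact hlow ω hω
        · rw [Set.indicator_of_notMem hω]
          exact bot_le

end Pool.Agent.Helper6.MixRan
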