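import Pool.Agent.Helper6.MixRan.DigitsB

/-!
# Scrambled Hammersley points, part C: the exact formula and the bound
-/

open Finset
open scoped ComplexConjugate

noncomputable section

namespace Pool.Agent.Helper6.MixRan.Dig

/-- indicator of `i, i'` having the same first `c` digits -/
def ag {m : ℕ} (c : ℕ) (i i' : Idx m) : ℝ :=
  ∏ k : Fin m, (if k.1 < c then (if i k = i' k then 1 else 0) else 1)

theorem ag_one {m c : ℕ} {i i' : Idx m} (h : ∀ k : Fin m, k.1 < c → i k = i' k) :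
    ag c i i' = 1 := by
  unfold ag
  refine Finset.prod_eq_one fun k _ => ?_
  by_cases hk : k.1 < c
  · rw [if_pos hk, if_pos (h k hk)]
  · rw [if_neg hk]

theorem ag_zero {m c : ℕ} {i i' : Idx m} {k : Fin m} (hk : k.1 < c) (h : i k ≠ i' k) :
    ag c i i' = 0 := by
  unfold ag
  refine Finset.prod_eq_zero (Finset.mem_univ k) ?_
  rw [if_pos hk, if_neg h]

/-- kernel value at first difference `c` -/
def rho (N : ℕ) (h : ℤ) (c : ℕ) : ℝ := 2 * AA N h c - AA N h (c + 1)

/-- kernel value at common prefix length `c` -/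
def RR (m N : ℕ) (h : ℤ) (c : ℕ) : ℝ := if c < m then rho N h c else 1

/-- increments -/
def be (m N : ℕ) (h : ℤ) (c : ℕ) : ℝ := if c = 0 then RR m N h 0 else RR m N h c - RR m N h (c - 1)

theorem sum_be (m N : ℕ) (h : ℤ) (k : ℕ) :
    ∑ c ∈ Finset.range (k + 1), be m N h c = RR m N h k := by
  induction k with
  | zero => simp [be]
  | succ k ih =>
    rw [Finset.sum_range_succ, ih]
    simp [be]

theorem first_diff {m : ℕ} {i i' : Idx m} (h : i ≠ i') :
    ∃ c : Fin m, i c ≠ i' c ∧ ∀ k < c, i k = i' k := by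
  classical
  obtain ⟨k, hk⟩ := Function.ne_iff.mp h
  have hS : (Finset.univ.filter fun k : Fin m => i k ≠ i' k).Nonempty := ⟨k, by simp [hk]⟩
  refine ⟨Finset.min' _ hS, ?_, ?_⟩
  · have := Finset.min'_mem _ hS
    simpa using this
  · intro l hl
    by_contra hne
    have : Finset.min' _ hS ≤ l := Finset.min'_le _ _ (by simp [hne])
    exact absurd hl (not_lt.mpr this)

theorem prod_QQ {m N : ℕ} (hmN : m ≤ N) (h : ℤ) (i i' : Idx m) :
    ∏ r ∈ Finset.range N, QQ h i i' r = ∑ c ∈ Finset.range (m + 1), be m N h c * ag c i i' := by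
  by_cases hi : i = i'
  · subst hi
    have h1 : ∏ r ∈ Finset.range N, QQ h i i r = 1 := by
      apply Finset.prod_eq_one
      intro r _
      simp [QQ]
    have h2 : ∀ c, ag c i i = 1 := fun c => ag_one fun _ _ => rfl
    rw [h1]
    simp_rw [h2, mul_one]
    rw [sum_be]
    simp [RR]
  · obtain ⟨c, hc, hlt⟩ := first_diff hi
    have htr : ∀ r ≤ c.1, tr i r = tr i' r := by
      intro r hr
      funext k
      unfold tr
      by_cases hk : k.1 < r
      · rw [if_pos hk, if_pos hk]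
        exact hlt k (Fin.lt_def.mpr (by omega))
      · rw [if_neg hk, if_neg hk]
    have h1 : ∀ r < c.1, QQ h i i' r = 1 := by
      intro r hr
      unfold QQ
      rw [if_pos (htr r hr.le), if_pos]
      unfold dg
      have hrm : r < m := by omega
      rw [dif_pos hrm, dif_pos hrm]
      exact hlt ⟨r, hrm⟩ (Fin.lt_def.mpr hr)
    have h2 : QQ h i i' c.1 = 2 * cs h c.1 ^ 2 - 1 := by
      unfold QQ
      rw [if_pos (htr c.1 le_rfl), if_neg]
      unfold dg
      rw [dif_pos c.2, dif_pos c.2]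
      exact hc
    have h3 : ∀ r, c.1 < r → QQ h i i' r = cs h r ^ 2 := by
      intro r hr
      unfold QQ
      rw [if_neg]
      intro hcon
      have := congrFun hcon c
      unfold tr at this
      rw [if_pos hr, if_pos hr] at this
      exact hc this
    have hcN : c.1 < N := lt_of_lt_of_le c.2 hmN
    have h4 : ∏ r ∈ Finset.range N, QQ h i i' r = rho N h c.1 := by
      rw [← Finset.prod_range_mul_prod_Ico _ hcN.le,
        Finset.prod_eq_one (fun r hr => h1 r (Finset.mem_range.mp hr)), one_mul,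
        Finset.prod_eq_prod_Ico_succ_bot hcN, h2]
      have h5 : ∏ r ∈ Finset.Ico (c.1 + 1) N, QQ h i i' r = AA N h (c.1 + 1) := by
        unfold AA
        refine Finset.prod_congr rfl fun r hr => h3 r ?_
        rw [Finset.mem_Ico] at hr
        omega
      rw [h5]
      unfold rho
      rw [AA_succ h hcN]
      ring
    rw [h4]
    have h6 : ∀ d ∈ Finset.range (m + 1), be m N h d * ag d i i' =
        if d < c.1 + 1 then be m N h d else 0 := by
      intro d _
      by_cases hd : d < c.1 + 1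
      · rw [if_pos hd, ag_one, mul_one]
        intro k hk
        exact hlt k (Fin.lt_def.mpr (by omega))
      · rw [if_neg hd, ag_zero (k := c) (by omega) hc, mul_zero]
    rw [Finset.sum_congr rfl h6, ← Finset.sum_filter]
    have h7 : (Finset.range (m + 1)).filter (fun d => d < c.1 + 1) = Finset.range (c.1 + 1) := by
      ext d
      simp only [Finset.mem_filter, Finset.mem_range]
      have := c.2
      omega
    rw [h7, sum_be]
    simp [RR, c.2]

/-- reversal of the digits -/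
def rv {m : ℕ} (i : Idx m) : Idx m := fun k => i (Fin.rev k)

theorem ag_rv {m c : ℕ} (i i' : Idx m) :
    ag c (rv i) (rv i') =
      ∏ k : Fin m, (if (Fin.rev k).1 < c then (if i k = i' k then 1 else 0) else 1) := by
  unfold ag rv
  rw [← Equiv.prod_comp Fin.revPerm]
  simp

theorem count {m : ℕ} (i : Idx m) (c c' : ℕ) :
    ∑ i' : Idx m, ag c i i' * ag c' (rv i) (rv i') = (2 : ℝ) ^ (m - c - c') := by
  simp_rw [ag_rv]
  unfold ag
  simp_rw [← Finset.prod_mul_distrib]
  have h1 : ∑ i' : Idx m, ∏ k : Fin m, ((if k.1 < c then (if i k = i' k then (1 : ℝ) else 0) else 1) *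
      (if (Fin.rev k).1 < c' then (if i k = i' k then 1 else 0) else 1)) =
      ∏ k : Fin m, ∑ x : Bool, ((if k.1 < c then (if i k = x then (1 : ℝ) else 0) else 1) *
      (if (Fin.rev k).1 < c' then (if i k = x then 1 else 0) else 1)) := by
    rw [Finset.prod_univ_sum, Fintype.piFinset_univ]
  rw [h1]
  have h2 : ∀ k : Fin m, ∑ x : Bool, ((if k.1 < c then (if i k = x then (1 : ℝ) else 0) else 1) *
      (if (Fin.rev k).1 < c' then (if i k = x then 1 else 0) else 1)) =
      if (c ≤ k.1 ∧ k.1 < m - c') then 2 else 1 := by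
    intro k
    have hr : (Fin.rev k).1 = m - 1 - k.1 := by rw [Fin.val_rev]; omega
    have hk := k.2
    rw [hr]
    by_cases ha : k.1 < c
    · have hn : ¬ (c ≤ k.1 ∧ k.1 < m - c') := by omega
      rw [if_neg hn]
      rcases hb : i k with _ | _ <;> simp [ha]
    · by_cases hb' : m - 1 - k.1 < c'
      · have hn : ¬ (c ≤ k.1 ∧ k.1 < m - c') := by omega
        rw [if_neg hn]
        rcases hb : i k with _ | _ <;> simp [ha, hb']
      · have hn : (c ≤ k.1 ∧ k.1 < m - c') := by omega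
        rw [if_pos hn]
        simp only [ha, hb', if_false, mul_one, Fintype.sum_bool]
        norm_num
  rw [Finset.prod_congr rfl fun k _ => h2 k]
  rw [← Finset.prod_range (fun k => if (c ≤ k ∧ k < m - c') then (2 : ℝ) else 1)]
  rw [Finset.prod_ite, Finset.prod_const, Finset.prod_const_one, mul_one]
  congr 1
  have h3 : (Finset.range m).filter (fun k => c ≤ k ∧ k < m - c') = Finset.Ico c (m - c') := by
    ext k
    simp only [Finset.mem_filter, Finset.mem_range, Finset.mem_Ico]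
    omega
  rw [h3, Nat.card_Ico]
  omega

/-- the sum over the second index -/
def TT (m N : ℕ) (h h' : ℤ) : ℝ :=
  ∑ c ∈ Finset.range (m + 1), ∑ c' ∈ Finset.range (m + 1),
    be m N h c * be m N h' c' * 2 ^ (m - c - c')

theorem sum_kernel {m N : ℕ} (hmN : m ≤ N) (h h' : ℤ) (i : Idx m) :
    ∑ i' : Idx m, (∏ r ∈ Finset.range N, QQ h i i' r) *
      (∏ r ∈ Finset.range N, QQ h' (rv i) (rv i') r) = TT m N h h' := by
  simp_rw [prod_QQ hmN, Finset.sum_mul_sum]
  unfold TT
  rw [Finset.sum_comm]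
  refine Finset.sum_congr rfl fun c _ => ?_
  rw [Finset.sum_comm]
  refine Finset.sum_congr rfl fun c' _ => ?_
  rw [← count i c c', Finset.mul_sum]
  refine Finset.sum_congr rfl fun i' _ => ?_
  ring

theorem TT_symm (m N : ℕ) (h h' : ℤ) : TT m N h h' = TT m N h' h := by
  unfold TT
  rw [Finset.sum_comm]
  refine Finset.sum_congr rfl fun c _ => Finset.sum_congr rfl fun c' _ => ?_
  rw [Nat.sub_right_comm]
  ring

/-- the one coordinate sum -/
def GG (m N : ℕ) (h : ℤ) (t : ℕ) : ℝ :=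
  ∑ c ∈ Finset.range (m + 1), be m N h c * 2 ^ (t - c)

theorem GG_eq {m N : ℕ} (h : ℤ) {t : ℕ} (ht : t ≤ m) :
    GG m N h t = 1 - AA N h t + 2 ^ t * AA N h 0 := by
  induction t with
  | zero =>
    unfold GG
    simp only [Nat.zero_sub, pow_zero, mul_one]
    rw [sum_be]
    simp [RR]
  | succ t ih =>
    have ih' := ih (by omega)
    have h1 : GG m N h (t + 1) = 2 * GG m N h t - (RR m N h m - RR m N h t) := by
      rw [← sum_be m N h m, ← sum_be m N h t]
      unfold GG
      have h7 : ∑ c ∈ Finset.range (t + 1), be m N h c =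
          ∑ c ∈ Finset.range (m + 1), if c < t + 1 then be m N h c else 0 := by
        rw [← Finset.sum_filter]
        congr 1
        ext d
        simp only [Finset.mem_filter, Finset.mem_range]
        omega
      rw [h7, Finset.mul_sum, ← Finset.sum_sub_distrib, ← Finset.sum_sub_distrib]
      refine Finset.sum_congr rfl fun c _ => ?_
      by_cases hc : c < t + 1
      · rw [if_pos hc]
        have : t + 1 - c = (t - c) + 1 := by omega
        rw [this, pow_succ]
        ring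
      · rw [if_neg hc]
        have e1 : t + 1 - c = 0 := by omega
        have e2 : t - c = 0 := by omega
        rw [e1, e2]
        ring
    rw [h1, ih']
    have h2 : RR m N h m = 1 := by simp [RR]
    have h3 : RR m N h t = rho N h t := by
      unfold RR
      rw [if_pos (by omega)]
    rw [h2, h3]
    unfold rho
    rw [pow_succ]
    ring

theorem TT_eq (m N : ℕ) (h h' : ℤ) :
    TT m N h h' = ∑ c ∈ Finset.range (m + 1), be m N h c * GG m N h' (m - c) := by
  unfold TT GG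
  refine Finset.sum_congr rfl fun c _ => ?_
  rw [Finset.mul_sum]
  refine Finset.sum_congr rfl fun c' _ => ?_
  ring

theorem TT_dvd {m N : ℕ} {h h' : ℤ} (hd : (2 : ℤ) ^ N ∣ h') :
    TT m N h h' = 1 - AA N h m + 2 ^ m * AA N h 0 := by
  rw [TT_eq, ← GG_eq h le_rfl]
  unfold GG
  refine Finset.sum_congr rfl fun c _ => ?_
  congr 1
  have := GG_eq (m := m) (N := N) h' (t := m - c) (by omega)
  unfold GG at this
  rw [this, AA_of_dvd hd, AA_of_dvd hd]
  ring

theorem TT_le_sum {m N : ℕ} (hm : 0 < m) {h h' : ℤ} (hd : ¬ (2 : ℤ) ^ N ∣ h)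
    (hd' : ¬ (2 : ℤ) ^ N ∣ h') :
    TT m N h h' ≤ 2 * (∑ c ∈ Finset.range m, (AA N h (c + 1) - AA N h c) * (1 - AA N h' (m - 1 - c)))
      + (1 - AA N h m) := by
  rw [TT_eq, Finset.sum_range_succ']
  have hG : ∀ t ≤ m, GG m N h' t = 1 - AA N h' t := by
    intro t ht
    rw [GG_eq h' ht, AA_zero hd']
    ring
  have hz : be m N h 0 * GG m N h' (m - 0) ≤ 0 := by
    rw [hG _ (by omega)]
    have h1 : be m N h 0 = - AA N h 1 := by
      simp [be, RR, hm, rho, AA_zero hd]
    rw [h1]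
    have := AA_nonneg N h 1
    have h2 := AA_le_one N h' (m - 0)
    nlinarith
  have hstep : ∀ c ∈ Finset.range m, be m N h (c + 1) * GG m N h' (m - (c + 1)) ≤
      2 * ((AA N h (c + 1) - AA N h c) * (1 - AA N h' (m - 1 - c))) +
        (if c = m - 1 then (1 - AA N h m) else 0) := by
    intro c hc
    rw [Finset.mem_range] at hc
    have e1 : m - (c + 1) = m - 1 - c := by omega
    rw [e1, hG _ (by omega)]
    have hg0 : 0 ≤ 1 - AA N h' (m - 1 - c) := by linarith [AA_le_one N h' (m - 1 - c)]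
    by_cases hcm : c = m - 1
    · rw [if_pos hcm]
      have h2 : be m N h (c + 1) = 2 * (AA N h (c + 1) - AA N h c) + (1 - AA N h m) := by
        unfold be RR rho
        rw [if_neg (Nat.succ_ne_zero c), Nat.add_sub_cancel, if_neg (by omega), if_pos (by omega)]
        have : m = c + 1 := by omega
        rw [← this]
        ring
      rw [h2]
      have h3 : m - 1 - c = 0 := by omega
      rw [h3, AA_zero hd']
      linarith
    · rw [if_neg hcm, add_zero, ← mul_assoc]
      apply mul_le_mul_of_nonneg_right _ hg0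
      unfold be RR rho
      rw [if_neg (Nat.succ_ne_zero c), Nat.add_sub_cancel, if_pos (by omega), if_pos (by omega)]
      have := AA_mono N h (c + 1)
      linarith
  have hsum := Finset.sum_le_sum hstep
  rw [Finset.sum_add_distrib, ← Finset.mul_sum, Finset.sum_ite_eq' (Finset.range m) (m - 1)
    (fun _ => 1 - AA N h m), if_pos (Finset.mem_range.mpr (by omega))] at hsum
  linarith

/-- the potential -/
theorem min_le_pot {y : ℝ} (hy : 0 < y) (T : ℝ) (h1 : T ≤ y) (h2 : T ≤ 1 / y) :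
    T ≤ 6 * (2 * y / (1 + 2 * y) - y / (1 + y)) := by
  have e : 2 * y / (1 + 2 * y) - y / (1 + y) = y / ((1 + 2 * y) * (1 + y)) := by
    field_simp
    ring
  rw [e]
  by_cases hy1 : y ≤ 1
  · refine h1.trans ?_
    rw [← mul_div_assoc, le_div_iff₀ (by positivity)]
    nlinarith [mul_pos hy hy]
  · push Not at hy1
    refine h2.trans ?_
    rw [← mul_div_assoc, div_le_div_iff₀ hy (by positivity)]
    nlinarith [mul_pos hy hy]

theorem sum_bound {m : ℕ} {P Q z : ℝ} (hP : 0 < P) (hQ : 0 < Q) (hz : 0 < z)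
    (hz2 : z ^ 2 = 2 ^ m) {f g : ℕ → ℝ} (hf1 : ∀ c, f c ≤ 1)
    (hg0 : ∀ c, 0 ≤ g c) (hg1 : ∀ c, g c ≤ 1)
    (hf : ∀ c, f c ≤ 4 * P ^ 4 / 4 ^ c) (hg : ∀ c, g c ≤ 4 * Q ^ 4 / 4 ^ c) :
    ∑ c ∈ Finset.range m, f c * g (m - 1 - c) ≤ 192 * (P ^ 3 * Q ^ 3 / z ^ 3) := by
  set ζ : ℝ := P / Q * z with hζ
  have hζ0 : 0 < ζ := by positivity
  set Ψ : ℕ → ℝ := fun c => (ζ * 2 / 2 ^ c) / (1 + ζ * 2 / 2 ^ c) with hΨ
  have hterm : ∀ c ∈ Finset.range m, f c * g (m - 1 - c) ≤
      32 * (P ^ 3 * Q ^ 3 / z ^ 3) * (6 * (Ψ c - Ψ (c + 1))) := by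
    intro c hc
    rw [Finset.mem_range] at hc
    set y : ℝ := ζ / 2 ^ c with hy
    have hy0 : 0 < y := by positivity
    have e1 : Ψ c - Ψ (c + 1) = 2 * y / (1 + 2 * y) - y / (1 + y) := by
      simp only [hΨ, hy]
      have a1 : ζ * 2 / 2 ^ c = 2 * (ζ / 2 ^ c) := by ring
      have a2 : ζ * 2 / 2 ^ (c + 1) = ζ / 2 ^ c := by
        rw [pow_succ]; field_simp
      rw [a1, a2]
    set K : ℝ := 32 * (P ^ 3 * Q ^ 3 / z ^ 3) with hK
    have hK0 : 0 < K := by positivity
    have key : f c * g (m - 1 - c) / K ≤ 6 * (Ψ c - Ψ (c + 1)) := by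
      rw [e1]
      obtain ⟨d, rfl⟩ : ∃ d, m = c + 1 + d := ⟨m - (c + 1), by omega⟩
      have e2 : c + 1 + d - 1 - c = d := by omega
      rw [e2]
      set a : ℝ := 2 * P ^ 2 / 2 ^ c with ha
      set b : ℝ := 2 * Q ^ 2 / 2 ^ d with hb
      have ha0 : 0 < a := by positivity
      have hb0 : 0 < b := by positivity
      have hfa : f c ≤ a ^ 2 := by
        refine (hf c).trans_eq ?_
        rw [ha, div_pow, ← pow_mul, mul_comm c 2, pow_mul]
        norm_num
        ring
      have hgb : g d ≤ b ^ 2 := by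
        refine (hg d).trans_eq ?_
        rw [hb, div_pow, ← pow_mul, mul_comm d 2, pow_mul]
        norm_num
        ring
      have hfa' : f c ≤ a := by
        by_cases h1 : a ≤ 1
        · nlinarith
        · push Not at h1
          exact (hf1 c).trans h1.le
      have hgb' : g d ≤ b := by
        by_cases h1 : b ≤ 1
        · nlinarith
        · push Not at h1
          exact (hg1 d).trans h1.le
      apply min_le_pot hy0
      · rw [div_le_iff₀ hK0]
        have h3 : f c * g d ≤ a ^ 2 * b :=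
          mul_le_mul hfa hgb' (hg0 d) (by positivity)
        refine h3.trans ?_
        have h4 : y * K = 32 * P ^ 4 * Q ^ 2 / (z ^ 2 * 2 ^ c) := by
          rw [hy, hK, hζ]
          field_simp
        have h5 : a ^ 2 * b = 16 * P ^ 4 * Q ^ 2 / (2 ^ (c + 1 + d) * 2 ^ c) := by
          rw [ha, hb, pow_add, pow_add]
          field_simp
          ring
        rw [h4, h5, hz2]
        gcongr
        norm_num
      · rw [div_le_iff₀ hK0]
        have h3 : f c * g d ≤ a * b ^ 2 :=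
          mul_le_mul hfa' hgb (hg0 d) (by positivity)
        refine h3.trans ?_
        have h4 : 1 / y * K = 32 * P ^ 2 * Q ^ 4 * 2 ^ c / (z ^ 2) ^ 2 := by
          rw [hy, hK, hζ]
          field_simp
        have h5 : a * b ^ 2 = 32 * P ^ 2 * Q ^ 4 * 2 ^ c / (2 ^ (c + 1 + d)) ^ 2 := by
          rw [ha, hb, pow_add, pow_add]
          field_simp
          ring
        rw [h4, h5, hz2]
    rw [div_le_iff₀ hK0] at key
    linarith
  refine (Finset.sum_le_sum hterm).trans ?_
  rw [← Finset.mul_sum, ← Finset.mul_sum, Finset.sum_range_sub']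
  have hΨ0 : Ψ 0 ≤ 1 := by
    simp only [hΨ]
    rw [div_le_one (by positivity)]
    linarith
  have hΨm : 0 ≤ Ψ m := by
    simp only [hΨ]
    positivity
  have hK0 : 0 < P ^ 3 * Q ^ 3 / z ^ 3 := by positivity
  nlinarith

theorem one_sub_bound {m : ℕ} {P z : ℝ} (hP : 0 < P) (hz : 0 < z) (hz2 : z ^ 2 = 2 ^ m) {f : ℝ}
    (hf1 : f ≤ 1) (hf : f ≤ 4 * P ^ 4 / 4 ^ m) : f ≤ 4 * (P ^ 3 / z ^ 3) := by
  have h4 : (4 : ℝ) ^ m = z ^ 4 := by
    have : (4 : ℝ) ^ m = (2 ^ m) ^ 2 := by rw [← pow_mul, mul_comm, pow_mul]; norm_num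
    rw [this, ← hz2]; ring
  rw [h4] at hf
  by_cases h : P ≤ z
  · refine hf.trans ?_
    rw [mul_div_assoc]
    have : P ^ 4 / z ^ 4 ≤ P ^ 3 / z ^ 3 := by
      rw [div_le_div_iff₀ (by positivity) (by positivity)]
      have h3 : P ^ 4 * z ^ 3 = P ^ 3 * z ^ 3 * P := by ring
      have h5 : P ^ 3 * z ^ 4 = P ^ 3 * z ^ 3 * z := by ring
      rw [h3, h5]
      exact mul_le_mul_of_nonneg_left h (by positivity)
    linarith
  · push Not at h
    have : 1 ≤ P ^ 3 / z ^ 3 := by
      rw [le_div_iff₀ (by positivity), one_mul]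
      exact pow_le_pow_left₀ hz.le h.le 3
    linarith

theorem TT_le {m : ℕ} (hm : 0 < m) {P Q z : ℝ} (hP : 1 ≤ P) (hQ : 1 ≤ Q) (hz : 0 < z)
    (hz2 : z ^ 2 = 2 ^ m) {h h' : ℤ} (hP4 : P ^ 4 = 1 + (h : ℝ) ^ 2)
    (hQ4 : Q ^ 4 = 1 + (h' : ℝ) ^ 2) (hne : h ≠ 0 ∨ h' ≠ 0) :
    TT m (2 * m) h h' ≤ 388 * (P ^ 3 * Q ^ 3 / z ^ 3) := by
  have hP0 : 0 < P := by linarith
  have hQ0 : 0 < Q := by linarith
  have hP3 : 1 ≤ P ^ 3 := one_le_pow₀ hP
  have hQ3 : 1 ≤ Q ^ 3 := one_le_pow₀ hQ
  have hz1 : 1 ≤ z ^ 2 := by rw [hz2]; exact one_le_pow₀ (by norm_num)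
  have hz1' : 1 ≤ z := by
    by_contra hcon
    push Not at hcon
    nlinarith
  have hAP : ∀ (x : ℤ) (X : ℝ), X ^ 4 = 1 + (x : ℝ) ^ 2 → ∀ c,
      1 - AA (2 * m) x c ≤ 4 * X ^ 4 / 4 ^ c := by
    intro x X hX c
    refine (one_sub_AA_le _ x c).trans ?_
    gcongr
    rw [hX]; linarith
  -- one coordinate divisible
  have hone : ∀ (x x' : ℤ) (X X' : ℝ), 1 ≤ X → 1 ≤ X' → X ^ 4 = 1 + (x : ℝ) ^ 2 →
      X' ^ 4 = 1 + (x' : ℝ) ^ 2 → (x ≠ 0 ∨ x' ≠ 0) → (2 : ℤ) ^ (2 * m) ∣ x' →
      TT m (2 * m) x x' ≤ 388 * (X ^ 3 * X' ^ 3 / z ^ 3) := by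
    intro x x' X X' hX hX' hX4 hX4' hx hd
    have hX0 : 0 < X := by linarith
    have hX0' : 0 < X' := by linarith
    have hX3 : 1 ≤ X ^ 3 := one_le_pow₀ hX
    have hX3' : 1 ≤ X' ^ 3 := one_le_pow₀ hX'
    rw [TT_dvd hd]
    by_cases hd2 : (2 : ℤ) ^ (2 * m) ∣ x
    · rw [AA_of_dvd hd2, AA_of_dvd hd2]
      have hbig : ∀ (w : ℤ) (W : ℝ), 1 ≤ W → W ^ 4 = 1 + (w : ℝ) ^ 2 → w ≠ 0 →
          (2 : ℤ) ^ (2 * m) ∣ w → z ^ 6 ≤ W ^ 3 := by
        intro w W hW hW4 hw hdw
        have h1 : (2 : ℤ) ^ (2 * m) ≤ |w| := by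
          have := Int.le_of_dvd (abs_pos.mpr hw) ((dvd_abs _ _).mpr hdw)
          exact this
        have h2 : (z ^ 4 : ℝ) ≤ |(w : ℝ)| := by
          have : ((2 : ℤ) ^ (2 * m) : ℝ) ≤ ((|w| : ℤ) : ℝ) := by exact_mod_cast h1
          rw [Int.cast_abs] at this
          refine le_trans (le_of_eq ?_) this
          have e : z ^ 4 = (z ^ 2) ^ 2 := by ring
          rw [e, hz2, ← pow_mul, mul_comm m 2]
          push_cast
          rfl
        have h3 : z ^ 8 ≤ W ^ 4 := by
          rw [hW4]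
          have : (z ^ 4) ^ 2 ≤ |(w : ℝ)| ^ 2 := pow_le_pow_left₀ (by positivity) h2 2
          rw [sq_abs] at this
          nlinarith
        have h4 : z ^ 2 ≤ W := by
          by_contra hcon
          push Not at hcon
          have : W ^ 4 < (z ^ 2) ^ 4 := pow_lt_pow_left₀ hcon (by linarith) (by norm_num)
          have e : (z ^ 2) ^ 4 = z ^ 8 := by ring
          rw [e] at this
          linarith
        calc z ^ 6 = (z ^ 2) ^ 3 := by ring
          _ ≤ W ^ 3 := pow_le_pow_left₀ (by positivity) h4 3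
      have hXX : z ^ 6 ≤ X ^ 3 * X' ^ 3 := by
        rcases hx with hx | hx
        · have := hbig x X hX hX4 hx hd2
          nlinarith
        · have := hbig x' X' hX' hX4' hx hd
          nlinarith
      have h5 : z ^ 3 ≤ X ^ 3 * X' ^ 3 / z ^ 3 := by
        rw [le_div_iff₀ (by positivity)]
        calc z ^ 3 * z ^ 3 = z ^ 6 := by ring
          _ ≤ _ := hXX
      have h6 : z ^ 2 ≤ z ^ 3 := pow_le_pow_right₀ hz1' (by norm_num)
      rw [← hz2]
      have : 0 ≤ X ^ 3 * X' ^ 3 / z ^ 3 := by positivity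
      linarith
    · rw [AA_zero hd2]
      have h1 := one_sub_bound hX0 hz hz2 (f := 1 - AA (2 * m) x m)
        (by linarith [AA_nonneg (2 * m) x m]) (hAP x X hX4 m)
      have h2 : X ^ 3 / z ^ 3 ≤ X ^ 3 * X' ^ 3 / z ^ 3 := by
        gcongr
        nlinarith
      have h3 : 0 ≤ X ^ 3 * X' ^ 3 / z ^ 3 := by positivity
      linarith
  by_cases hd' : (2 : ℤ) ^ (2 * m) ∣ h'
  · exact hone h h' P Q hP hQ hP4 hQ4 hne hd'
  by_cases hd : (2 : ℤ) ^ (2 * m) ∣ h
  · rw [TT_symm, mul_comm (P ^ 3)]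
    exact hone h' h Q P hQ hP hQ4 hP4 hne.symm hd
  refine (TT_le_sum hm hd hd').trans ?_
  have h1 := sum_bound (m := m) hP0 hQ0 hz hz2 (f := fun c => 1 - AA (2 * m) h c)
    (g := fun c => 1 - AA (2 * m) h' c)
    (fun c => by linarith [AA_nonneg (2 * m) h c])
    (fun c => by linarith [AA_le_one (2 * m) h' c]) (fun c => by linarith [AA_nonneg (2 * m) h' c])
    (hAP h P hP4) (hAP h' Q hQ4)
  have h2 : ∑ c ∈ Finset.range m, (AA (2 * m) h (c + 1) - AA (2 * m) h c) *
      (1 - AA (2 * m) h' (m - 1 - c)) ≤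
      ∑ c ∈ Finset.range m, (1 - AA (2 * m) h c) * (1 - AA (2 * m) h' (m - 1 - c)) := by
    refine Finset.sum_le_sum fun c _ => ?_
    apply mul_le_mul_of_nonneg_right _ (by linarith [AA_le_one (2 * m) h' (m - 1 - c)])
    linarith [AA_le_one (2 * m) h (c + 1)]
  have h3 := one_sub_bound hP0 hz hz2 (f := 1 - AA (2 * m) h m)
    (by linarith [AA_nonneg (2 * m) h m]) (hAP h P hP4 m)
  have h4 : P ^ 3 / z ^ 3 ≤ P ^ 3 * Q ^ 3 / z ^ 3 := by
    gcongr
    nlinarith
  linarith

end Pool.Agent.Helper6.MixRan.Dig
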