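import Pool.Agent.Helper6.MixRan.Defs
import Pool.Agent.Helper6.MixRan.DigitsC

open MeasureTheory UnitAddTorus Filter Topology Set
open scoped ENNReal ComplexConjugate

noncomputable section

namespace Pool.Agent.Helper6.MixRan

open Pool.Agent.Helper59.MixInt

open Dig

theorem mFourier_two (h : Fin 2 → ℤ) (x y : ℝ) :
    mFourier h (![(x : UnitAddCircle), (y : UnitAddCircle)] : Tor 2) = ex (h 0) x * ex (h 1) y := by
  have h1 : ∀ (n : ℤ) (x : ℝ), fourier n (x : UnitAddCircle) = ex n x := by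
    intro n x
    rw [fourier_coe_apply]
    unfold ex
    congr 1
    push_cast
    ring
  simp only [mFourier, ContinuousMap.coe_mk, Fin.prod_univ_two, Matrix.cons_val_zero,
    Matrix.cons_val_one]
  rw [h1, h1]

/-- the mean square of the character sum of the scrambled points -/
theorem sum_sq (m : ℕ) (h : Fin 2 → ℤ) :
    ∑ θ : Th m (2 * m) × Th m (2 * m), ‖∑ i : Idx m, ex (h 0) (xx θ.1 i) *
      ex (h 1) (xx θ.2 (rv i))‖ ^ 2 =
      (Fintype.card (Th m (2 * m) × Th m (2 * m)) : ℝ) * (2 ^ m * Dig.TT m (2 * m) (h 0) (h 1)) := by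
  have hc : ((∑ θ : Th m (2 * m) × Th m (2 * m), ‖∑ i : Idx m, ex (h 0) (xx θ.1 i) *
      ex (h 1) (xx θ.2 (rv i))‖ ^ 2 : ℝ) : ℂ) =
      (((Fintype.card (Th m (2 * m) × Th m (2 * m)) : ℝ) *
        (2 ^ m * Dig.TT m (2 * m) (h 0) (h 1)) : ℝ) : ℂ) := by
    push_cast
    have h1 : ∀ θ : Th m (2 * m) × Th m (2 * m),
        ((‖∑ i : Idx m, ex (h 0) (xx θ.1 i) * ex (h 1) (xx θ.2 (rv i))‖ : ℂ)) ^ 2 =
        ∑ i : Idx m, ∑ i' : Idx m, (ex (h 0) (xx θ.1 i) * conj (ex (h 0) (xx θ.1 i'))) *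
          (ex (h 1) (xx θ.2 (rv i)) * conj (ex (h 1) (xx θ.2 (rv i')))) := by
      intro θ
      rw [← Complex.mul_conj', map_sum, Finset.sum_mul_sum]
      refine Finset.sum_congr rfl fun i _ => Finset.sum_congr rfl fun i' _ => ?_
      rw [map_mul]
      ring
    simp_rw [h1]
    rw [Finset.sum_comm]
    have h2 : ∀ i : Idx m, ∑ θ : Th m (2 * m) × Th m (2 * m), ∑ i' : Idx m,
        (ex (h 0) (xx θ.1 i) * conj (ex (h 0) (xx θ.1 i'))) *
          (ex (h 1) (xx θ.2 (rv i)) * conj (ex (h 1) (xx θ.2 (rv i')))) =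
        (Fintype.card (Th m (2 * m)) : ℂ) * (Fintype.card (Th m (2 * m)) : ℂ) *
          ((Dig.TT m (2 * m) (h 0) (h 1) : ℝ) : ℂ) := by
      intro i
      rw [Finset.sum_comm, ← sum_kernel (m := m) (N := 2 * m) (by omega) (h 0) (h 1) i]
      push_cast
      rw [Finset.mul_sum]
      refine Finset.sum_congr rfl fun i' _ => ?_
      have h3 : ∑ θ : Th m (2 * m) × Th m (2 * m),
          (ex (h 0) (xx θ.1 i) * conj (ex (h 0) (xx θ.1 i'))) *
          (ex (h 1) (xx θ.2 (rv i)) * conj (ex (h 1) (xx θ.2 (rv i')))) =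
          (∑ θ : Th m (2 * m), ex (h 0) (xx θ i) * conj (ex (h 0) (xx θ i'))) *
          (∑ θ : Th m (2 * m), ex (h 1) (xx θ (rv i)) * conj (ex (h 1) (xx θ (rv i')))) := by
        rw [Fintype.sum_prod_type, Finset.sum_mul_sum]
      rw [h3, avg_theta, avg_theta]
      push_cast
      ring
    rw [Finset.sum_congr rfl fun i _ => h2 i, Finset.sum_const, Finset.card_univ]
    rw [Fintype.card_prod, nsmul_eq_mul]
    have h4 : ((Fintype.card (Idx m) : ℕ) : ℂ) = 2 ^ m := by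
      simp [Idx]
    rw [h4]
    push_cast
    ring
  exact_mod_cast hc

/-- Scrambled Hammersley points (finite randomisation). -/
theorem hammersley : ∃ CU : ℝ, 0 < CU ∧ ∀ m : ℕ, ∃ (Θ : Type) (_ : Fintype Θ) (_ : Nonempty Θ)
    (Z : Θ → Fin (2 ^ m) → Tor 2), ∀ h : Fin 2 → ℤ, h ≠ 0 →
      (∑ θ, ‖∑ i, mFourier h (Z θ i)‖ ^ 2) / (Fintype.card Θ : ℝ) ≤
        CU * ((2 : ℝ) ^ m) ^ (-(1 / 2 : ℝ)) * ∏ j, (1 + (h j : ℝ) ^ 2) ^ k₀ := by
  refine ⟨388, by norm_num, fun m => ?_⟩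
  have hprod1 : ∀ x : ℤ, (1 : ℝ) ≤ (1 + (x : ℝ) ^ 2) ^ k₀ := by
    intro x
    apply Real.one_le_rpow
    · nlinarith [sq_nonneg (x : ℝ)]
    · unfold k₀; norm_num
  rcases Nat.eq_zero_or_pos m with rfl | hm
  · refine ⟨Unit, inferInstance, inferInstance, fun _ _ => (![((0 : ℝ) : UnitAddCircle),
      ((0 : ℝ) : UnitAddCircle)] : Tor 2), fun h _ => ?_⟩
    have h1 : ∀ (i : Fin (2 ^ 0)), mFourier h (![((0 : ℝ) : UnitAddCircle),
      ((0 : ℝ) : UnitAddCircle)] : Tor 2) = 1 := by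
      intro i
      rw [mFourier_two, ex_zero, ex_zero, one_mul]
    simp only [Finset.univ_unique, Finset.sum_const, Finset.card_singleton, one_smul,
      Fintype.card_unit, Nat.cast_one, div_one, pow_zero, Real.one_rpow, mul_one,
      Fin.prod_univ_two]
    have h2 : ‖(Finset.univ : Finset (Fin (2 ^ 0))).card • mFourier h (![((0 : ℝ) : UnitAddCircle),
      ((0 : ℝ) : UnitAddCircle)] : Tor 2)‖ ^ 2 = 1 := by
      rw [h1 0]
      simp
    have h3 := hprod1 (h 0)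
    have h4 := hprod1 (h 1)
    have h5 : (1 : ℝ) ≤ 388 * ((1 + (h 0 : ℝ) ^ 2) ^ k₀ * (1 + (h 1 : ℝ) ^ 2) ^ k₀) := by
      nlinarith
    refine le_trans (le_of_eq ?_) h5
    simpa using h2
  · have hcard : Fintype.card (Fin (2 ^ m)) = Fintype.card (Idx m) := by simp [Idx]
    let e : Fin (2 ^ m) ≃ Idx m := Fintype.equivOfCardEq hcard
    refine ⟨Th m (2 * m) × Th m (2 * m), inferInstance, inferInstance, fun θ j =>
      (![(xx θ.1 (e j) : UnitAddCircle), (xx θ.2 (rv (e j)) : UnitAddCircle)] : Tor 2),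
      fun h hne => ?_⟩
    have h1 : ∀ θ : Th m (2 * m) × Th m (2 * m), ∑ j, mFourier h
        (![(xx θ.1 (e j) : UnitAddCircle), (xx θ.2 (rv (e j)) : UnitAddCircle)] : Tor 2) =
        ∑ i : Idx m, ex (h 0) (xx θ.1 i) * ex (h 1) (xx θ.2 (rv i)) := by
      intro θ
      rw [← Equiv.sum_comp e]
      exact Finset.sum_congr rfl fun j _ => mFourier_two _ _ _
    simp_rw [h1]
    rw [sum_sq]
    have hc0 : (0 : ℝ) < (Fintype.card (Th m (2 * m) × Th m (2 * m)) : ℝ) := by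
      exact_mod_cast Fintype.card_pos
    rw [mul_div_assoc, mul_comm, div_mul_cancel₀ _ hc0.ne']
    set P : ℝ := (1 + (h 0 : ℝ) ^ 2) ^ (1 / 4 : ℝ) with hP
    set Q : ℝ := (1 + (h 1 : ℝ) ^ 2) ^ (1 / 4 : ℝ) with hQ
    set z : ℝ := Real.sqrt (2 ^ m) with hz
    have h1P : ∀ x : ℤ, (1 : ℝ) ≤ (1 + (x : ℝ) ^ 2) ^ (1 / 4 : ℝ) := by
      intro x
      apply Real.one_le_rpow
      · nlinarith [sq_nonneg (x : ℝ)]
      · norm_num
    have h4P : ∀ x : ℤ, ((1 + (x : ℝ) ^ 2) ^ (1 / 4 : ℝ)) ^ 4 = 1 + (x : ℝ) ^ 2 := by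
      intro x
      rw [← Real.rpow_natCast, ← Real.rpow_mul (by positivity)]
      norm_num
    have h3P : ∀ x : ℤ, ((1 + (x : ℝ) ^ 2) ^ (1 / 4 : ℝ)) ^ 3 = (1 + (x : ℝ) ^ 2) ^ k₀ := by
      intro x
      rw [← Real.rpow_natCast, ← Real.rpow_mul (by positivity)]
      unfold k₀
      norm_num
    have hz0 : 0 < z := Real.sqrt_pos.mpr (by positivity)
    have hz2 : z ^ 2 = 2 ^ m := Real.sq_sqrt (by positivity)
    have hne' : h 0 ≠ 0 ∨ h 1 ≠ 0 := by
      by_contra hcon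
      push Not at hcon
      apply hne
      funext j
      fin_cases j
      · exact hcon.1
      · exact hcon.2
    have hT := TT_le hm (h1P (h 0)) (h1P (h 1)) hz0 hz2 (h4P (h 0)) (h4P (h 1)) hne'
    have hzr : ((2 : ℝ) ^ m) ^ (-(1 / 2 : ℝ)) = 1 / z := by
      rw [Real.rpow_neg (by positivity), hz, Real.sqrt_eq_rpow, one_div ((2 ^ m : ℝ) ^ (1 / 2 : ℝ))]
    rw [hzr, Fin.prod_univ_two, ← h3P, ← h3P]
    calc (2 : ℝ) ^ m * Dig.TT m (2 * m) (h 0) (h 1)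
        ≤ 2 ^ m * (388 * (P ^ 3 * Q ^ 3 / z ^ 3)) :=
          mul_le_mul_of_nonneg_left hT (by positivity)
      _ = 388 * (1 / z) * (P ^ 3 * Q ^ 3) := by
        rw [← hz2]
        field_simp

end Pool.Agent.Helper6.MixRan
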