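import Mathlib

/-!
# Scrambled Hammersley points, part A: trigonometric products and the kernel of one coordinate
-/

open Finset
open scoped ComplexConjugate

noncomputable section

namespace Pool.Agent.Helper6.MixRan.Dig

/-- `cos (π h / 2^(r+1))` -/
def cs (h : ℤ) (r : ℕ) : ℝ := Real.cos (Real.pi * h / 2 ^ (r + 1))

/-- `∏_{c ≤ r < N} cos² (π h / 2^(r+1))` -/
def AA (N : ℕ) (h : ℤ) (c : ℕ) : ℝ := ∏ r ∈ Finset.Ico c N, cs h r ^ 2

theorem cs_sq_le_one (h : ℤ) (r : ℕ) : cs h r ^ 2 ≤ 1 := by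
  unfold cs
  exact (Real.cos_sq_le_one _)

theorem cs_sq_nonneg (h : ℤ) (r : ℕ) : 0 ≤ cs h r ^ 2 := sq_nonneg _

theorem AA_nonneg (N : ℕ) (h : ℤ) (c : ℕ) : 0 ≤ AA N h c :=
  Finset.prod_nonneg fun _ _ => cs_sq_nonneg _ _

theorem AA_le_one (N : ℕ) (h : ℤ) (c : ℕ) : AA N h c ≤ 1 :=
  Finset.prod_le_one (fun _ _ => cs_sq_nonneg _ _) fun _ _ => cs_sq_le_one _ _

theorem AA_succ {N : ℕ} (h : ℤ) {c : ℕ} (hc : c < N) : AA N h c = cs h c ^ 2 * AA N h (c + 1) := by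
  unfold AA
  rw [← Finset.prod_Ico_consecutive _ (Nat.le_succ c) (Nat.succ_le_of_lt hc)]
  simp

theorem AA_mono (N : ℕ) (h : ℤ) (c : ℕ) : AA N h c ≤ AA N h (c + 1) := by
  by_cases hc : c < N
  · rw [AA_succ h hc]
    exact mul_le_of_le_one_left (AA_nonneg _ _ _) (cs_sq_le_one _ _)
  · have h1 : AA N h c = 1 := by
      unfold AA
      rw [Finset.Ico_eq_empty (by omega)]; simp
    have h2 : AA N h (c + 1) = 1 := by
      unfold AA
      rw [Finset.Ico_eq_empty (by omega)]; simp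
    rw [h1, h2]

theorem AA_of_dvd {N : ℕ} {h : ℤ} (hd : (2 : ℤ) ^ N ∣ h) (c : ℕ) : AA N h c = 1 := by
  unfold AA
  apply Finset.prod_eq_one
  intro r hr
  rw [Finset.mem_Ico] at hr
  obtain ⟨k, hk⟩ := (pow_dvd_pow (2 : ℤ) (Nat.succ_le_of_lt hr.2)).trans hd
  have h2 : Real.pi * h / 2 ^ (r + 1) = k * Real.pi := by
    rw [hk]
    push_cast
    field_simp
  unfold cs
  rw [h2]
  have := Real.cos_int_mul_pi k
  rw [this]
  rcases Int.even_or_odd k with hk' | hk'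
  · rw [hk'.neg_one_zpow]; norm_num
  · rw [hk'.neg_one_zpow]; norm_num

theorem exists_val {N : ℕ} {h : ℤ} (hd : ¬ (2 : ℤ) ^ N ∣ h) :
    ∃ r < N, (2 : ℤ) ^ r ∣ h ∧ ¬ (2 : ℤ) ^ (r + 1) ∣ h := by
  induction N with
  | zero => simp at hd
  | succ n ih =>
    by_cases h1 : (2 : ℤ) ^ n ∣ h
    · exact ⟨n, Nat.lt_succ_self n, h1, hd⟩
    · obtain ⟨r, hr, h2⟩ := ih h1
      exact ⟨r, by omega, h2⟩

theorem AA_zero {N : ℕ} {h : ℤ} (hd : ¬ (2 : ℤ) ^ N ∣ h) : AA N h 0 = 0 := by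
  obtain ⟨r, hr, ⟨k, hk⟩, h2⟩ := exists_val hd
  unfold AA
  apply Finset.prod_eq_zero (i := r)
  · simp [hr]
  · have hodd : Odd k := by
      rw [← Int.not_even_iff_odd]
      rintro ⟨l, hl⟩
      apply h2
      refine ⟨l, ?_⟩
      rw [hk, hl, pow_succ]; ring
    obtain ⟨l, hl⟩ := hodd
    unfold cs
    have h3 : Real.pi * h / 2 ^ (r + 1) = (2 * l + 1) * Real.pi / 2 := by
      rw [hk, hl]
      push_cast
      rw [pow_succ]
      field_simp
    rw [h3]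
    have h4 : Real.cos ((2 * (l : ℝ) + 1) * Real.pi / 2) = 0 := by
      rw [Real.cos_eq_zero_iff]
      exact ⟨l, rfl⟩
    rw [h4]; norm_num

theorem one_sub_prod_le {ι : Type*} (s : Finset ι) (f : ι → ℝ) (h0 : ∀ i ∈ s, 0 ≤ f i)
    (h1 : ∀ i ∈ s, f i ≤ 1) : 1 - ∏ i ∈ s, f i ≤ ∑ i ∈ s, (1 - f i) := by
  classical
  induction s using Finset.induction_on with
  | empty => simp
  | insert a s ha ih =>
    rw [Finset.prod_insert ha, Finset.sum_insert ha]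
    have ih' := ih (fun i hi => h0 i (Finset.mem_insert_of_mem hi))
      (fun i hi => h1 i (Finset.mem_insert_of_mem hi))
    have hp0 : 0 ≤ ∏ i ∈ s, f i := Finset.prod_nonneg fun i hi => h0 i (Finset.mem_insert_of_mem hi)
    have hp1 : ∏ i ∈ s, f i ≤ 1 := Finset.prod_le_one
      (fun i hi => h0 i (Finset.mem_insert_of_mem hi))
      (fun i hi => h1 i (Finset.mem_insert_of_mem hi))
    have ha1 := h1 a (Finset.mem_insert_self _ _)
    have ha0 := h0 a (Finset.mem_insert_self _ _)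
    nlinarith

theorem one_sub_cs_sq_le (h : ℤ) (r : ℕ) : 1 - cs h r ^ 2 ≤ 3 * (h : ℝ) ^ 2 / 4 ^ r := by
  unfold cs
  have h1 : 1 - Real.cos (Real.pi * h / 2 ^ (r + 1)) ^ 2 =
      Real.sin (Real.pi * h / 2 ^ (r + 1)) ^ 2 := by
    have := Real.sin_sq_add_cos_sq (Real.pi * h / 2 ^ (r + 1)); linarith
  rw [h1]
  have h2 : Real.sin (Real.pi * h / 2 ^ (r + 1)) ^ 2 ≤ (Real.pi * h / 2 ^ (r + 1)) ^ 2 := by
    have := Real.abs_sin_le_abs (x := Real.pi * h / 2 ^ (r + 1))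
    exact sq_le_sq.mpr this
  refine h2.trans ?_
  have h3 : (Real.pi * h / 2 ^ (r + 1)) ^ 2 = Real.pi ^ 2 / 4 * (h : ℝ) ^ 2 / 4 ^ r := by
    have : ((2 : ℝ) ^ (r + 1)) ^ 2 = 4 * 4 ^ r := by
      rw [← pow_mul, mul_comm (r + 1) 2, pow_mul]; norm_num [pow_succ]; ring
    rw [div_pow, this, mul_pow]; ring
  rw [h3]
  have hpi : Real.pi ^ 2 / 4 ≤ 3 := by
    have := Real.pi_lt_d2
    have h0 := Real.pi_pos
    nlinarith
  gcongr

theorem one_sub_AA_le (N : ℕ) (h : ℤ) (c : ℕ) :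
    1 - AA N h c ≤ 4 * (h : ℝ) ^ 2 / 4 ^ c := by
  unfold AA
  refine (one_sub_prod_le _ _ (fun _ _ => cs_sq_nonneg _ _) (fun _ _ => cs_sq_le_one _ _)).trans ?_
  refine (Finset.sum_le_sum fun r _ => one_sub_cs_sq_le h r).trans ?_
  have key : ∀ n, ∑ r ∈ Finset.Ico c (c + n), 3 * (h : ℝ) ^ 2 / 4 ^ r =
      4 * (h : ℝ) ^ 2 / 4 ^ c - 4 * (h : ℝ) ^ 2 / 4 ^ (c + n) := by
    intro n
    induction n with
    | zero => simp
    | succ n ih =>
      rw [← add_assoc, Finset.sum_Ico_succ_top (by omega), ih, pow_succ]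
      field_simp
      ring
  by_cases hc : c ≤ N
  · obtain ⟨n, rfl⟩ := Nat.exists_eq_add_of_le hc
    rw [key n]
    have : 0 ≤ 4 * (h : ℝ) ^ 2 / 4 ^ (c + n) := by positivity
    linarith
  · rw [Finset.Ico_eq_empty (by omega)]
    simp only [Finset.sum_empty]
    positivity

end Pool.Agent.Helper6.MixRan.Dig
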