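import Pool.Agent.Helper6.MixRan.DigitsA

/-!
# Scrambled Hammersley points, part B: the scrambled digits of one coordinate and their kernel
-/

open Finset
open scoped ComplexConjugate

noncomputable section

namespace Pool.Agent.Helper6.MixRan.Dig

/-- index set: digit vectors -/
abbrev Idx (m : ℕ) : Type := Fin m → Bool

/-- the random element of one coordinate -/
abbrev Th (m N : ℕ) : Type := Fin N × Idx m → Bool

/-- digit `r` of the index -/
def dg {m : ℕ} (i : Idx m) (r : ℕ) : Bool := if hr : r < m then i ⟨r, hr⟩ else false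

/-- the first `r` digits -/
def tr {m : ℕ} (i : Idx m) (r : ℕ) : Idx m := fun k => if k.1 < r then i k else false

/-- a bit as a real number -/
def bt (b : Bool) : ℝ := if b then 1 else 0

/-- the scrambled point -/
def xx {m N : ℕ} (θ : Th m N) (i : Idx m) : ℝ :=
  ∑ r : Fin N, bt (xor (dg i r) (θ (r, tr i r))) / 2 ^ (r.1 + 1)

/-- the character `e^{2π i h x}` -/
def ex (h : ℤ) (x : ℝ) : ℂ := Complex.exp (2 * Real.pi * Complex.I * h * x)

theorem ex_sum {ι : Type*} (s : Finset ι) (h : ℤ) (f : ι → ℝ) :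
    ex h (∑ i ∈ s, f i) = ∏ i ∈ s, ex h (f i) := by
  unfold ex
  rw [← Complex.exp_sum]
  congr 1
  push_cast
  rw [Finset.mul_sum]

theorem ex_zero (h : ℤ) : ex h 0 = 1 := by simp [ex]

theorem ex_conj (h : ℤ) (x : ℝ) : conj (ex h x) = ex h (-x) := by
  unfold ex
  rw [← Complex.exp_conj]
  congr 1
  simp [Complex.conj_ofNat]

theorem ex_mul (h : ℤ) (x y : ℝ) : ex h x * ex h y = ex h (x + y) := by
  unfold ex
  rw [← Complex.exp_add]
  congr 1
  push_cast; ring

theorem ex_mul_conj (h : ℤ) (x : ℝ) : ex h x * conj (ex h x) = 1 := by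
  rw [ex_conj, ex_mul]; simp [ex_zero]

/-- the factor of digit `r` with bit `b` -/
def EE (h : ℤ) (r : ℕ) (b : Bool) : ℂ := ex h (bt b / 2 ^ (r + 1))

theorem EE_false (h : ℤ) (r : ℕ) : EE h r false = 1 := by simp [EE, bt, ex_zero]

theorem ex_two_cos (h : ℤ) (r : ℕ) :
    EE h r true + conj (EE h r true) = ((2 * (2 * cs h r ^ 2 - 1) : ℝ) : ℂ) := by
  have h1 : EE h r true = Complex.exp (((2 * (Real.pi * h / 2 ^ (r + 1)) : ℝ) : ℂ) * Complex.I) := by
    unfold EE ex bt
    congr 1
    simp only [if_true]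
    push_cast
    ring
  rw [Complex.add_conj, h1, Complex.exp_ofReal_mul_I_re, Real.cos_two_mul]
  unfold cs
  push_cast
  ring

theorem EE_true_conj (h : ℤ) (r : ℕ) : EE h r true * conj (EE h r true) = 1 := ex_mul_conj _ _

theorem half_norm (h : ℤ) (r : ℕ) :
    (1 / 2 * (1 + EE h r true)) * (1 / 2 * (1 + conj (EE h r true))) = ((cs h r ^ 2 : ℝ) : ℂ) := by
  have h1 := ex_two_cos h r
  have h2 := EE_true_conj h r
  have h3 : (1 / 2 * (1 + EE h r true)) * (1 / 2 * (1 + conj (EE h r true))) =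
      1 / 4 * (1 + (EE h r true + conj (EE h r true)) + EE h r true * conj (EE h r true)) := by ring
  rw [h3, h1, h2]
  push_cast
  ring

/-- the weight of the pair (digit, argument) -/
def ww {m : ℕ} (h : ℤ) (i i' : Idx m) (r : ℕ) (k : Idx m) (x : Bool) : ℂ :=
  (if k = tr i r then EE h r (xor (dg i r) x) else 1) *
    (if k = tr i' r then conj (EE h r (xor (dg i' r) x)) else 1)

theorem ex_xx {m N : ℕ} (h : ℤ) (θ : Th m N) (i : Idx m) :
    ex h (xx θ i) = ∏ r : Fin N, EE h r (xor (dg i r) (θ (r, tr i r))) := by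
  unfold xx
  rw [ex_sum]
  rfl

theorem ex_xx_mul {m N : ℕ} (h : ℤ) (θ : Th m N) (i i' : Idx m) :
    ex h (xx θ i) * conj (ex h (xx θ i')) = ∏ p : Fin N × Idx m, ww h i i' p.1 p.2 (θ p) := by
  rw [ex_xx, ex_xx, map_prod, ← Finset.prod_mul_distrib, Fintype.prod_prod_type]
  refine Finset.prod_congr rfl fun r _ => ?_
  unfold ww
  rw [Finset.prod_mul_distrib, Finset.prod_ite_eq' Finset.univ (tr i r)
    (fun k => EE h r (xor (dg i r) (θ (r, k)))), Finset.prod_ite_eq' Finset.univ (tr i' r)
    (fun k => conj (EE h r (xor (dg i' r) (θ (r, k)))))]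
  simp

/-- the average over `θ` factorises -/
theorem sum_theta {m N : ℕ} (h : ℤ) (i i' : Idx m) :
    ∑ θ : Th m N, ex h (xx θ i) * conj (ex h (xx θ i')) =
      ∏ r : Fin N, ∏ k : Idx m, ∑ x : Bool, ww h i i' r k x := by
  simp_rw [ex_xx_mul]
  rw [← Fintype.prod_prod_type (fun p : Fin N × Idx m => ∑ x : Bool, ww h i i' p.1 p.2 x)]
  rw [Finset.prod_univ_sum, Fintype.piFinset_univ]

/-- the factor of digit `r` of the averaged kernel -/
def QQ {m : ℕ} (h : ℤ) (i i' : Idx m) (r : ℕ) : ℝ :=
  if tr i r = tr i' r then (if dg i r = dg i' r then 1 else 2 * cs h r ^ 2 - 1) else cs h r ^ 2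

theorem prod_ww {m : ℕ} (h : ℤ) (i i' : Idx m) (r : ℕ) :
    ∏ k : Idx m, (1 / 2 * ∑ x : Bool, ww h i i' r k x) = (QQ h i i' r : ℂ) := by
  have hk : ∀ k : Idx m, k ≠ tr i r → k ≠ tr i' r → (1 / 2 * ∑ x : Bool, ww h i i' r k x) = 1 := by
    intro k h1 h2
    simp [ww, h1, h2]
  unfold QQ
  by_cases ha : tr i r = tr i' r
  · rw [if_pos ha, Finset.prod_eq_single (tr i r)
      (fun k _ h1 => hk k h1 (by rw [← ha]; exact h1)) (by simp)]
    have h3 := EE_true_conj h r
    have h4 := ex_two_cos h r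
    by_cases hd : dg i r = dg i' r
    · rw [if_pos hd]
      rcases hb : dg i r with _ | _ <;> simp only [ww, ← ha, ← hd, hb, Fintype.sum_bool, if_true,
        Bool.xor_true, Bool.not_false, Bool.xor_false, Bool.not_true, EE_false, map_one, h3] <;>
        norm_num
    · rw [if_neg hd]
      rcases hb : dg i r with _ | _ <;> rcases hb' : dg i' r with _ | _
      · exact absurd (hb.trans hb'.symm) hd
      · simp only [ww, ← ha, hb, hb', Fintype.sum_bool, if_true,
          Bool.xor_true, Bool.not_false, Bool.xor_false, Bool.not_true, EE_false, map_one]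
        rw [mul_one, one_mul, h4]
        push_cast; ring
      · simp only [ww, ← ha, hb, hb', Fintype.sum_bool, if_true,
          Bool.xor_true, Bool.not_false, Bool.xor_false, Bool.not_true, EE_false, map_one]
        rw [mul_one, one_mul, add_comm, h4]
        push_cast; ring
      · exact absurd (hb.trans hb'.symm) hd
  · rw [if_neg ha]
    have h5 : ∏ k : Idx m, (1 / 2 * ∑ x : Bool, ww h i i' r k x) =
        ∏ k ∈ ({tr i r, tr i' r} : Finset (Idx m)), (1 / 2 * ∑ x : Bool, ww h i i' r k x) := by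
      symm
      apply Finset.prod_subset (Finset.subset_univ _)
      intro k _ h1
      simp only [Finset.mem_insert, Finset.mem_singleton, not_or] at h1
      exact hk k h1.1 h1.2
    rw [h5, Finset.prod_pair ha, ← half_norm]
    have h6 : (1 / 2 * ∑ x : Bool, ww h i i' r (tr i r) x) = 1 / 2 * (1 + EE h r true) := by
      rcases hb : dg i r with _ | _ <;> simp [ww, ha, hb, EE_false, add_comm]
    have h7 : (1 / 2 * ∑ x : Bool, ww h i i' r (tr i' r) x) =
        1 / 2 * (1 + conj (EE h r true)) := by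
      rcases hb : dg i' r with _ | _ <;> simp [ww, Ne.symm ha, hb, EE_false, add_comm]
    rw [h6, h7]

/-- the averaged kernel is the product of the `QQ` -/
theorem avg_theta {m N : ℕ} (h : ℤ) (i i' : Idx m) :
    ∑ θ : Th m N, ex h (xx θ i) * conj (ex h (xx θ i')) =
      (Fintype.card (Th m N) : ℂ) * ((∏ r ∈ Finset.range N, QQ h i i' r : ℝ) : ℂ) := by
  rw [sum_theta]
  have h1 : ∀ r : Fin N, ∏ k : Idx m, ∑ x : Bool, ww h i i' r k x =
      2 ^ (Fintype.card (Idx m)) * (QQ h i i' r : ℂ) := by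
    intro r
    rw [← prod_ww, Finset.prod_mul_distrib, Finset.prod_const, Finset.card_univ, ← mul_assoc,
      ← mul_pow]
    norm_num
  rw [Finset.prod_congr rfl fun r _ => h1 r, Finset.prod_mul_distrib, Finset.prod_const,
    Finset.card_univ, Fintype.card_fin, ← pow_mul, Finset.prod_range]
  push_cast
  congr 1
  simp only [Fintype.card_pi, Fintype.card_bool, Finset.prod_const, Finset.card_univ,
    Fintype.card_prod, Fintype.card_fin]
  push_cast
  rw [mul_comm N]

end Pool.Agent.Helper6.MixRan.Dig
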