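import Pool.Agent.Helper59.MixInt.Expect
import Pool.Agent.Helper6.MixRan.Defs

/-!
# Expectation bounds and the good event for the deterministic frame
-/

open MeasureTheory UnitAddTorus Filter Topology Set
open scoped ENNReal

noncomputable section

namespace Pool.Agent.Helper6.MixRan

open Pool.Agent.Helper59.MixInt

variable {n : ℕ}

/-- `P i` is close to another point in the first coordinate, and to another point in the second
coordinate, at level `m` -/
def bad2 (P : Fin n → Tor 2) (i : Fin n) (m : ℕ) : Prop :=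
  (∃ j, j ≠ i ∧ near m 0 (P i) (P j)) ∧ ∃ j, j ≠ i ∧ near 0 m (P i) (P j)

open Classical in
/-- indicator of `bad2` -/
def bad2I (P : Fin n → Tor 2) (i : Fin n) (m : ℕ) : ℝ := if bad2 P i m then 1 else 0

/-- weights -/
def W2 (m₀ M : ℕ) (P : Fin n → Tor 2) (i : Fin n) : ℝ :=
  1 + ∑ m ∈ Finset.Ico m₀ M, ((2 : ℝ) ^ (m + 1 - m₀ : ℕ)) ^ (7 / 4 : ℝ) * bad2I P i m

/-- the weighted sum of the squared residuals -/
def Y2 (r m₀ M : ℕ) (P : Fin n → Tor 2) : ℝ := ∑ i, ee r P i ^ 2 * W2 m₀ M P i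

/-- the good event -/
def Good2 (n r m₀ M : ℕ) : Set (Fin n → Tor 2) :=
  {P | X1 r P ≤ 9 * (n / (Lam r).card) ∧ X3 r P ≤ 9 * (n * (n / (Lam r).card)) ∧
    Y2 r m₀ M P ≤ 9 * (n * (n / (Lam r).card + 5000 * (n / 2 ^ m₀) ^ 2)) ∧
    ∀ i, ¬ bad2 P i M}

/-! ### Second moments localised to events that depend on three points -/

theorem integral_ee_sq_mul_le {r : ℕ} (hR : 0 < (Lam r).card) (i j j' : Fin n)
    {G : (Fin n → Tor 2) → ℝ} (hm : Measurable G) (h0 : ∀ P, 0 ≤ G P) (h1 : ∀ P, G P ≤ 1)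
    (hG : ∀ l, l ≠ i → l ≠ j → l ≠ j' → Indep l G) :
    ∫ P, ee r P i ^ 2 * G P ∂(iidLaw 2 n) ≤
      (2 * n / (Lam r).card + 8) * ∫ P, G P ∂(iidLaw 2 n) := by
  classical
  have hR' : (0 : ℝ) < (Lam r).card := by exact_mod_cast hR
  set R : ℝ := ((Lam r).card : ℝ) with hRdef
  have hB : ∀ P, |G P| ≤ 1 := fun P => by rw [abs_of_nonneg (h0 P)]; exact h1 P
  set s : Finset (Fin n) := ((Finset.univ.erase i).erase j).erase j' with hs
  have hsi : ∀ l ∈ s, l ≠ i ∧ l ≠ j ∧ l ≠ j' := by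
    intro l hl
    rw [hs] at hl
    simp only [Finset.mem_erase, Finset.mem_univ, and_true] at hl
    exact ⟨hl.2.2, hl.2.1, hl.1⟩
  set A : (Fin n → Tor 2) → ℝ := fun P => ∑ l ∈ s, KK r (P i - P l) with hA
  set Bf : (Fin n → Tor 2) → ℝ := fun P => ∑ l ∈ (Finset.univ.erase i) \ s, KK r (P i - P l)
    with hBf
  have hsub : s ⊆ Finset.univ.erase i :=
    (Finset.erase_subset _ _).trans (Finset.erase_subset _ _)
  have hAB : ∀ P : Fin n → Tor 2, ∑ l ∈ Finset.univ.erase i, KK r (P i - P l) = A P + Bf P := by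
    intro P
    rw [hA, hBf, add_comm]
    exact (Finset.sum_sdiff hsub).symm
  have hcard : (((Finset.univ.erase i) \ s).card : ℝ) ≤ 2 := by
    have h2 : (Finset.univ.erase i) \ s ⊆ {j, j'} := by
      intro l hl
      rw [Finset.mem_sdiff] at hl
      by_contra hcon
      rw [Finset.mem_insert, Finset.mem_singleton, not_or] at hcon
      apply hl.2
      rw [hs]
      simp only [Finset.mem_erase, Finset.mem_univ, and_true]
      exact ⟨hcon.2, hcon.1, Finset.ne_of_mem_erase hl.1⟩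
    have h3 := (Finset.card_le_card h2).trans Finset.card_le_two
    exact_mod_cast h3
  have hBfle : ∀ P, |Bf P| ≤ 2 * R := by
    intro P
    calc |Bf P| ≤ ∑ l ∈ (Finset.univ.erase i) \ s, |KK r (P i - P l)| :=
          Finset.abs_sum_le_sum_abs _ _
      _ ≤ ∑ l ∈ (Finset.univ.erase i) \ s, R := Finset.sum_le_sum fun l _ => abs_KK_le r _
      _ = (((Finset.univ.erase i) \ s).card : ℝ) * R := by simp
      _ ≤ 2 * R := mul_le_mul_of_nonneg_right hcard hR'.le
  have hAle : ∀ P, |A P| ≤ n * R := by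
    intro P
    calc |A P| ≤ ∑ l ∈ s, |KK r (P i - P l)| := Finset.abs_sum_le_sum_abs _ _
      _ ≤ ∑ l ∈ s, R := Finset.sum_le_sum fun l _ => abs_KK_le r _
      _ = (s.card : ℝ) * R := by simp
      _ ≤ n * R := by
        apply mul_le_mul_of_nonneg_right _ hR'.le
        have := Finset.card_le_univ s
        rw [Fintype.card_fin] at this
        exact_mod_cast this
  have hAm : Measurable A := Finset.measurable_fun_sum _ fun l _ => measurable_KK r i l
  have hBm : Measurable Bf := Finset.measurable_fun_sum _ fun l _ => measurable_KK r i l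
  have hGi : Integrable G (iidLaw 2 n) := integrable_of_bdd hm hB
  -- pointwise
  have hpt : ∀ P, ee r P i ^ 2 * G P ≤ 2 / R ^ 2 * (A P ^ 2 * G P) + 8 * G P := by
    intro P
    have e1 : ee r P i ^ 2 = (A P + Bf P) ^ 2 / R ^ 2 := by
      unfold ee
      rw [hAB P, div_pow, neg_sq]
    have e2 : Bf P ^ 2 ≤ 4 * R ^ 2 := by
      have := pow_le_pow_left₀ (abs_nonneg _) (hBfle P) 2
      rw [sq_abs] at this
      nlinarith
    have e3 : (A P + Bf P) ^ 2 ≤ 2 * A P ^ 2 + 8 * R ^ 2 := by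
      nlinarith [sq_nonneg (A P - Bf P)]
    have e4 : (A P + Bf P) ^ 2 / R ^ 2 ≤ 2 / R ^ 2 * A P ^ 2 + 8 := by
      rw [div_le_iff₀ (by positivity)]
      have : (2 / R ^ 2 * A P ^ 2 + 8) * R ^ 2 = 2 * A P ^ 2 + 8 * R ^ 2 := by
        field_simp
      rw [this]
      exact e3
    rw [e1]
    calc (A P + Bf P) ^ 2 / R ^ 2 * G P ≤ (2 / R ^ 2 * A P ^ 2 + 8) * G P :=
          mul_le_mul_of_nonneg_right e4 (h0 P)
      _ = 2 / R ^ 2 * (A P ^ 2 * G P) + 8 * G P := by ring
  -- the square sum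
  have hmKG : ∀ l', Measurable fun P : Fin n → Tor 2 => KK r (P i - P l') * G P := fun l' =>
    (measurable_KK r i l').mul hm
  have hbKG : ∀ l' (P : Fin n → Tor 2), |KK r (P i - P l') * G P| ≤ R * 1 := by
    intro l' P
    rw [abs_mul]
    exact mul_le_mul (abs_KK_le r _) (hB P) (abs_nonneg _) hR'.le
  have hint : ∀ l l' : Fin n, Integrable (fun P : Fin n → Tor 2 =>
      KK r (P i - P l) * (KK r (P i - P l') * G P)) (iidLaw 2 n) := by
    intro l l'
    refine integrable_of_bdd ((measurable_KK r i l).mul (hmKG l')) (B := R * (R * 1)) fun P => ?_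
    rw [abs_mul]
    exact mul_le_mul (abs_KK_le r _) (hbKG l' P) (abs_nonneg _) hR'.le
  have hA2 : ∀ P, A P ^ 2 * G P =
      ∑ l ∈ s, ∑ l' ∈ s, KK r (P i - P l) * (KK r (P i - P l') * G P) := by
    intro P
    rw [hA]
    simp only
    rw [sq, Finset.sum_mul_sum, Finset.sum_mul]
    refine Finset.sum_congr rfl fun l _ => ?_
    rw [Finset.sum_mul]
    exact Finset.sum_congr rfl fun l' _ => by ring
  have hAE : ∫ P, A P ^ 2 * G P ∂(iidLaw 2 n) ≤ n * (R * ∫ P, G P ∂(iidLaw 2 n)) := by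
    simp only [hA2]
    rw [integral_finsetSum _ fun l _ => integrable_finsetSum _ fun l' _ => hint l l']
    have hl : ∀ l ∈ s, ∫ P, ∑ l' ∈ s, KK r (P i - P l) * (KK r (P i - P l') * G P)
        ∂(iidLaw 2 n) = R * ∫ P, G P ∂(iidLaw 2 n) := by
      intro l hl
      obtain ⟨hli, hlj, hlj'⟩ := hsi l hl
      rw [integral_finsetSum _ fun l' _ => hint l l', Finset.sum_eq_single l]
      · rw [← integral_KK_sq r hli.symm (hG l hli hlj hlj') hm hB]
        refine integral_congr_ae (Eventually.of_forall fun P => ?_)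
        simp only
        ring
      · intro l' hl' hne
        exact integral_KK_eq_zero r hli.symm
          ((indep_of_ne hli.symm hne (fun x y => KK r (x - y))).mul (hG l hli hlj hlj'))
          (hmKG l') (hbKG l')
      · intro hcon
        exact absurd hl hcon
    rw [Finset.sum_congr rfl hl, Finset.sum_const, nsmul_eq_mul]
    have hg : 0 ≤ ∫ P, G P ∂(iidLaw 2 n) := integral_nonneg h0
    apply mul_le_mul_of_nonneg_right _ (by positivity)
    have := Finset.card_le_univ s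
    rw [Fintype.card_fin] at this
    exact_mod_cast this
  have hAi : Integrable (fun P => A P ^ 2 * G P) (iidLaw 2 n) := by
    simp only [hA2]
    exact integrable_finsetSum _ fun l _ => integrable_finsetSum _ fun l' _ => hint l l'
  calc ∫ P, ee r P i ^ 2 * G P ∂(iidLaw 2 n)
      ≤ ∫ P, (2 / R ^ 2 * (A P ^ 2 * G P) + 8 * G P) ∂(iidLaw 2 n) :=
        integral_mono_of_nonneg (Eventually.of_forall fun P => mul_nonneg (sq_nonneg _) (h0 P))
          ((hAi.const_mul _).add (hGi.const_mul _)) (Eventually.of_forall hpt)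
    _ = 2 / R ^ 2 * ∫ P, A P ^ 2 * G P ∂(iidLaw 2 n) + 8 * ∫ P, G P ∂(iidLaw 2 n) := by
        rw [integral_add (hAi.const_mul _) (hGi.const_mul _), integral_const_mul,
          integral_const_mul]
    _ ≤ 2 / R ^ 2 * (n * (R * ∫ P, G P ∂(iidLaw 2 n))) + 8 * ∫ P, G P ∂(iidLaw 2 n) := by
        gcongr
    _ = (2 * n / R + 8) * ∫ P, G P ∂(iidLaw 2 n) := by
        field_simp

/-! ### Two closeness events -/

theorem ind_mul_ind {α R : Type*} [MulZeroOneClass R] (A B : Set α) (x : α) :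
    B.indicator (fun _ => (1 : R)) x * A.indicator (fun _ => (1 : R)) x =
      (A ∩ B).indicator (fun _ => (1 : R)) x := by
  by_cases a1 : x ∈ A <;> by_cases a2 : x ∈ B <;> simp [a1, a2]

/-- integrating out the `j`-th point of a closeness indicator -/
theorem lintegral_near_mul_le (a b : ℕ) {i j : Fin n} (hij : i ≠ j)
    {H : (Fin n → Tor 2) → ℝ≥0∞} (hH : Measurable H) (hHi : ∀ v P, H (sh j v + P) = H P) :
    ∫⁻ P, {P : Fin n → Tor 2 | near a b (P i) (P j)}.indicator (fun _ => 1) P * H P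
      ∂(iidLaw 2 n) ≤ ENNReal.ofReal (4 / 2 ^ (a + b)) * ∫⁻ P, H P ∂(iidLaw 2 n) := by
  set E := {P : Fin n → Tor 2 | near a b (P i) (P j)} with hE
  have hEm : MeasurableSet E := measurableSet_near a b i j
  set F : (Fin n → Tor 2) → ℝ≥0∞ := fun P => E.indicator (fun _ => 1) P * H P with hF
  have hFm : Measurable F := (measurable_const.indicator hEm).mul hH
  have h2 : ∀ τ : Tor 2, ∫⁻ P, F (sh j τ + P) ∂(iidLaw 2 n) = ∫⁻ P, F P ∂(iidLaw 2 n) :=
    fun τ => lintegral_add_left_eq_self F (sh j τ)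
  have h3 : ∫⁻ P, F P ∂(iidLaw 2 n) =
      ∫⁻ τ, ∫⁻ P, F (sh j τ + P) ∂(iidLaw 2 n) ∂(unif 2) := by
    simp only [h2]
    simp
  have hmeas : Measurable fun p : Tor 2 × (Fin n → Tor 2) => F (sh j p.1 + p.2) := by
    apply hFm.comp
    rw [measurable_pi_iff]
    intro i'
    by_cases hi' : i' = j
    · subst hi'
      simp only [single_add_same]
      exact measurable_fst.add ((measurable_pi_apply i').comp measurable_snd)
    · simp only [single_add_of_ne hi']
      exact (measurable_pi_apply i').comp measurable_snd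
  change ∫⁻ P, F P ∂(iidLaw 2 n) ≤ _
  rw [h3, lintegral_lintegral_swap hmeas.aemeasurable, ← lintegral_const_mul _ hH]
  refine lintegral_mono fun P => ?_
  have h4 : ∀ τ, F (sh j τ + P) =
      {τ : Tor 2 | ‖τ 0 - (P i - P j) 0‖ ≤ 1 / 2 ^ a ∧
        ‖τ 1 - (P i - P j) 1‖ ≤ 1 / 2 ^ b}.indicator (fun _ => 1) τ * H P := by
    intro τ
    have h5 : sh j τ + P ∈ E ↔ τ ∈ {τ : Tor 2 | ‖τ 0 - (P i - P j) 0‖ ≤ 1 / 2 ^ a ∧
        ‖τ 1 - (P i - P j) 1‖ ≤ 1 / 2 ^ b} := by
      rw [hE]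
      simp only [Set.mem_ofPred_eq]
      unfold near
      rw [single_add_of_ne hij, single_add_same]
      have e : ∀ t : Fin 2, ‖P i t - (τ + P j) t‖ = ‖τ t - (P i - P j) t‖ := by
        intro t
        rw [← norm_neg]
        congr 1
        simp only [Pi.add_apply, Pi.sub_apply]
        abel
      rw [e, e]
    rw [hF]
    simp only
    rw [hHi]
    congr 1
    by_cases h6 : sh j τ + P ∈ E
    · rw [Set.indicator_of_mem h6, Set.indicator_of_mem (h5.1 h6)]
    · rw [Set.indicator_of_notMem h6, Set.indicator_of_notMem (fun h => h6 (h5.2 h))]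
  simp only [h4]
  rw [lintegral_mul_const _ (measurable_const.indicator (measurableSet_rect _ _ _)),
    lintegral_indicator (measurableSet_rect _ _ _)]
  simp only [lintegral_const, Measure.restrict_apply MeasurableSet.univ, Set.univ_inter,
    one_mul]
  gcongr
  refine (unif_rect_le (P i - P j) (by positivity)).trans (le_of_eq ?_)
  congr 1
  rw [pow_add]
  field_simp

theorem near_near {m : ℕ} {x y : Tor 2} (h1 : near m 0 x y) (h2 : near 0 m x y) :
    near m m x y := ⟨h1.1, h2.2⟩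

theorem prob_near2 (m : ℕ) {i j j' : Fin n} (hj : j ≠ i) (hj' : j' ≠ i) :
    iidLaw 2 n ({P | near m 0 (P i) (P j)} ∩ {P | near 0 m (P i) (P j')}) ≤
      ENNReal.ofReal (16 / 4 ^ m) := by
  by_cases h : j = j'
  · subst h
    have hsub : ({P : Fin n → Tor 2 | near m 0 (P i) (P j)} ∩ {P | near 0 m (P i) (P j)}) ⊆
        {P | near m m (P i) (P j)} := fun P hP => near_near hP.1 hP.2
    refine (measure_mono hsub).trans ((prob_near m m hj.symm).trans ?_)
    apply ENNReal.ofReal_le_ofReal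
    have : (2 : ℝ) ^ (m + m) = 4 ^ m := by
      rw [← two_mul, pow_mul]
      norm_num
    rw [this]
    gcongr
    norm_num
  · have hm1 := measurableSet_near m 0 i j
    have hm2 := measurableSet_near 0 m i j'
    have h1 := lintegral_near_mul_le 0 m (Ne.symm hj')
      (H := {P : Fin n → Tor 2 | near m 0 (P i) (P j)}.indicator (fun _ => 1))
      (measurable_const.indicator hm1) (by
        intro v P
        have e : (sh j' v + P ∈ {P : Fin n → Tor 2 | near m 0 (P i) (P j)}) ↔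
            P ∈ {P : Fin n → Tor 2 | near m 0 (P i) (P j)} := by
          simp only [Set.mem_ofPred_eq]
          rw [single_add_of_ne (Ne.symm hj'), single_add_of_ne h]
        by_cases hP : P ∈ {P : Fin n → Tor 2 | near m 0 (P i) (P j)}
        · rw [Set.indicator_of_mem hP, Set.indicator_of_mem (e.2 hP)]
        · rw [Set.indicator_of_notMem hP, Set.indicator_of_notMem (fun h => hP (e.1 h))])
    simp only [ind_mul_ind] at h1
    rw [lintegral_indicator (hm1.inter hm2), lintegral_indicator hm1] at h1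
    simp only [lintegral_const, Measure.restrict_apply MeasurableSet.univ, Set.univ_inter,
      one_mul] at h1
    refine h1.trans ?_
    have h3 := prob_near (n := n) m 0 hj.symm
    calc ENNReal.ofReal (4 / 2 ^ (0 + m)) * iidLaw 2 n {P | near m 0 (P i) (P j)}
        ≤ ENNReal.ofReal (4 / 2 ^ (0 + m)) * ENNReal.ofReal (4 / 2 ^ (m + 0)) := by gcongr
      _ = ENNReal.ofReal (16 / 4 ^ m) := by
        rw [← ENNReal.ofReal_mul (by positivity)]
        congr 1
        rw [zero_add, add_zero]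
        have : (4 : ℝ) ^ m = 2 ^ m * 2 ^ m := by rw [← mul_pow]; norm_num
        rw [this]
        field_simp
        norm_num

/-- product of the two closeness indicators -/
def nn (m : ℕ) (i j j' : Fin n) (P : Fin n → Tor 2) : ℝ :=
  nearI m 0 (P i) (P j) * nearI 0 m (P i) (P j')

theorem nn_nonneg (m : ℕ) (i j j' : Fin n) (P : Fin n → Tor 2) : 0 ≤ nn m i j j' P :=
  mul_nonneg (nearI_nonneg _ _ _ _) (nearI_nonneg _ _ _ _)

theorem nn_le_one (m : ℕ) (i j j' : Fin n) (P : Fin n → Tor 2) : nn m i j j' P ≤ 1 :=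
  mul_le_one₀ (nearI_le_one _ _ _ _) (nearI_nonneg _ _ _ _) (nearI_le_one _ _ _ _)

theorem measurable_nn (m : ℕ) (i j j' : Fin n) :
    Measurable fun P : Fin n → Tor 2 => nn m i j j' P :=
  (measurable_nearI _ _ _ _).mul (measurable_nearI _ _ _ _)

theorem integrable_nn (m : ℕ) (i j j' : Fin n) :
    Integrable (fun P : Fin n → Tor 2 => nn m i j j' P) (iidLaw 2 n) :=
  integrable_of_bdd (measurable_nn m i j j') (B := 1) fun P => by
    rw [abs_of_nonneg (nn_nonneg _ _ _ _ _)]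
    exact nn_le_one _ _ _ _ _

theorem integral_nn_le (m : ℕ) {i j j' : Fin n} (hj : j ≠ i) (hj' : j' ≠ i) :
    ∫ P, nn m i j j' P ∂(iidLaw 2 n) ≤ 16 / 4 ^ m := by
  have h1 : (fun P : Fin n → Tor 2 => nn m i j j' P) =
      ({P : Fin n → Tor 2 | near m 0 (P i) (P j)} ∩
        {P | near 0 m (P i) (P j')}).indicator (fun _ => (1 : ℝ)) := by
    ext P
    unfold nn
    have e1 := congrFun (nearI_eq_indicator (n := n) m 0 i j) P
    have e2 := congrFun (nearI_eq_indicator (n := n) 0 m i j') P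
    rw [e1, e2, mul_comm, ind_mul_ind]
  rw [h1, integral_indicator ((measurableSet_near m 0 i j).inter (measurableSet_near 0 m i j'))]
  simp only [integral_const, MeasurableSet.univ, measureReal_restrict_apply, univ_inter,
    smul_eq_mul, mul_one]
  exact ENNReal.toReal_le_of_le_ofReal (by positivity) (prob_near2 m hj hj')

theorem indep_nn (m : ℕ) (i j j' : Fin n) :
    ∀ l, l ≠ i → l ≠ j → l ≠ j' → Indep l (fun P : Fin n → Tor 2 => nn m i j j' P) := by
  intro l hli hlj hlj'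
  exact (indep_of_ne hli.symm hlj.symm (nearI m 0)).mul
    (indep_of_ne hli.symm hlj'.symm (nearI 0 m))

theorem bad2I_nonneg (P : Fin n → Tor 2) (i : Fin n) (m : ℕ) : 0 ≤ bad2I P i m := by
  unfold bad2I
  split_ifs <;> norm_num

theorem bad2I_le_one (P : Fin n → Tor 2) (i : Fin n) (m : ℕ) : bad2I P i m ≤ 1 := by
  unfold bad2I
  split_ifs <;> norm_num

theorem bad2I_le (P : Fin n → Tor 2) (i : Fin n) (m : ℕ) :
    bad2I P i m ≤ ∑ j ∈ Finset.univ.erase i, ∑ j' ∈ Finset.univ.erase i, nn m i j j' P := by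
  classical
  unfold bad2I
  split_ifs with hb
  · obtain ⟨⟨j, hj, hn1⟩, j', hj', hn2⟩ := hb
    have h1 : nn m i j j' P = 1 := by
      unfold nn nearI
      rw [if_pos hn1, if_pos hn2, one_mul]
    rw [← h1]
    refine le_trans ?_ (Finset.single_le_sum (f := fun j => ∑ j' ∈ Finset.univ.erase i,
      nn m i j j' P) (fun j _ => Finset.sum_nonneg fun j' _ => nn_nonneg _ _ _ _ _)
      (Finset.mem_erase.2 ⟨hj, Finset.mem_univ j⟩))
    exact Finset.single_le_sum (f := fun j' => nn m i j j' P) (fun j' _ => nn_nonneg _ _ _ _ _)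
      (Finset.mem_erase.2 ⟨hj', Finset.mem_univ j'⟩)
  · exact Finset.sum_nonneg fun j _ => Finset.sum_nonneg fun j' _ => nn_nonneg _ _ _ _ _

theorem measurable_bad2I (i : Fin n) (m : ℕ) :
    Measurable fun P : Fin n → Tor 2 => bad2I P i m := by
  classical
  have h1 : ∀ a b : ℕ, MeasurableSet {P : Fin n → Tor 2 | ∃ j, j ≠ i ∧ near a b (P i) (P j)} := by
    intro a b
    have : {P : Fin n → Tor 2 | ∃ j, j ≠ i ∧ near a b (P i) (P j)} =
        ⋃ j : Fin n, ⋃ (_ : j ≠ i), {P : Fin n → Tor 2 | near a b (P i) (P j)} := by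
      ext P
      simp
    rw [this]
    exact MeasurableSet.iUnion fun j => MeasurableSet.iUnion fun _ => measurableSet_near _ _ _ _
  have h3 : MeasurableSet {P : Fin n → Tor 2 | bad2 P i m} := (h1 m 0).inter (h1 0 m)
  unfold bad2I
  exact Measurable.ite h3 measurable_const measurable_const

theorem integrable_bad2I (i : Fin n) (m : ℕ) :
    Integrable (fun P : Fin n → Tor 2 => bad2I P i m) (iidLaw 2 n) :=
  integrable_of_bdd (measurable_bad2I i m) (B := 1) fun P => by
    rw [abs_of_nonneg (bad2I_nonneg _ _ _)]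
    exact bad2I_le_one _ _ _

theorem card_erase_le (i : Fin n) : ((Finset.univ.erase i).card : ℝ) ≤ n := by
  have := Finset.card_le_univ (Finset.univ.erase i)
  rw [Fintype.card_fin] at this
  exact_mod_cast this

theorem sum_sum_const_le (i : Fin n) {c : ℝ} (hc : 0 ≤ c) :
    ∑ _j ∈ Finset.univ.erase i, ∑ _j' ∈ Finset.univ.erase i, c ≤ n ^ 2 * c := by
  simp only [Finset.sum_const, nsmul_eq_mul]
  have h := card_erase_le i
  have h0 : (0 : ℝ) ≤ ((Finset.univ.erase i).card : ℝ) := by positivity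
  have h2 : ((Finset.univ.erase i).card : ℝ) * ((Finset.univ.erase i).card : ℝ) ≤ n ^ 2 := by
    nlinarith
  calc ((Finset.univ.erase i).card : ℝ) * (((Finset.univ.erase i).card : ℝ) * c)
      = (((Finset.univ.erase i).card : ℝ) * ((Finset.univ.erase i).card : ℝ)) * c := by ring
    _ ≤ n ^ 2 * c := mul_le_mul_of_nonneg_right h2 hc

/-- `E[1(bad2)]` -/
theorem integral_bad2I_le (i : Fin n) (m : ℕ) :
    ∫ P, bad2I P i m ∂(iidLaw 2 n) ≤ n ^ 2 * (16 / 4 ^ m) := by
  calc ∫ P, bad2I P i m ∂(iidLaw 2 n)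
      ≤ ∫ P, ∑ j ∈ Finset.univ.erase i, ∑ j' ∈ Finset.univ.erase i, nn m i j j' P
          ∂(iidLaw 2 n) := by
        refine integral_mono_of_nonneg (Eventually.of_forall fun P => bad2I_nonneg _ _ _) ?_
          (Eventually.of_forall fun P => bad2I_le P i m)
        exact integrable_finsetSum _ fun j _ => integrable_finsetSum _ fun j' _ =>
          integrable_nn _ _ _ _
    _ = ∑ j ∈ Finset.univ.erase i, ∑ j' ∈ Finset.univ.erase i,
          ∫ P, nn m i j j' P ∂(iidLaw 2 n) := by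
        rw [integral_finsetSum _ fun j _ => integrable_finsetSum _ fun j' _ =>
          integrable_nn _ _ _ _]
        refine Finset.sum_congr rfl fun j _ => ?_
        rw [integral_finsetSum _ fun j' _ => integrable_nn _ _ _ _]
    _ ≤ ∑ j ∈ Finset.univ.erase i, ∑ j' ∈ Finset.univ.erase i, (16 / 4 ^ m : ℝ) :=
        Finset.sum_le_sum fun j hj => Finset.sum_le_sum fun j' hj' =>
          integral_nn_le m (Finset.ne_of_mem_erase hj) (Finset.ne_of_mem_erase hj')
    _ ≤ n ^ 2 * (16 / 4 ^ m) := sum_sum_const_le i (by positivity)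

/-- `E[e_i² 1(bad2)]` -/
theorem integral_ee_sq_bad2I_le {r : ℕ} (hR0 : 0 < (Lam r).card) (hR : n ≤ (Lam r).card)
    (i : Fin n) (m : ℕ) :
    ∫ P, ee r P i ^ 2 * bad2I P i m ∂(iidLaw 2 n) ≤ n ^ 2 * (160 / 4 ^ m) := by
  have hR' : (0 : ℝ) < (Lam r).card := by exact_mod_cast hR0
  have hRn : (n : ℝ) ≤ (Lam r).card := by exact_mod_cast hR
  have hint : ∀ j j' : Fin n, Integrable (fun P : Fin n → Tor 2 =>
      ee r P i ^ 2 * nn m i j j' P) (iidLaw 2 n) := fun j j' =>
    integrable_ee_sq_mul r i (measurable_nn _ _ _ _) (B := 1) fun P => by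
      rw [abs_of_nonneg (nn_nonneg _ _ _ _ _)]
      exact nn_le_one _ _ _ _ _
  have hexp : ∀ P : Fin n → Tor 2, ee r P i ^ 2 *
      (∑ j ∈ Finset.univ.erase i, ∑ j' ∈ Finset.univ.erase i, nn m i j j' P) =
      ∑ j ∈ Finset.univ.erase i, ∑ j' ∈ Finset.univ.erase i, ee r P i ^ 2 * nn m i j j' P := by
    intro P
    simp only [Finset.mul_sum]
  have hterm : ∀ j ∈ Finset.univ.erase i, ∀ j' ∈ Finset.univ.erase i,
      ∫ P, ee r P i ^ 2 * nn m i j j' P ∂(iidLaw 2 n) ≤ 160 / 4 ^ m := by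
    intro j hj j' hj'
    have h1 := integral_ee_sq_mul_le hR0 i j j' (measurable_nn m i j j')
      (fun P => nn_nonneg m i j j' P) (fun P => nn_le_one m i j j' P) (indep_nn m i j j')
    have h2 := integral_nn_le m (Finset.ne_of_mem_erase hj) (Finset.ne_of_mem_erase hj')
    have h3 : 0 ≤ ∫ P, nn m i j j' P ∂(iidLaw 2 n) := integral_nonneg fun P => nn_nonneg _ _ _ _ _
    have h4 : (2 * n / (Lam r).card + 8 : ℝ) ≤ 10 := by
      have : (2 * n / (Lam r).card : ℝ) ≤ 2 := by
        rw [div_le_iff₀ hR']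
        linarith
      linarith
    calc ∫ P, ee r P i ^ 2 * nn m i j j' P ∂(iidLaw 2 n)
        ≤ (2 * n / (Lam r).card + 8) * ∫ P, nn m i j j' P ∂(iidLaw 2 n) := h1
      _ ≤ 10 * (16 / 4 ^ m) := mul_le_mul h4 h2 h3 (by norm_num)
      _ = 160 / 4 ^ m := by ring
  calc ∫ P, ee r P i ^ 2 * bad2I P i m ∂(iidLaw 2 n)
      ≤ ∫ P, ∑ j ∈ Finset.univ.erase i, ∑ j' ∈ Finset.univ.erase i,
          ee r P i ^ 2 * nn m i j j' P ∂(iidLaw 2 n) := by
        refine integral_mono_of_nonneg (Eventually.of_forall fun P => ?_) ?_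
          (Eventually.of_forall fun P => ?_)
        · exact mul_nonneg (sq_nonneg _) (bad2I_nonneg _ _ _)
        · exact integrable_finsetSum _ fun j _ => integrable_finsetSum _ fun j' _ => hint j j'
        · simp only
          rw [← hexp P]
          exact mul_le_mul_of_nonneg_left (bad2I_le P i m) (sq_nonneg _)
    _ = ∑ j ∈ Finset.univ.erase i, ∑ j' ∈ Finset.univ.erase i,
          ∫ P, ee r P i ^ 2 * nn m i j j' P ∂(iidLaw 2 n) := by
        rw [integral_finsetSum _ fun j _ => integrable_finsetSum _ fun j' _ => hint j j']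
        refine Finset.sum_congr rfl fun j _ => ?_
        rw [integral_finsetSum _ fun j' _ => hint j j']
    _ ≤ ∑ j ∈ Finset.univ.erase i, ∑ j' ∈ Finset.univ.erase i, (160 / 4 ^ m : ℝ) :=
        Finset.sum_le_sum fun j hj => Finset.sum_le_sum fun j' hj' => hterm j hj j' hj'
    _ ≤ n ^ 2 * (160 / 4 ^ m) := sum_sum_const_le i (by positivity)

/-! ### The weighted sum -/

theorem integrable_ee_sq_bad2I (r : ℕ) (i : Fin n) (m : ℕ) :
    Integrable (fun P : Fin n → Tor 2 => ee r P i ^ 2 * bad2I P i m) (iidLaw 2 n) :=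
  integrable_ee_sq_mul (n := n) r i (measurable_bad2I i m) (B := 1) fun P => by
    rw [abs_of_nonneg (bad2I_nonneg _ _ _)]
    exact bad2I_le_one _ _ _

theorem Y2_eq (r m₀ M : ℕ) (P : Fin n → Tor 2) :
    Y2 r m₀ M P = ∑ i, (ee r P i ^ 2 +
      ∑ m ∈ Finset.Ico m₀ M, ((2 : ℝ) ^ (m + 1 - m₀ : ℕ)) ^ (7 / 4 : ℝ) *
        (ee r P i ^ 2 * bad2I P i m)) := by
  unfold Y2 W2
  refine Finset.sum_congr rfl fun i _ => ?_
  rw [mul_add, Finset.mul_sum]
  congr 1
  · ring
  · refine Finset.sum_congr rfl fun m _ => ?_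
    ring

/-- the geometric sum of the weights -/
theorem weights_sum_le (m₀ M : ℕ) :
    ∑ m ∈ Finset.Ico m₀ M, ((2 : ℝ) ^ (m + 1 - m₀ : ℕ)) ^ (7 / 4 : ℝ) * (160 / 4 ^ m) ≤
      5000 / (2 ^ m₀) ^ 2 := by
  set q : ℝ := (2 : ℝ) ^ (1 / 4 : ℝ) with hq
  have hq0 : 0 < q := by positivity
  have hq4 : q ^ 4 = 2 := by
    rw [hq, ← Real.rpow_natCast, ← Real.rpow_mul (by norm_num)]
    norm_num
  have hq1 : 1.18 ≤ q := by
    by_contra hcon
    push Not at hcon
    have : q ^ 4 < 1.18 ^ 4 := pow_lt_pow_left₀ hcon hq0.le (by norm_num)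
    rw [hq4] at this
    norm_num at this
  have hpow : ∀ k : ℕ, ((2 : ℝ) ^ k) ^ (7 / 4 : ℝ) = q ^ (7 * k) := by
    intro k
    rw [hq, ← Real.rpow_natCast, ← Real.rpow_natCast, ← Real.rpow_mul (by norm_num),
      ← Real.rpow_mul (by norm_num)]
    congr 1
    push_cast
    ring
  have hterm : ∀ m ∈ Finset.Ico m₀ M, ((2 : ℝ) ^ (m + 1 - m₀ : ℕ)) ^ (7 / 4 : ℝ) *
      (160 / 4 ^ m) = 160 * q ^ 7 / (2 ^ m₀) ^ 2 * (q⁻¹) ^ (m - m₀) := by
    intro m hm
    obtain ⟨k, rfl⟩ := Nat.exists_eq_add_of_le (Finset.mem_Ico.1 hm).1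
    have e1 : m₀ + k + 1 - m₀ = k + 1 := by omega
    have e2 : m₀ + k - m₀ = k := by omega
    rw [e1, e2, hpow]
    have e3 : (4 : ℝ) ^ (m₀ + k) = (2 ^ m₀) ^ 2 * q ^ (8 * k) := by
      rw [pow_add, pow_mul q 8 k]
      have : q ^ 8 = 4 := by
        calc q ^ 8 = (q ^ 4) ^ 2 := by ring
          _ = 4 := by rw [hq4]; norm_num
      rw [this, ← pow_mul, mul_comm m₀ 2, pow_mul]
      norm_num
    rw [e3]
    have e4 : q ^ (7 * (k + 1)) = q ^ 7 * q ^ (7 * k) := by rw [← pow_add]; ring_nf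
    have e5 : q ^ (8 * k) = q ^ (7 * k) * q ^ k := by rw [← pow_add]; ring_nf
    rw [e4, e5, inv_pow]
    have : q ^ (7 * k) ≠ 0 := by positivity
    have h3 : q ^ k ≠ 0 := by positivity
    field_simp
  rw [Finset.sum_congr rfl hterm, ← Finset.mul_sum]
  have hgeo : ∑ m ∈ Finset.Ico m₀ M, (q⁻¹) ^ (m - m₀) ≤ (1 - q⁻¹)⁻¹ := by
    rw [Finset.sum_Ico_eq_sum_range]
    have h1 : ∀ k ∈ Finset.range (M - m₀), (q⁻¹) ^ (m₀ + k - m₀) = (q⁻¹) ^ k := by
      intro k _
      congr 1
      omega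
    rw [Finset.sum_congr rfl h1]
    have hlt : q⁻¹ < 1 := inv_lt_one_of_one_lt₀ (by linarith)
    have h2 := (summable_geometric_of_lt_one (by positivity) hlt).sum_le_tsum
      (Finset.range (M - m₀)) (fun k _ => by positivity)
    rw [tsum_geometric_of_lt_one (by positivity) hlt] at h2
    exact h2
  have hfin : 160 * q ^ 7 * (1 - q⁻¹)⁻¹ ≤ 5000 := by
    have e1 : (1 - q⁻¹)⁻¹ = q / (q - 1) := by
      have : q - 1 ≠ 0 := by
        have : 0 < q - 1 := by linarith
        exact this.ne'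
      have h2 : (1 - q⁻¹) = (q - 1) / q := by field_simp
      rw [h2, inv_div]
    rw [e1]
    have e2 : 160 * q ^ 7 * (q / (q - 1)) = 640 / (q - 1) := by
      have : q ^ 8 = 4 := by
        calc q ^ 8 = (q ^ 4) ^ 2 := by ring
          _ = 4 := by rw [hq4]; norm_num
      calc 160 * q ^ 7 * (q / (q - 1)) = 160 * q ^ 8 / (q - 1) := by ring
        _ = 640 / (q - 1) := by rw [this]; norm_num
    rw [e2, div_le_iff₀ (by linarith)]
    nlinarith
  calc 160 * q ^ 7 / (2 ^ m₀) ^ 2 * ∑ m ∈ Finset.Ico m₀ M, (q⁻¹) ^ (m - m₀)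
      ≤ 160 * q ^ 7 / (2 ^ m₀) ^ 2 * (1 - q⁻¹)⁻¹ := by gcongr
    _ = (160 * q ^ 7 * (1 - q⁻¹)⁻¹) / (2 ^ m₀) ^ 2 := by ring
    _ ≤ 5000 / (2 ^ m₀) ^ 2 := by gcongr

theorem integrable_Y2 (r m₀ M : ℕ) :
    Integrable (fun P : Fin n → Tor 2 => Y2 r m₀ M P) (iidLaw 2 n) := by
  simp only [Y2_eq]
  refine integrable_finsetSum _ fun i _ => (integrable_ee_sq r i).add ?_
  exact integrable_finsetSum _ fun m _ => (integrable_ee_sq_bad2I r i m).const_mul _

theorem integral_Y2_le {r : ℕ} (hR0 : 0 < (Lam r).card) (hR : n ≤ (Lam r).card) (m₀ M : ℕ) :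
    ∫ P : Fin n → Tor 2, Y2 r m₀ M P ∂(iidLaw 2 n) ≤
      n * (n / (Lam r).card + 5000 * (n / 2 ^ m₀) ^ 2) := by
  simp only [Y2_eq]
  rw [integral_finsetSum]
  · have h1 : ∀ i : Fin n, ∫ P : Fin n → Tor 2, (ee r P i ^ 2 +
        ∑ m ∈ Finset.Ico m₀ M, ((2 : ℝ) ^ (m + 1 - m₀ : ℕ)) ^ (7 / 4 : ℝ) *
          (ee r P i ^ 2 * bad2I P i m)) ∂(iidLaw 2 n) ≤
        n / (Lam r).card + 5000 * (n / 2 ^ m₀) ^ 2 := by
      intro i
      rw [integral_add (integrable_ee_sq r i)
        (integrable_finsetSum _ fun m _ => (integrable_ee_sq_bad2I r i m).const_mul _),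
        integral_finsetSum _ fun m _ => (integrable_ee_sq_bad2I r i m).const_mul _]
      refine add_le_add (integral_ee_sq_le hR0 i) ?_
      have h2 : ∀ m ∈ Finset.Ico m₀ M, ∫ P, ((2 : ℝ) ^ (m + 1 - m₀ : ℕ)) ^ (7 / 4 : ℝ) *
          (ee r P i ^ 2 * bad2I P i m) ∂(iidLaw 2 n) ≤
          (n : ℝ) ^ 2 * (((2 : ℝ) ^ (m + 1 - m₀ : ℕ)) ^ (7 / 4 : ℝ) * (160 / 4 ^ m)) := by
        intro m _
        rw [integral_const_mul]
        calc ((2 : ℝ) ^ (m + 1 - m₀ : ℕ)) ^ (7 / 4 : ℝ) *
              ∫ P, ee r P i ^ 2 * bad2I P i m ∂(iidLaw 2 n)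
            ≤ ((2 : ℝ) ^ (m + 1 - m₀ : ℕ)) ^ (7 / 4 : ℝ) * (n ^ 2 * (160 / 4 ^ m)) :=
              mul_le_mul_of_nonneg_left (integral_ee_sq_bad2I_le hR0 hR i m) (by positivity)
          _ = _ := by ring
      refine (Finset.sum_le_sum h2).trans ?_
      rw [← Finset.mul_sum]
      calc (n : ℝ) ^ 2 * ∑ m ∈ Finset.Ico m₀ M,
            ((2 : ℝ) ^ (m + 1 - m₀ : ℕ)) ^ (7 / 4 : ℝ) * (160 / 4 ^ m)
          ≤ (n : ℝ) ^ 2 * (5000 / (2 ^ m₀) ^ 2) :=
            mul_le_mul_of_nonneg_left (weights_sum_le m₀ M) (by positivity)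
        _ = 5000 * (n / 2 ^ m₀) ^ 2 := by
            rw [div_pow]
            ring
    refine (Finset.sum_le_sum fun i _ => h1 i).trans (le_of_eq ?_)
    simp only [Finset.sum_const, Finset.card_univ, Fintype.card_fin, nsmul_eq_mul]
  · intro i _
    refine (integrable_ee_sq r i).add ?_
    exact integrable_finsetSum _ fun m _ => (integrable_ee_sq_bad2I r i m).const_mul _

theorem W2_nonneg (m₀ M : ℕ) (P : Fin n → Tor 2) (i : Fin n) : 0 ≤ W2 m₀ M P i := by
  unfold W2
  refine add_nonneg zero_le_one (Finset.sum_nonneg fun m _ => ?_)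
  exact mul_nonneg (by positivity) (bad2I_nonneg _ _ _)

theorem Y2_nonneg (r m₀ M : ℕ) (P : Fin n → Tor 2) : 0 ≤ Y2 r m₀ M P :=
  Finset.sum_nonneg fun _ _ => mul_nonneg (sq_nonneg _) (W2_nonneg _ _ _ _)

/-- fourth statistic -/
def Z2 (M : ℕ) (P : Fin n → Tor 2) : ℝ := ∑ i, bad2I P i M

theorem Z2_nonneg (M : ℕ) (P : Fin n → Tor 2) : 0 ≤ Z2 M P :=
  Finset.sum_nonneg fun _ _ => bad2I_nonneg _ _ _

theorem integral_Z2_le (M : ℕ) :
    ∫ P : Fin n → Tor 2, Z2 M P ∂(iidLaw 2 n) ≤ n * (n ^ 2 * (16 / 4 ^ M)) := by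
  unfold Z2
  rw [integral_finsetSum _ fun i _ => integrable_bad2I i M]
  refine (Finset.sum_le_sum fun i _ => integral_bad2I_le i M).trans (le_of_eq ?_)
  simp

/-- Markov for the four statistics. -/
theorem exists_good2 {r : ℕ} (hn : 0 < n) (hR : n ≤ (Lam r).card) (m₀ M : ℕ)
    (hM : 720 * n ^ 3 < 4 ^ M) :
    ∃ G : Set (Fin n → Tor 2), MeasurableSet G ∧ G ⊆ Good2 n r m₀ M ∧
      ENNReal.ofReal (1 / 2) ≤ iidLaw 2 n G := by
  have hR0 : 0 < (Lam r).card := lt_of_lt_of_le hn hR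
  have hn' : (0 : ℝ) < n := by exact_mod_cast hn
  have hR' : (0 : ℝ) < (Lam r).card := by exact_mod_cast hR0
  set b1 : ℝ := n / (Lam r).card with hb1
  set b2 : ℝ := n * (n / (Lam r).card + 5000 * (n / 2 ^ m₀) ^ 2) with hb2
  set b3 : ℝ := n * (n / (Lam r).card) with hb3
  set b4 : ℝ := n * (n ^ 2 * (16 / 4 ^ M)) with hb4
  have hb1p : 0 < b1 := by positivity
  have hb2p : 0 < b2 := by positivity
  have hb3p : 0 < b3 := by positivity
  have hb4p : 0 < b4 := by positivity
  set T : (Fin n → Tor 2) → ℝ := fun P =>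
    X1 r P / b1 + Y2 r m₀ M P / b2 + X3 r P / b3 + Z2 M P / b4 with hT
  have hX3i : Integrable (fun P : Fin n → Tor 2 => X3 r P) (iidLaw 2 n) :=
    integrable_finsetSum _ fun i _ => integrable_ee_sq r i
  have hX4i : Integrable (fun P : Fin n → Tor 2 => Z2 M P) (iidLaw 2 n) :=
    integrable_finsetSum _ fun i _ => integrable_bad2I i M
  have hX2i := integrable_Y2 (n := n) r m₀ M
  have hX1i := integrable_X1 (n := n) r
  have hTint : Integrable T (iidLaw 2 n) :=
    ((((hX1i.div_const b1).add (hX2i.div_const b2)).add (hX3i.div_const b3)).add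
      (hX4i.div_const b4))
  have hTnn : ∀ P, 0 ≤ T P := fun P => by
    have := X1_nonneg r P
    have := Y2_nonneg r m₀ M P
    have := X3_nonneg r P
    have := Z2_nonneg M P
    rw [hT]
    positivity
  have i12 : Integrable (fun P : Fin n → Tor 2 => X1 r P / b1 + Y2 r m₀ M P / b2)
      (iidLaw 2 n) := (hX1i.div_const b1).add (hX2i.div_const b2)
  have i123 : Integrable (fun P : Fin n → Tor 2 => X1 r P / b1 + Y2 r m₀ M P / b2 +
      X3 r P / b3) (iidLaw 2 n) := i12.add (hX3i.div_const b3)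
  have hTE : ∫ P, T P ∂(iidLaw 2 n) ≤ 4 := by
    simp only [hT]
    rw [integral_add i123 (hX4i.div_const b4), integral_add i12
      (hX3i.div_const b3), integral_add (hX1i.div_const b1) (hX2i.div_const b2),
      integral_div, integral_div, integral_div, integral_div]
    have e1 : (∫ P : Fin n → Tor 2, X1 r P ∂(iidLaw 2 n)) / b1 ≤ 1 := by
      rw [div_le_one hb1p, integral_X1 hR0]
    have e2 : (∫ P : Fin n → Tor 2, Y2 r m₀ M P ∂(iidLaw 2 n)) / b2 ≤ 1 := by
      rw [div_le_one hb2p]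
      exact integral_Y2_le hR0 hR m₀ M
    have e3 : (∫ P : Fin n → Tor 2, X3 r P ∂(iidLaw 2 n)) / b3 ≤ 1 := by
      rw [div_le_one hb3p]
      exact integral_X3_le hR0
    have e4 : (∫ P : Fin n → Tor 2, Z2 M P ∂(iidLaw 2 n)) / b4 ≤ 1 := by
      rw [div_le_one hb4p]
      exact integral_Z2_le M
    linarith
  have hTmeas : Measurable T := by
    have m1 : Measurable fun P : Fin n → Tor 2 => X1 r P := by
      unfold X1
      refine Finset.measurable_fun_sum _ fun h _ => ?_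
      simp only [norm_sq_cc]
      refine Measurable.div_const ?_ _
      exact Finset.measurable_fun_sum _ fun i _ => Finset.measurable_fun_sum _ fun j _ =>
        measurable_char _ _ _
    have m2 : Measurable fun P : Fin n → Tor 2 => Y2 r m₀ M P := by
      unfold Y2 W2
      refine Finset.measurable_fun_sum _ fun i _ => ((measurable_ee r i).pow_const 2).mul ?_
      refine measurable_const.add ?_
      exact Finset.measurable_fun_sum _ fun m _ => (measurable_bad2I i m).const_mul _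
    have m3 : Measurable fun P : Fin n → Tor 2 => X3 r P := by
      unfold X3
      exact Finset.measurable_fun_sum _ fun i _ => (measurable_ee r i).pow_const 2
    have m4 : Measurable fun P : Fin n → Tor 2 => Z2 M P := by
      unfold Z2
      exact Finset.measurable_fun_sum _ fun i _ => measurable_bad2I i M
    exact (((m1.div_const b1).add (m2.div_const b2)).add (m3.div_const b3)).add (m4.div_const b4)
  refine ⟨{P | T P < 9}, measurableSet_lt hTmeas measurable_const, ?_, ?_⟩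
  · intro P hP
    have hP' : T P < 9 := hP
    have n1 : 0 ≤ X1 r P / b1 := div_nonneg (X1_nonneg r P) hb1p.le
    have n2 : 0 ≤ Y2 r m₀ M P / b2 := div_nonneg (Y2_nonneg r m₀ M P) hb2p.le
    have n3 : 0 ≤ X3 r P / b3 := div_nonneg (X3_nonneg r P) hb3p.le
    have n4 : 0 ≤ Z2 M P / b4 := div_nonneg (Z2_nonneg M P) hb4p.le
    have hsum : X1 r P / b1 + Y2 r m₀ M P / b2 + X3 r P / b3 + Z2 M P / b4 < 9 := hP'
    refine ⟨?_, ?_, ?_, ?_⟩
    · rw [← div_le_iff₀ hb1p]
      linarith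
    · rw [← div_le_iff₀ hb3p]
      linarith
    · rw [← div_le_iff₀ hb2p]
      linarith
    · have h4 : Z2 M P < 9 * b4 := by
        rw [← div_lt_iff₀ hb4p]
        linarith
      have h5 : 9 * b4 < 1 := by
        rw [hb4]
        have hM' : (720 : ℝ) * n ^ 3 < 4 ^ M := by exact_mod_cast hM
        have h2M : (0 : ℝ) < 4 ^ M := by positivity
        have h3 : 9 * ((n : ℝ) * (n ^ 2 * (16 / 4 ^ M))) = 144 * n ^ 3 / 4 ^ M := by
          field_simp
          ring
        rw [h3, div_lt_one h2M]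
        have : (0 : ℝ) < n ^ 3 := by positivity
        linarith
      intro i hi
      have h6 : bad2I P i M ≤ Z2 M P :=
        Finset.single_le_sum (f := fun i => bad2I P i M) (fun i _ => bad2I_nonneg _ _ _)
          (Finset.mem_univ i)
      have h7 : bad2I P i M = 1 := by
        unfold bad2I
        rw [if_pos hi]
      linarith
  · have hmk := mul_meas_ge_le_integral_of_nonneg (Eventually.of_forall hTnn) hTint 9
    have h1 : (iidLaw 2 n).real {P | 9 ≤ T P} ≤ 1 / 2 := by linarith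
    have h2 : {P | T P < 9} = {P | 9 ≤ T P}ᶜ := by
      ext P
      simp
    have h3 : (iidLaw 2 n).real {P | T P < 9} = 1 - (iidLaw 2 n).real {P | 9 ≤ T P} := by
      rw [h2, probReal_compl_eq_one_sub (measurableSet_le measurable_const hTmeas)]
    rw [← ENNReal.ofReal_toReal (measure_ne_top (iidLaw 2 n) {P | T P < 9})]
    apply ENNReal.ofReal_le_ofReal
    change 1 / 2 ≤ (iidLaw 2 n).real {P | T P < 9}
    rw [h3]
    linarith

end Pool.Agent.Helper6.MixRan
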