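import Pool.Agent.Helper59.MixInt.Fool
import Pool.Agent.Helper6.MixRan.Expect2

/-!
# The fooling function in the frame
-/

open MeasureTheory UnitAddTorus Filter Topology Set
open scoped ENNReal

noncomputable section

namespace Pool.Agent.Helper6.MixRan

open Pool.Agent.Helper59.MixInt

variable {n : ℕ}

/-- a nearest grid point on the circle -/
theorem fo_exists_grid (x : UnitAddCircle) (a : ℕ) :
    ∃ i : ℕ, i < 2 ^ (a + 1) ∧ ‖x - (((i : ℝ) / 2 ^ (a + 1) : ℝ) : UnitAddCircle)‖ ≤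
      1 / 2 ^ (a + 2) := by
  obtain ⟨y, _, rfl⟩ := exists_rep x
  set N : ℤ := 2 ^ (a + 1) with hN
  have hN0 : 0 < N := by positivity
  set k : ℤ := round (y * 2 ^ (a + 1)) with hk
  have h1 : 0 ≤ k % N := Int.emod_nonneg _ hN0.ne'
  have h2 : k % N < N := Int.emod_lt_of_pos _ hN0
  refine ⟨(k % N).toNat, ?_, ?_⟩
  · have h3 : ((k % N).toNat : ℤ) < N := by
      rw [Int.toNat_of_nonneg h1]; exact h2
    rw [hN] at h3
    exact_mod_cast h3
  · have h4 : (((k % N).toNat : ℕ) : ℝ) = (k : ℝ) - 2 ^ (a + 1) * (k / N : ℤ) := by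
      have h5 : (((k % N).toNat : ℕ) : ℤ) = k - N * (k / N) := by
        rw [Int.toNat_of_nonneg h1, Int.emod_def]
      have h6 : ((((k % N).toNat : ℕ) : ℤ) : ℝ) = ((k - N * (k / N) : ℤ) : ℝ) := by
        exact_mod_cast congrArg (fun z : ℤ => (z : ℝ)) h5
      rw [hN] at h6
      push_cast at h6
      rw [hN]
      exact_mod_cast h6
    have hp : (0 : ℝ) < 2 ^ (a + 1) := by positivity
    rw [← AddCircle.coe_sub, UnitAddCircle.norm_eq]
    refine (round_le _ (k / N)).trans ?_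
    rw [h4]
    have h7 : y - ((k : ℝ) - 2 ^ (a + 1) * (k / N : ℤ)) / 2 ^ (a + 1) - ((k / N : ℤ) : ℝ) =
        (y * 2 ^ (a + 1) - k) / 2 ^ (a + 1) := by
      field_simp
      ring
    rw [h7, abs_div, abs_of_pos hp]
    have h8 := abs_sub_round (y * 2 ^ (a + 1))
    rw [← hk] at h8
    calc |y * 2 ^ (a + 1) - k| / 2 ^ (a + 1) ≤ 1 / 2 / 2 ^ (a + 1) := by gcongr
      _ = 1 / 2 ^ (a + 2) := by
          rw [pow_succ (2 : ℝ) (a + 1)]
          field_simp

theorem fo_hat_ge {a : ℕ} {t : UnitAddCircle} (h : ‖t‖ ≤ 1 / 2 ^ (a + 2)) : 1 / 2 ≤ hat a t := by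
  unfold hat
  refine le_trans ?_ (le_max_right _ _)
  have h1 : (2 : ℝ) ^ (a + 1) * ‖t‖ ≤ 2 ^ (a + 1) * (1 / 2 ^ (a + 2)) := by gcongr
  have h2 : (2 : ℝ) ^ (a + 1) * (1 / 2 ^ (a + 2)) = 1 / 2 := by
    rw [pow_succ (2 : ℝ) (a + 1)]
    field_simp
  linarith

theorem fo_norm_lt_of_hat {a : ℕ} {t : UnitAddCircle} (h : hat a t ≠ 0) : ‖t‖ < 1 / 2 ^ (a + 1) := by
  by_contra hcon
  exact h (hat_eq_zero (not_lt.1 hcon))

/-- grid centre near a point, hat large there and zero at points that are not near -/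
theorem fo_exists_ctr {m₀ M : ℕ} (s : ℕ × ℕ) (hs : s ∈ shp m₀ M) (hs1 : s.1 ≤ M) (hs2 : s.2 ≤ M)
    (x : Tor 2) : ∃ t : ↥(TT m₀ M), t.1.1 = s.1 ∧ t.1.2.1 = s.2 ∧ 1 / 4 ≤ hatf t.1 x ∧
      ∀ y : Tor 2, ¬ near s.1 s.2 x y → hatf t.1 y = 0 := by
  obtain ⟨i, hi, hi'⟩ := fo_exists_grid (x 0) s.1
  obtain ⟨j, hj, hj'⟩ := fo_exists_grid (x 1) s.2
  have hiM : i < 2 ^ (M + 1) := lt_of_lt_of_le hi (Nat.pow_le_pow_right (by norm_num) (by omega))
  have hjM : j < 2 ^ (M + 1) := lt_of_lt_of_le hj (Nat.pow_le_pow_right (by norm_num) (by omega))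
  have ht : (s.1, s.2, i, j) ∈ TT m₀ M := by
    unfold TT
    simp only [Finset.mem_filter, Finset.mem_product, Finset.mem_range]
    exact ⟨⟨by omega, by omega, hiM, hjM⟩, hs, hi, hj⟩
  refine ⟨⟨(s.1, s.2, i, j), ht⟩, rfl, rfl, ?_, ?_⟩
  · unfold hatf prod2 ctr
    simp only [Matrix.cons_val_zero, Matrix.cons_val_one]
    have h1 := fo_hat_ge hi'
    have h2 := fo_hat_ge hj'
    calc (1 : ℝ) / 4 = 1 / 2 * (1 / 2) := by norm_num
      _ ≤ _ := mul_le_mul h1 h2 (by norm_num) (by linarith)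
  · intro y hy
    by_contra hne
    apply hy
    unfold hatf prod2 ctr at hne
    simp only [Matrix.cons_val_zero, Matrix.cons_val_one] at hne
    have h1 := fo_norm_lt_of_hat (left_ne_zero_of_mul hne)
    have h2 := fo_norm_lt_of_hat (right_ne_zero_of_mul hne)
    have key : ∀ (a : ℕ) (u v c : UnitAddCircle), ‖u - c‖ ≤ 1 / 2 ^ (a + 2) →
        ‖v - c‖ < 1 / 2 ^ (a + 1) → ‖u - v‖ ≤ 1 / 2 ^ a := by
      intro a u v c hu hv
      have h3 : u - v = (u - c) - (v - c) := by abel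
      have h4 : (1 : ℝ) / 2 ^ (a + 2) + 1 / 2 ^ (a + 1) ≤ 1 / 2 ^ a := by
        rw [pow_succ (2 : ℝ) (a + 1), pow_succ (2 : ℝ) a]
        have hp : (0 : ℝ) < 2 ^ a := by positivity
        have : (1 : ℝ) / (2 ^ a * 2 * 2) + 1 / (2 ^ a * 2) = 3 / 4 * (1 / 2 ^ a) := by
          field_simp
          ring
        rw [this]
        have : (0 : ℝ) < 1 / 2 ^ a := by positivity
        linarith
      calc ‖u - v‖ = ‖(u - c) - (v - c)‖ := by rw [← h3]
        _ ≤ ‖u - c‖ + ‖v - c‖ := norm_sub_le _ _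
        _ ≤ 1 / 2 ^ (a + 2) + 1 / 2 ^ (a + 1) := by linarith
        _ ≤ 1 / 2 ^ a := h4
    exact ⟨key _ _ _ _ hi' h1, key _ _ _ _ hj' h2⟩

/-- the level of a point -/
def fo_lev (P : Fin n → Tor 2) (m₀ : ℕ) (i : Fin n) : ℕ := sInf {m | m₀ ≤ m ∧ ¬ bad2 P i m}

section fixed

variable {P : Fin n → Tor 2} {m₀ M : ℕ}

theorem fo_lev_mem (hM : ∀ i, ¬ bad2 P i M) (hm : m₀ ≤ M) (i : Fin n) :
    m₀ ≤ fo_lev P m₀ i ∧ ¬ bad2 P i (fo_lev P m₀ i) :=
  Nat.sInf_mem (s := {m | m₀ ≤ m ∧ ¬ bad2 P i m}) ⟨M, hm, hM i⟩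

theorem fo_lev_le (hM : ∀ i, ¬ bad2 P i M) (hm : m₀ ≤ M) (i : Fin n) : fo_lev P m₀ i ≤ M :=
  Nat.sInf_le (show M ∈ {m | m₀ ≤ m ∧ ¬ bad2 P i m} from ⟨hm, hM i⟩)

theorem fo_bad2I_nonneg (P : Fin n → Tor 2) (i : Fin n) (m : ℕ) : 0 ≤ bad2I P i m := by
  unfold bad2I
  split_ifs <;> norm_num

theorem fo_lev_le_W2 (hM : ∀ i, ¬ bad2 P i M) (hm : m₀ ≤ M) (i : Fin n) :
    ((2 : ℝ) ^ (fo_lev P m₀ i - m₀ : ℕ)) ^ (7 / 4 : ℝ) ≤ W2 m₀ M P i := by
  unfold W2
  have hnn : ∀ m ∈ Finset.Ico m₀ M, 0 ≤ ((2 : ℝ) ^ (m + 1 - m₀ : ℕ)) ^ (7 / 4 : ℝ) * bad2I P i m :=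
    fun m _ => mul_nonneg (by positivity) (fo_bad2I_nonneg _ _ _)
  rcases Nat.eq_or_lt_of_le (fo_lev_mem hM hm i).1 with h | h
  · rw [← h, Nat.sub_self, pow_zero, Real.one_rpow]
    have := Finset.sum_nonneg hnn
    linarith
  · obtain ⟨m, hm'⟩ : ∃ m, fo_lev P m₀ i = m + 1 := ⟨fo_lev P m₀ i - 1, by omega⟩
    have h1 : m ∈ Finset.Ico m₀ M := by
      rw [Finset.mem_Ico]
      have := fo_lev_le hM hm i
      omega
    have h2 : bad2 P i m := by
      by_contra hcon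
      have : fo_lev P m₀ i ≤ m :=
        Nat.sInf_le (show m ∈ {m | m₀ ≤ m ∧ ¬ bad2 P i m} from ⟨by omega, hcon⟩)
      omega
    have h3 : bad2I P i m = 1 := by
      unfold bad2I
      rw [if_pos h2]
    have h4 := Finset.single_le_sum hnn h1
    rw [h3, mul_one, ← hm'] at h4
    linarith

/-- for every point an isolating grid hat -/
theorem fo_exists_T (hM : ∀ i, ¬ bad2 P i M) (hm : m₀ ≤ M) (i : Fin n) :
    ∃ t : ↥(TT m₀ M), t.1.1 + t.1.2.1 = fo_lev P m₀ i ∧ 1 / 4 ≤ hatf t.1 (P i) ∧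
      ∀ j, j ≠ i → hatf t.1 (P j) = 0 := by
  obtain ⟨h1, h2⟩ := fo_lev_mem hM hm i
  have h3 := fo_lev_le hM hm i
  unfold bad2 at h2
  rw [not_and_or] at h2
  rcases h2 with h2 | h2
  · obtain ⟨t, h4, h5, h6, h7⟩ := fo_exists_ctr (m₀ := m₀) (M := M) (fo_lev P m₀ i, 0)
      (by
        unfold shp
        rw [Finset.mem_union, Finset.mem_image]
        exact Or.inl ⟨_, Finset.mem_Icc.2 ⟨h1, h3⟩, rfl⟩) h3 (Nat.zero_le _) (P i)
    refine ⟨t, by rw [h4, h5]; simp, h6, fun j hj => h7 _ fun hn => h2 ⟨j, hj, hn⟩⟩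
  · obtain ⟨t, h4, h5, h6, h7⟩ := fo_exists_ctr (m₀ := m₀) (M := M) (0, fo_lev P m₀ i)
      (by
        unfold shp
        rw [Finset.mem_union, Finset.mem_image, Finset.mem_image]
        exact Or.inr ⟨_, Finset.mem_Icc.2 ⟨h1, h3⟩, rfl⟩) (Nat.zero_le _) h3 (P i)
    refine ⟨t, by rw [h4, h5]; simp, h6, fun j hj => h7 _ fun hn => h2 ⟨j, hj, hn⟩⟩

end fixed

theorem fo_τ₂_pos (m₀ m : ℕ) : 0 < τ₂ m₀ m := by
  unfold τ₂
  have := CS_pos (k := k₀) (by norm_num)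
  positivity

theorem fo_τ₂_sq {m₀ m : ℕ} (h : m₀ ≤ m) :
    1 / τ₂ m₀ m ^ 2 = ((2 : ℝ) ^ (m - m₀ : ℕ)) ^ (7 / 4 : ℝ) / τ₂ m₀ m₀ ^ 2 := by
  have h0 : (0 : ℝ) < 2 ^ m₀ := by positivity
  have h1 : (0 : ℝ) < 2 ^ (m - m₀ : ℕ) := by positivity
  have e1 : τ₂ m₀ m = τ₂ m₀ m₀ * ((2 : ℝ) ^ (m - m₀ : ℕ)) ^ (-(7 / 8) : ℝ) := by
    unfold τ₂
    rw [Nat.sub_self, pow_zero, Real.one_rpow, mul_one]
    have e2 : (2 : ℝ) ^ m = 2 ^ m₀ * 2 ^ (m - m₀ : ℕ) := by
      rw [← pow_add]; congr 1; omega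
    rw [e2, Real.mul_rpow h0.le h1.le, mul_assoc, mul_assoc, mul_assoc, ← Real.rpow_add h1]
    norm_num
  have h2 := fo_τ₂_pos m₀ m₀
  have e3 : (((2 : ℝ) ^ (m - m₀ : ℕ)) ^ (-(7 / 8) : ℝ)) ^ 2 =
      (((2 : ℝ) ^ (m - m₀ : ℕ)) ^ (7 / 4 : ℝ))⁻¹ := by
    rw [← Real.rpow_natCast, ← Real.rpow_mul h1.le, ← Real.rpow_neg h1.le]
    norm_num
  rw [e1, mul_pow, e3]
  have h3 : 0 < ((2 : ℝ) ^ (m - m₀ : ℕ)) ^ (7 / 4 : ℝ) := by positivity
  field_simp

theorem fo_gg_eq (r : ℕ) (P : Fin n → Tor 2) (x : Tor 2) :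
    gg r P x = ∑ h ∈ Lam r, ((cc r P h).re * (mFourier h x).re -
      (cc r P h).im * (mFourier h x).im) := by
  have h1 := congrArg Complex.re (gg_ofReal r P x)
  rw [Complex.ofReal_re, Complex.re_sum] at h1
  rw [h1]
  refine Finset.sum_congr rfl fun h _ => ?_
  rw [Complex.mul_re]

theorem fo_τ₁_pos {r : ℕ} (hR : 0 < (Lam r).card) : 0 < τ₁ r := by
  have hr : 0 < r := by
    rcases Nat.eq_zero_or_pos r with h | h
    · exfalso
      subst h
      obtain ⟨h, hh⟩ := Finset.card_pos.1 hR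
      obtain ⟨h0, h1, h2⟩ := mem_Lam.1 hh
      have : |h 0 * h 1| = 0 := le_antisymm (by simpa using h2) (abs_nonneg _)
      rw [abs_eq_zero] at this
      rcases mul_eq_zero.1 this with h3 | h3
      · exact h0 h3
      · exact h1 h3
    · exact h
  unfold τ₁
  have h1 : (0 : ℝ) < (Lam r).card := by exact_mod_cast hR
  have h2 : (0 : ℝ) < r := by exact_mod_cast hr
  positivity

/-- The fooling function in the frame. `f = 1 - gg r P - ∑_i (e_i / hatf t_i (P i)) hatf t_i`. -/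
theorem fool2 {r m₀ M : ℕ} (hn : 0 < n) (hm : m₀ ≤ M) (hnm : 2 * n ≤ 2 ^ m₀)
    (hR : 144 * n ≤ (Lam r).card) {P : Fin n → Tor 2} (hP : P ∈ Good2 n r m₀ M) :
    ∃ w : JJ r m₀ M → ℝ, (∀ i, FF r m₀ M w (P i) = 0) ∧ 1 / 2 ≤ integ (FF r m₀ M w) ∧
      ∑ j, w j ^ 2 ≤ 64 + 9 * (n / (Lam r).card) / τ₁ r ^ 2 +
        144 * (n * (n / (Lam r).card + 5000 * (n / 2 ^ m₀) ^ 2)) / τ₂ m₀ m₀ ^ 2 := by
  obtain ⟨hX1, hX3, hY2, hM⟩ := hP
  have hn' : (0 : ℝ) < n := by exact_mod_cast hn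
  have hR0 : 0 < (Lam r).card := by omega
  have hR0' : (0 : ℝ) < (Lam r).card := by exact_mod_cast hR0
  have hR' : (144 : ℝ) * n ≤ (Lam r).card := by exact_mod_cast hR
  have hτ₁ := fo_τ₁_pos hR0
  choose T hT1 hT2 hT3 using fo_exists_T hM hm
  have hTinj : Function.Injective T := by
    intro i j hij
    by_contra hne
    have h1 := hT3 i j (fun h => hne h.symm)
    have h2 := hT2 j
    rw [← hij, h1] at h2
    norm_num at h2
  have hTpos : ∀ i, 0 < hatf (T i).1 (P i) := fun i => lt_of_lt_of_le (by norm_num) (hT2 i)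
  -- the coefficients
  set c : Fin n → ℝ := fun i => -(ee r P i / hatf (T i).1 (P i)) / τ₂ m₀ (fo_lev P m₀ i) with hc
  set w : JJ r m₀ M → ℝ := fun j => match j with
    | Sum.inl _ => 8
    | Sum.inr (Sum.inl (h, false)) => -(cc r P h.1).re / τ₁ r
    | Sum.inr (Sum.inl (h, true)) => (cc r P h.1).im / τ₁ r
    | Sum.inr (Sum.inr t) => Function.extend T c 0 t with hw
  have hext : ∀ i, Function.extend T c 0 (T i) = c i := fun i => hTinj.extend_apply _ _ _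
  have hext0 : ∀ t, t ∉ Set.range T → Function.extend T c 0 t = 0 := by
    intro t ht
    rw [Function.extend_apply' _ _ _ (by simpa using ht)]
    rfl
  -- the function
  have hF0 : ∀ x, F0 r m₀ M w x = 1 := by
    intro x
    unfold F0 τ₀
    simp only [hw]
    norm_num
  have hF1 : ∀ x, F1 r m₀ M w x = -gg r P x := by
    intro x
    rw [fo_gg_eq]
    unfold F1
    simp only [hw]
    rw [← Finset.sum_neg_distrib, ← Finset.sum_coe_sort (Lam r)]
    refine Finset.sum_congr rfl fun h _ => ?_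
    field_simp
    ring
  have hF2 : ∀ x, F2 r m₀ M w x = -∑ i, ee r P i / hatf (T i).1 (P i) * hatf (T i).1 x := by
    intro x
    unfold F2
    simp only [hw]
    rw [← Finset.sum_neg_distrib]
    symm
    apply Fintype.sum_of_injective T hTinj
    · intro t ht
      rw [hext0 t ht]
      ring
    · intro i
      rw [hext i, hT1 i]
      have := fo_τ₂_pos m₀ (fo_lev P m₀ i)
      simp only [hc]
      field_simp
  have hFF : ∀ x, FF r m₀ M w x = (1 - gg r P x) -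
      ∑ i, ee r P i / hatf (T i).1 (P i) * hatf (T i).1 x := by
    intro x
    unfold FF
    rw [hF0, hF1, hF2]
    ring
  refine ⟨w, ?_, ?_, ?_⟩
  · intro j
    rw [hFF, gg_apply hR0, Finset.sum_eq_single j]
    · have := hTpos j
      field_simp
      ring
    · intro i _ hij
      rw [hT3 i j hij.symm, mul_zero]
    · simp
  · -- the integral
    have hint : ∀ {f : Tor 2 → ℝ}, Continuous f → Integrable f (unif 2) := by
      intro f hf
      obtain ⟨B, hB⟩ := IsCompact.exists_bound_of_continuousOn (isCompact_univ) hf.continuousOn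
      exact integrable_of_bdd hf.measurable (fun x => by simpa using hB x (Set.mem_univ x))
    have hcg := continuous_gg r P
    have hc1 : Continuous fun _ : Tor 2 => (1 : ℝ) := continuous_const
    have hch : ∀ t : ℕ × ℕ × ℕ × ℕ, Continuous (hatf t) := fun t => continuous_prod2_hat _ _ _
    have hcs : Continuous fun x => ∑ i, ee r P i / hatf (T i).1 (P i) * hatf (T i).1 x :=
      continuous_finsetSum _ fun i _ => continuous_const.mul (hch _)
    have h1 : integ (FF r m₀ M w) =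
        1 - ∑ i, ee r P i / hatf (T i).1 (P i) * ∫ x, hatf (T i).1 x ∂(unif 2) := by
      have hg0 := integ_gg r P
      unfold integ at hg0 ⊢
      have e1 : (fun x => FF r m₀ M w x) = fun x => (1 - gg r P x) -
          ∑ i, ee r P i / hatf (T i).1 (P i) * hatf (T i).1 x := funext hFF
      have hc1g : Continuous fun x : Tor 2 => (1 : ℝ) - gg r P x := hc1.sub hcg
      rw [e1, integral_sub (hint hc1g) (hint hcs), integral_sub (hint hc1) (hint hcg), hg0,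
        integral_finsetSum _ fun i _ => (hint (hch _)).const_mul _]
      simp only [integral_const_mul]
      simp
    rw [h1]
    have h2 : ∀ i, |ee r P i / hatf (T i).1 (P i) * ∫ x, hatf (T i).1 x ∂(unif 2)| ≤
        4 * |ee r P i| * (1 / 2 ^ m₀) := by
      intro i
      rw [abs_mul, abs_div, abs_of_pos (hTpos i)]
      have h3 : |∫ x, hatf (T i).1 x ∂(unif 2)| ≤ 1 / 2 ^ m₀ := by
        refine (abs_integral_prod2_le _ _ _).trans ?_
        apply one_div_le_one_div_of_le (by positivity)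
        apply pow_le_pow_right₀ (by norm_num)
        rw [hT1 i]
        exact (fo_lev_mem hM hm i).1
      have h4 : |ee r P i| / hatf (T i).1 (P i) ≤ 4 * |ee r P i| := by
        rw [div_le_iff₀ (hTpos i)]
        nlinarith [abs_nonneg (ee r P i), hT2 i]
      exact mul_le_mul h4 h3 (abs_nonneg _) (by positivity)
    have h3 : |∑ i, ee r P i / hatf (T i).1 (P i) * ∫ x, hatf (T i).1 x ∂(unif 2)| ≤
        4 * (1 / 2 ^ m₀) * ∑ i, |ee r P i| := by
      refine (Finset.abs_sum_le_sum_abs _ _).trans ((Finset.sum_le_sum fun i _ => h2 i).trans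
        (le_of_eq ?_))
      rw [Finset.mul_sum]
      refine Finset.sum_congr rfl fun i _ => ?_
      ring
    have h4 : (∑ i, |ee r P i|) ^ 2 ≤ (n / 4) ^ 2 := by
      have h4' : (∑ i, |ee r P i|) ^ 2 ≤ n * X3 r P := by
        have h4 := Finset.sum_mul_sq_le_sq_mul_sq Finset.univ (fun _ : Fin n => (1 : ℝ))
          (fun i => |ee r P i|)
        simp only [one_mul, one_pow, Finset.sum_const, Finset.card_univ, Fintype.card_fin,
          nsmul_eq_mul, mul_one, sq_abs] at h4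
        exact h4
      have h5 : (n : ℝ) / (Lam r).card ≤ 1 / 144 := by
        rw [div_le_div_iff₀ hR0' (by norm_num)]
        linarith
      calc (∑ i, |ee r P i|) ^ 2 ≤ n * X3 r P := h4'
        _ ≤ n * (9 * (n * (n / (Lam r).card))) := mul_le_mul_of_nonneg_left hX3 hn'.le
        _ ≤ n * (9 * (n * (1 / 144))) := by gcongr
        _ = (n / 4) ^ 2 := by ring
    have h5 : ∑ i, |ee r P i| ≤ n / 4 :=
      le_of_sq_le_sq h4 (by positivity)
    have h6 : 2 * (n : ℝ) ≤ 2 ^ m₀ := by exact_mod_cast hnm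
    have h7 : 4 * (1 / 2 ^ m₀) * ∑ i, |ee r P i| ≤ 1 / 2 := by
      have h8 : (0 : ℝ) < 2 ^ m₀ := by positivity
      rw [mul_one_div, div_mul_eq_mul_div, div_le_iff₀ h8]
      linarith
    have h8 := le_abs_self (∑ i, ee r P i / hatf (T i).1 (P i) * ∫ x, hatf (T i).1 x ∂(unif 2))
    linarith
  · -- the sum of squares
    rw [Fintype.sum_sum_type, Fintype.sum_sum_type, Fintype.sum_prod_type]
    have e0 : ∑ u : Unit, w (Sum.inl u) ^ 2 = 64 := by
      simp only [hw]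
      simp
      norm_num
    have e1 : ∑ h : ↥(Lam r), ∑ b : Bool, w (Sum.inr (Sum.inl (h, b))) ^ 2 =
        X1 r P / τ₁ r ^ 2 := by
      unfold X1
      rw [Finset.sum_div, ← Finset.sum_coe_sort (Lam r)]
      refine Finset.sum_congr rfl fun h _ => ?_
      rw [Fintype.sum_bool]
      simp only [hw]
      rw [Complex.sq_norm, Complex.normSq_apply]
      field_simp
      ring
    have e2 : ∑ t : ↥(TT m₀ M), w (Sum.inr (Sum.inr t)) ^ 2 = ∑ i, c i ^ 2 := by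
      symm
      apply Fintype.sum_of_injective T hTinj
      · intro t ht
        simp only [hw]
        rw [hext0 t ht]
        norm_num
      · intro i
        simp only [hw]
        rw [hext i]
    rw [e0, e1, e2]
    have e3 : ∑ i, c i ^ 2 ≤ 16 * Y2 r m₀ M P / τ₂ m₀ m₀ ^ 2 := by
      unfold Y2
      rw [Finset.mul_sum, Finset.sum_div]
      refine Finset.sum_le_sum fun i _ => ?_
      have h1 := fo_τ₂_sq (fo_lev_mem hM hm i).1
      have h2 := fo_lev_le_W2 hM hm i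
      have h3 := fo_τ₂_pos m₀ m₀
      have h4 : c i ^ 2 = (ee r P i / hatf (T i).1 (P i)) ^ 2 * (1 / τ₂ m₀ (fo_lev P m₀ i) ^ 2) := by
        simp only [hc]
        ring
      have h5 : (ee r P i / hatf (T i).1 (P i)) ^ 2 ≤ 16 * ee r P i ^ 2 := by
        rw [div_pow, div_le_iff₀ (by have := hTpos i; positivity)]
        have h6 : (1 / 4 : ℝ) ^ 2 ≤ hatf (T i).1 (P i) ^ 2 :=
          pow_le_pow_left₀ (by norm_num) (hT2 i) 2
        nlinarith [sq_nonneg (ee r P i)]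
      rw [h4, h1]
      calc (ee r P i / hatf (T i).1 (P i)) ^ 2 *
            (((2 : ℝ) ^ (fo_lev P m₀ i - m₀ : ℕ)) ^ (7 / 4 : ℝ) / τ₂ m₀ m₀ ^ 2)
          ≤ 16 * ee r P i ^ 2 * (W2 m₀ M P i / τ₂ m₀ m₀ ^ 2) := by
            apply mul_le_mul h5 _ (by positivity) (by positivity)
            gcongr
        _ = 16 * (ee r P i ^ 2 * W2 m₀ M P i) / τ₂ m₀ m₀ ^ 2 := by ring
    have e4 : X1 r P / τ₁ r ^ 2 ≤ 9 * (n / (Lam r).card) / τ₁ r ^ 2 := by gcongr
    have e5 : 16 * Y2 r m₀ M P / τ₂ m₀ m₀ ^ 2 ≤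
        144 * (n * (n / (Lam r).card + 5000 * (n / 2 ^ m₀) ^ 2)) / τ₂ m₀ m₀ ^ 2 := by
      have h3 := fo_τ₂_pos m₀ m₀
      have h4 : 16 * Y2 r m₀ M P ≤
          144 * (n * (n / (Lam r).card + 5000 * (n / 2 ^ m₀) ^ 2)) := by linarith [hY2]
      exact div_le_div_of_nonneg_right h4 (by positivity)
    linarith

end Pool.Agent.Helper6.MixRan
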