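import Pool.Agent.Helper59.MixInt.Fool
import Pool.Agent.Helper6.MixRan.Defs

/-!
# Choice of the parameters
-/

open MeasureTheory UnitAddTorus Filter Topology Set
open scoped ENNReal

noncomputable section

namespace Pool.Agent.Helper6.MixRan

open Pool.Agent.Helper59.MixInt

/-- the constant -/
def CK : ℝ := 64 + 18432 + 144 * 5002 * 8 * (5000 * CS k₀) ^ 2

theorem k₀_lt_one : k₀ < 1 := by
  unfold k₀
  norm_num

theorem CK_pos : 0 < CK := by
  have := CS_pos k₀_lt_one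
  unfold CK
  positivity

/-- the bound for the squared norm of the coefficients -/
def bnd (n r m₀ : ℕ) : ℝ :=
  64 + 9 * (n / (Lam r).card) / τ₁ r ^ 2 +
    144 * (n * (n / (Lam r).card + 5000 * (n / 2 ^ m₀) ^ 2)) / τ₂ m₀ m₀ ^ 2

theorem params {n : ℕ} (hn : 82944 ≤ Real.log n) :
    ∃ r m₀ M : ℕ, 0 < n ∧ m₀ ≤ M ∧ 2 * n ≤ 2 ^ m₀ ∧ 144 * n ≤ (Lam r).card ∧
      720 * n ^ 3 < 4 ^ M ∧
      bnd n r m₀ ≤ CK * ((n : ℝ) ^ (5 / 2 : ℝ) * (Real.log n) ^ (-(1 / 8) : ℝ)) := by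
  set L := Real.log n with hL
  have hL0 : 0 < L := by linarith
  have hL1 : 1 ≤ L := by linarith
  have hn0 : 0 < n := by
    rcases Nat.eq_zero_or_pos n with h | h
    · rw [h] at hL
      simp at hL
      linarith
    · exact h
  have hn' : (0 : ℝ) < n := by exact_mod_cast hn0
  have hLn : L ≤ n := (Real.log_le_sub_one_of_pos hn').trans (by linarith)
  have hn1 : (1 : ℝ) ≤ n := by linarith
  set s := Real.sqrt L with hs
  have hs0 : 0 < s := Real.sqrt_pos.2 hL0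
  have hss : s * s = L := Real.mul_self_sqrt hL0.le
  have hs288 : 288 ≤ s := by
    apply Real.le_sqrt_of_sq_le
    norm_num
    exact hn
  set r := ⌈(n : ℝ) / s⌉₊ with hr
  have hr1 : (n : ℝ) / s ≤ r := Nat.le_ceil _
  have hns1 : 1 ≤ (n : ℝ) / s := by
    rw [one_le_div hs0]
    nlinarith
  have hr2 : (r : ℝ) ≤ 2 * (n / s) := by
    have := (Nat.ceil_lt_add_one (by positivity : 0 ≤ (n : ℝ) / s)).le
    linarith
  have hr0 : (0 : ℝ) < r := by linarith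
  have hRlow : (n : ℝ) * s / 2 ≤ (Lam r).card := by
    refine le_trans ?_ (card_Lam_ge r)
    have h1 : Real.log ((n : ℝ) / s) ≤ Real.log ((r : ℝ) + 1) :=
      Real.log_le_log (by positivity) (by linarith)
    have h2 : Real.log ((n : ℝ) / s) = L - Real.log s := Real.log_div hn'.ne' hs0.ne'
    have h3 : Real.log s ≤ L / 4 := by
      have h4 := Real.log_le_sub_one_of_pos hs0
      nlinarith
    have h4 : L / 2 ≤ Real.log ((r : ℝ) + 1) - 1 := by linarith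
    calc (n : ℝ) * s / 2 = (n / s) * (L / 2) := by
          rw [← hss]
          field_simp
      _ ≤ r * (Real.log ((r : ℝ) + 1) - 1) := by
          apply mul_le_mul hr1 h4 (by positivity) hr0.le
  have hR144 : (144 : ℝ) * n ≤ (Lam r).card := by nlinarith
  have hR0 : (0 : ℝ) < (Lam r).card := by nlinarith
  have hρ : (n : ℝ) / (Lam r).card ≤ 2 / s := by
    rw [div_le_div_iff₀ hR0 hs0]
    linarith
  -- fourth root of `L`
  set q := Real.sqrt s with hq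
  have hq0 : 0 < q := Real.sqrt_pos.2 hs0
  have hqq : q * q = s := Real.mul_self_sqrt hs0.le
  have hq2 : 2 ≤ q := by
    apply Real.le_sqrt_of_sq_le
    norm_num
    linarith
  -- the level
  set x : ℝ := n * q with hx
  have hx1 : 1 ≤ x := by
    rw [hx]
    nlinarith
  set m₀ := Nat.clog 2 ⌈x⌉₊ with hm₀
  have hm1 : x ≤ 2 ^ m₀ := by
    have h1 : ⌈x⌉₊ ≤ 2 ^ m₀ := Nat.le_pow_clog (by norm_num) _
    exact (Nat.le_ceil x).trans (by exact_mod_cast h1)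
  have hc1 : 1 < ⌈x⌉₊ := by
    have h1 : (1 : ℝ) < ⌈x⌉₊ := by
      have := Nat.le_ceil x
      have : (2 : ℝ) ≤ x := by
        rw [hx]
        nlinarith
      linarith
    exact_mod_cast h1
  have hm2 : (2 : ℝ) ^ m₀ ≤ 4 * x := by
    have h1 : 2 ^ (m₀ - 1) < ⌈x⌉₊ := by
      have := Nat.pow_pred_clog_lt_self (b := 2) (by norm_num) hc1
      exact this
    have h2 : 0 < m₀ := Nat.clog_pos (by norm_num) hc1
    have h3 : (2 : ℝ) ^ m₀ = 2 * 2 ^ (m₀ - 1) := by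
      obtain ⟨m', hm'⟩ := Nat.exists_eq_succ_of_ne_zero h2.ne'
      rw [hm', Nat.succ_sub_one, pow_succ]
      ring
    have h4 : (2 : ℝ) ^ (m₀ - 1) ≤ ⌈x⌉₊ := by exact_mod_cast h1.le
    have h5 := (Nat.ceil_lt_add_one (by linarith : 0 ≤ x)).le
    rw [h3]
    linarith
  have h2n : 2 * n ≤ 2 ^ m₀ := by
    have : (2 : ℝ) * n ≤ 2 ^ m₀ := by
      refine le_trans ?_ hm1
      rw [hx]
      nlinarith
    exact_mod_cast this
  refine ⟨r, m₀, 2 * m₀ + 5, hn0, by omega, h2n, ?_, ?_, ?_⟩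
  · exact_mod_cast hR144
  · have h1 : (4 : ℕ) ^ (2 * m₀ + 5) = 1024 * (2 ^ m₀) ^ 4 := by
      have : (4 : ℕ) ^ (2 * m₀) = (2 ^ m₀) ^ 4 := by
        have h4 : (4 : ℕ) = 2 ^ 2 := by norm_num
        rw [h4, ← pow_mul, ← pow_mul]
        congr 1
        ring
      rw [pow_add, this]
      ring
    rw [h1]
    have h3 : (2 * n) ^ 4 ≤ (2 ^ m₀) ^ 4 := Nat.pow_le_pow_left h2n 4
    have h4 : n ^ 3 ≤ n ^ 4 := Nat.pow_le_pow_right hn0 (by norm_num)
    have h5 : 0 < n ^ 4 := by positivity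
    have h6 : (2 * n) ^ 4 = 16 * n ^ 4 := by ring
    omega
  · -- the estimate
    have hCS := CS_pos k₀_lt_one
    set T := (n : ℝ) ^ (5 / 2 : ℝ) * L ^ (-(1 / 8) : ℝ) with hT
    have hT0 : 0 < T := by positivity
    have hs_rpow : s = L ^ (1 / 2 : ℝ) := by rw [hs, Real.sqrt_eq_rpow]
    have hq_rpow : q = L ^ (1 / 4 : ℝ) := by
      rw [hq, Real.sqrt_eq_rpow, hs_rpow, ← Real.rpow_mul hL0.le]
      norm_num
    have hsinv : s⁻¹ = L ^ (-(1 / 2) : ℝ) := by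
      rw [hs_rpow, Real.rpow_neg hL0.le]
    have t1 : (1 : ℝ) ≤ T := by
      have h1 : L ^ (1 / 8 : ℝ) ≤ (n : ℝ) ^ (5 / 2 : ℝ) := by
        calc L ^ (1 / 8 : ℝ) ≤ L ^ (5 / 2 : ℝ) :=
              Real.rpow_le_rpow_of_exponent_le hL1 (by norm_num)
          _ ≤ (n : ℝ) ^ (5 / 2 : ℝ) := Real.rpow_le_rpow hL0.le hLn (by norm_num)
      rw [hT, Real.rpow_neg hL0.le, ← div_eq_mul_inv, one_le_div (by positivity)]
      exact h1
    -- term 2
    have t2 : 9 * ((n : ℝ) / (Lam r).card) / τ₁ r ^ 2 ≤ 18432 * T := by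
      have h0 : (0 : ℝ) < (4 * (r : ℝ) ^ 2) ^ k₀ := by positivity
      have hτ : 9 * ((n : ℝ) / (Lam r).card) / τ₁ r ^ 2 = 2304 * (n * (4 * (r : ℝ) ^ 2) ^ k₀) := by
        unfold τ₁
        rw [div_pow, one_pow, mul_pow, Real.sq_sqrt (by positivity)]
        field_simp
        norm_num
      rw [hτ]
      have h1 : 4 * (r : ℝ) ^ 2 ≤ 16 * ((n : ℝ) ^ 2 / L) := by
        have h2 : (r : ℝ) ^ 2 ≤ (2 * (n / s)) ^ 2 := pow_le_pow_left₀ hr0.le hr2 2
        have h3 : (2 * ((n : ℝ) / s)) ^ 2 = 4 * ((n : ℝ) ^ 2 / L) := by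
          rw [← hss]
          field_simp
          norm_num
        linarith
      have h2 : (4 * (r : ℝ) ^ 2) ^ k₀ ≤ 8 * ((n : ℝ) ^ (3 / 2 : ℝ) * L ^ (-(3 / 4) : ℝ)) := by
        calc (4 * (r : ℝ) ^ 2) ^ k₀ ≤ (16 * ((n : ℝ) ^ 2 / L)) ^ k₀ :=
              Real.rpow_le_rpow (by positivity) h1 (by norm_num)
          _ = 8 * ((n : ℝ) ^ (3 / 2 : ℝ) * L ^ (-(3 / 4) : ℝ)) := by
              rw [Real.mul_rpow (by norm_num) (by positivity),
                Real.div_rpow (by positivity) hL0.le, Real.rpow_neg hL0.le, ← Real.rpow_two,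
                ← Real.rpow_mul hn'.le]
              have e1 : (16 : ℝ) ^ k₀ = 8 := by
                have : (16 : ℝ) = 2 ^ (4 : ℝ) := by norm_num
                rw [this, ← Real.rpow_mul (by norm_num)]
                norm_num
              rw [e1, div_eq_mul_inv]
              norm_num
      have h3 : L ^ (-(3 / 4) : ℝ) ≤ L ^ (-(1 / 8) : ℝ) :=
        Real.rpow_le_rpow_of_exponent_le hL1 (by norm_num)
      have h4 : (n : ℝ) * (n : ℝ) ^ (3 / 2 : ℝ) = (n : ℝ) ^ (5 / 2 : ℝ) := by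
        nth_rewrite 1 [← Real.rpow_one (n : ℝ)]
        rw [← Real.rpow_add hn']
        norm_num
      calc 2304 * (n * (4 * (r : ℝ) ^ 2) ^ k₀)
          ≤ 2304 * (n * (8 * ((n : ℝ) ^ (3 / 2 : ℝ) * L ^ (-(3 / 4) : ℝ)))) := by gcongr
        _ = 18432 * ((n * (n : ℝ) ^ (3 / 2 : ℝ)) * L ^ (-(3 / 4) : ℝ)) := by ring
        _ ≤ 18432 * T := by
            rw [h4, hT]
            gcongr
    -- term 3
    have t3 : 144 * ((n : ℝ) * (n / (Lam r).card + 5000 * (n / 2 ^ m₀) ^ 2)) / τ₂ m₀ m₀ ^ 2 ≤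
        144 * 5002 * 8 * (5000 * CS k₀) ^ 2 * T := by
      have h2m : (0 : ℝ) < 2 ^ m₀ := by positivity
      have e1 : 1 / τ₂ m₀ m₀ ^ 2 = (5000 * CS k₀) ^ 2 * ((2 : ℝ) ^ m₀) ^ (3 / 2 : ℝ) := by
        unfold τ₂
        rw [Nat.sub_self, pow_zero, Real.one_rpow, mul_one, mul_pow, div_pow, one_pow,
          ← Real.rpow_two (((2 : ℝ) ^ m₀) ^ (-(3 / 4 : ℝ))), ← Real.rpow_mul h2m.le]
        have : (-(3 / 4 : ℝ)) * 2 = -(3 / 2 : ℝ) := by norm_num
        rw [this, Real.rpow_neg h2m.le]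
        field_simp
      have e2 : ((2 : ℝ) ^ m₀) ^ (3 / 2 : ℝ) ≤ 8 * ((n : ℝ) ^ (3 / 2 : ℝ) * L ^ (3 / 8 : ℝ)) := by
        calc ((2 : ℝ) ^ m₀) ^ (3 / 2 : ℝ) ≤ (4 * (n * q)) ^ (3 / 2 : ℝ) :=
              Real.rpow_le_rpow h2m.le hm2 (by norm_num)
          _ = 8 * ((n : ℝ) ^ (3 / 2 : ℝ) * L ^ (3 / 8 : ℝ)) := by
              rw [Real.mul_rpow (by norm_num) (by positivity),
                Real.mul_rpow hn'.le hq0.le, hq_rpow, ← Real.rpow_mul hL0.le]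
              have e1 : (4 : ℝ) ^ (3 / 2 : ℝ) = 8 := by
                have : (4 : ℝ) = 2 ^ (2 : ℝ) := by norm_num
                rw [this, ← Real.rpow_mul (by norm_num)]
                norm_num
              rw [e1]
              norm_num
      have e3 : (n : ℝ) / (Lam r).card + 5000 * (n / 2 ^ m₀) ^ 2 ≤ 5002 * L ^ (-(1 / 2) : ℝ) := by
        have h1 : (n : ℝ) / 2 ^ m₀ ≤ 1 / q := by
          rw [div_le_div_iff₀ h2m hq0]
          linarith
        have h2 : ((n : ℝ) / 2 ^ m₀) ^ 2 ≤ 1 / s := by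
          calc ((n : ℝ) / 2 ^ m₀) ^ 2 ≤ (1 / q) ^ 2 := pow_le_pow_left₀ (by positivity) h1 2
            _ = 1 / s := by
                rw [← hqq]
                field_simp
        rw [← hsinv]
        have h3 : (1 : ℝ) / s = s⁻¹ := one_div s
        have h4 : (2 : ℝ) / s = 2 * s⁻¹ := by rw [div_eq_mul_inv]
        rw [h3] at h2
        rw [h4] at hρ
        linarith
      have e4 : (n : ℝ) * (n : ℝ) ^ (3 / 2 : ℝ) = (n : ℝ) ^ (5 / 2 : ℝ) := by
        nth_rewrite 1 [← Real.rpow_one (n : ℝ)]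
        rw [← Real.rpow_add hn']
        norm_num
      have e5 : L ^ (-(1 / 2) : ℝ) * L ^ (3 / 8 : ℝ) = L ^ (-(1 / 8) : ℝ) := by
        rw [← Real.rpow_add hL0]
        norm_num
      calc 144 * ((n : ℝ) * (n / (Lam r).card + 5000 * (n / 2 ^ m₀) ^ 2)) / τ₂ m₀ m₀ ^ 2
          = 144 * ((n : ℝ) * (n / (Lam r).card + 5000 * (n / 2 ^ m₀) ^ 2)) *
              (1 / τ₂ m₀ m₀ ^ 2) := by ring
        _ ≤ 144 * ((n : ℝ) * (5002 * L ^ (-(1 / 2) : ℝ))) *
              ((5000 * CS k₀) ^ 2 * (8 * ((n : ℝ) ^ (3 / 2 : ℝ) * L ^ (3 / 8 : ℝ)))) := by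
            rw [e1]
            gcongr
        _ = 144 * 5002 * 8 * (5000 * CS k₀) ^ 2 *
              (((n : ℝ) * (n : ℝ) ^ (3 / 2 : ℝ)) * (L ^ (-(1 / 2) : ℝ) * L ^ (3 / 8 : ℝ))) := by ring
        _ = 144 * 5002 * 8 * (5000 * CS k₀) ^ 2 * T := by rw [e4, e5]
    unfold bnd
    calc 64 + 9 * ((n : ℝ) / (Lam r).card) / τ₁ r ^ 2 +
        144 * ((n : ℝ) * (n / (Lam r).card + 5000 * (n / 2 ^ m₀) ^ 2)) / τ₂ m₀ m₀ ^ 2
        ≤ 64 * T + 18432 * T + 144 * 5002 * 8 * (5000 * CS k₀) ^ 2 * T := by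
          linarith
      _ = CK * T := by
          unfold CK
          ring

end Pool.Agent.Helper6.MixRan
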