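import Pool.Agent.Helper6.MixRan.Assemble
import Pool.Agent.Helper6.MixRan.Params
import Pool.Agent.Helper6.MixRan.Fool2

/-!
# Lower bound for independent uniformly distributed points
-/

open MeasureTheory UnitAddTorus Filter Topology Set
open scoped ENNReal

noncomputable section

namespace Pool.Agent.Helper6.MixRan

open Pool.Agent.Helper59.MixInt

theorem eRanIID_ge {n : ℕ} (hn : 82944 ≤ Real.log n) :
    ENNReal.ofReal (1 / (64 * Real.sqrt (6 * CK)) *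
      ((n : ℝ) ^ (-(5 / 4) : ℝ) * (Real.log n) ^ (1 / 16 : ℝ))) ≤ eRanIID 2 k₀ n := by
  obtain ⟨r, m₀, M, hn0, hmM, h2n, hR, hM, hb⟩ := params hn
  have hn' : (0 : ℝ) < n := by exact_mod_cast hn0
  have hL0 : 0 < Real.log n := by linarith
  set L := Real.log n with hL
  have hCK := CK_pos
  set K := CK * ((n : ℝ) ^ (5 / 2 : ℝ) * L ^ (-(1 / 8) : ℝ)) with hK
  have hK0 : 0 < K := by positivity
  obtain ⟨G, hGm, hG, hG2⟩ := exists_good2 (n := n) (r := r) hn0 (by omega) m₀ M hM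
  have key := eRanIID_ge_of (r := r) (m₀ := m₀) (M := M) hK0 G hGm hG2 ?_
  · refine le_trans (ENNReal.ofReal_le_ofReal (le_of_eq ?_)) key
    have h1 : Real.sqrt (6 * K) =
        Real.sqrt (6 * CK) * ((n : ℝ) ^ (5 / 4 : ℝ) * L ^ (-(1 / 16) : ℝ)) := by
      have e0 : 6 * K = 6 * CK * ((n : ℝ) ^ (5 / 2 : ℝ) * L ^ (-(1 / 8) : ℝ)) := by
        rw [hK]
        ring
      rw [e0, Real.sqrt_mul (by positivity)]
      congr 1
      rw [Real.sqrt_eq_iff_mul_self_eq (by positivity) (by positivity)]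
      have e1 : (n : ℝ) ^ (5 / 2 : ℝ) = (n : ℝ) ^ (5 / 4 : ℝ) * (n : ℝ) ^ (5 / 4 : ℝ) := by
        rw [← Real.rpow_add hn']
        norm_num
      have e2 : L ^ (-(1 / 8) : ℝ) = L ^ (-(1 / 16) : ℝ) * L ^ (-(1 / 16) : ℝ) := by
        rw [← Real.rpow_add hL0]
        norm_num
      rw [e1, e2]
      ring
    rw [h1, Real.rpow_neg hn'.le, Real.rpow_neg hL0.le]
    have : 0 < (n : ℝ) ^ (5 / 4 : ℝ) := by positivity
    have : 0 < L ^ (1 / 16 : ℝ) := by positivity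
    have : 0 < Real.sqrt (6 * CK) := Real.sqrt_pos.2 (by positivity)
    field_simp
  · intro P hP
    obtain ⟨w, hw0, hwi, hwK⟩ := fool2 hn0 hmM h2n hR (hG hP)
    exact ⟨w, hw0, hwi, hwK.trans hb⟩

theorem lower : ∃ c : ℝ, 0 < c ∧ ∀ᶠ n : ℕ in atTop,
    ENNReal.ofReal (c * ((n : ℝ) ^ (-(5 / 4) : ℝ) * (Real.log n) ^ (1 / 16 : ℝ))) ≤
      eRanIID 2 k₀ n := by
  have hCK := CK_pos
  refine ⟨1 / (64 * Real.sqrt (6 * CK)), by positivity, ?_⟩
  have hbig : ∀ᶠ n : ℕ in atTop, 82944 ≤ Real.log n :=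
    (Real.tendsto_log_atTop.comp tendsto_natCast_atTop_atTop).eventually_ge_atTop _
  filter_upwards [hbig] with n hn
  exact eRanIID_ge hn

end Pool.Agent.Helper6.MixRan
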