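import Pool.Agent.Helper6.MixRan.Defs

/-!
# The prior: shift inequality
-/

open MeasureTheory
open scoped ENNReal

noncomputable section

namespace Pool.Agent.Helper6.MixRan

variable {J : Type*} [Fintype J]

theorem pr_tent_nonneg' (x : ℝ) : 0 ≤ tent x := by
  unfold tent
  exact mul_nonneg (Real.sqrt_nonneg _) (le_max_left _ _)

theorem pr_continuous_tent : Continuous tent := by
  unfold tent
  fun_prop

theorem pr_measurable_tent : Measurable tent := pr_continuous_tent.measurable

theorem pr_tent_eq_zero' {x : ℝ} (h : 1 ≤ |x|) : tent x = 0 := by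
  unfold tent
  rw [max_eq_left (by linarith), mul_zero]

theorem pr_sq_sqrt_three : Real.sqrt (3 / 2) ^ 2 = 3 / 2 := Real.sq_sqrt (by norm_num)

theorem pr_tent_diff_sq (x w : ℝ) : (tent (x + w) - tent x) ^ 2 ≤ 3 / 2 * w ^ 2 := by
  unfold tent
  have h1 : |max 0 (1 - |x + w|) - max 0 (1 - |x|)| ≤ |w| := by
    calc |max 0 (1 - |x + w|) - max 0 (1 - |x|)| ≤ max |(0 : ℝ) - 0| |1 - |x + w| - (1 - |x|)| :=
          abs_max_sub_max_le_max _ _ _ _
      _ = |1 - |x + w| - (1 - |x|)| := by
          rw [sub_zero, abs_zero, max_eq_right (abs_nonneg _)]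
      _ = |(|x + w| - |x|)| := by
          rw [show 1 - |x + w| - (1 - |x|) = -(|x + w| - |x|) by ring, abs_neg]
      _ ≤ |x + w - x| := abs_abs_sub_abs_le_abs_sub _ _
      _ = |w| := by rw [add_sub_cancel_left]
  have h2 : (max 0 (1 - |x + w|) - max 0 (1 - |x|)) ^ 2 ≤ w ^ 2 := by
    rw [← sq_abs, ← sq_abs w]
    exact pow_le_pow_left₀ (abs_nonneg _) h1 2
  calc (Real.sqrt (3 / 2) * max 0 (1 - |x + w|) - Real.sqrt (3 / 2) * max 0 (1 - |x|)) ^ 2
      = Real.sqrt (3 / 2) ^ 2 * (max 0 (1 - |x + w|) - max 0 (1 - |x|)) ^ 2 := by ring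
    _ = 3 / 2 * (max 0 (1 - |x + w|) - max 0 (1 - |x|)) ^ 2 := by rw [pr_sq_sqrt_three]
    _ ≤ 3 / 2 * w ^ 2 := by linarith

theorem pr_hasCompactSupport_tent : HasCompactSupport tent := by
  apply HasCompactSupport.of_support_subset_isCompact (isCompact_Icc (a := (-1 : ℝ)) (b := 1))
  intro x hx
  by_contra hcon
  apply hx
  apply pr_tent_eq_zero'
  rw [Set.mem_Icc, not_and_or, not_le, not_le] at hcon
  rcases hcon with h | h
  · exact le_trans (by linarith) (neg_le_abs x)
  · exact le_trans h.le (le_abs_self x)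

theorem pr_integrable_tent_mul (w : ℝ) : Integrable (fun x => tent x * tent (x + w)) := by
  apply Continuous.integrable_of_hasCompactSupport
  · exact pr_continuous_tent.mul (pr_continuous_tent.comp (continuous_id.add continuous_const))
  · exact pr_hasCompactSupport_tent.mul_right

theorem pr_integrable_tent_sq : Integrable (fun x => tent x ^ 2) := by
  have h := pr_integrable_tent_mul 0
  refine h.congr (Filter.Eventually.of_forall fun x => ?_)
  simp only
  rw [add_zero, sq]

theorem pr_integral_tent_sq : ∫ x, tent x ^ 2 = 1 := by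
  have h1 : (fun x : ℝ => tent x ^ 2) = fun x => (fun y => 3 / 2 * max 0 (1 - y) ^ 2) |x| := by
    funext x
    unfold tent
    rw [mul_pow, pr_sq_sqrt_three]
  rw [h1, integral_comp_abs (f := fun y => 3 / 2 * max 0 (1 - y) ^ 2)]
  have h2 : ∫ x in Set.Ioi (0 : ℝ), 3 / 2 * max 0 (1 - x) ^ 2 =
      ∫ x in Set.Ioc (0 : ℝ) 1, 3 / 2 * max 0 (1 - x) ^ 2 := by
    apply setIntegral_eq_of_subset_of_forall_sdiff_eq_zero measurableSet_Ioi Set.Ioc_subset_Ioi_self
    intro x hx
    have h3 : 1 < x := by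
      by_contra hcon
      exact hx.2 ⟨hx.1, not_lt.1 hcon⟩
    rw [max_eq_left (by linarith)]
    norm_num
  rw [h2, ← intervalIntegral.integral_of_le zero_le_one]
  have h4 : ∫ x in (0 : ℝ)..1, 3 / 2 * max 0 (1 - x) ^ 2 = ∫ x in (0 : ℝ)..1, 3 / 2 * (1 - x) ^ 2 := by
    apply intervalIntegral.integral_congr
    intro x hx
    rw [Set.uIcc_of_le zero_le_one] at hx
    simp only
    rw [max_eq_right (by linarith [hx.2])]
  rw [h4, intervalIntegral.integral_const_mul,
    intervalIntegral.integral_comp_sub_left (fun x => x ^ 2) (1 : ℝ), integral_pow]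
  norm_num

theorem pr_integral_tent_mul {w : ℝ} (hw : w ^ 2 ≤ 1) :
    1 - 3 * w ^ 2 ≤ ∫ x, tent x * tent (x + w) := by
  have hw1 : |w| ≤ 1 := (sq_le_one_iff_abs_le_one w).1 hw
  have e1 : ∀ x, tent x * tent (x + w) =
      (1 / 2 * tent x ^ 2 + 1 / 2 * tent (x + w) ^ 2) - 1 / 2 * (tent (x + w) - tent x) ^ 2 := by
    intro x; ring
  have i1 := pr_integrable_tent_sq
  have i2 : Integrable (fun x => tent (x + w) ^ 2) := i1.comp_add_right w
  have i3 : Integrable (fun x => (tent (x + w) - tent x) ^ 2) := by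
    have : (fun x => (tent (x + w) - tent x) ^ 2) =
        fun x => tent (x + w) ^ 2 + tent x ^ 2 - 2 * (tent x * tent (x + w)) := by
      funext x; ring
    rw [this]
    exact (i2.add i1).sub ((pr_integrable_tent_mul w).const_mul 2)
  have e2 : ∫ x, tent (x + w) ^ 2 = 1 := by
    rw [integral_add_right_eq_self (fun x => tent x ^ 2) w, pr_integral_tent_sq]
  have e3 : ∫ x, tent x * tent (x + w) = 1 - 1 / 2 * ∫ x, (tent (x + w) - tent x) ^ 2 := by
    simp_rw [e1]
    have i12 : Integrable (fun x => 1 / 2 * tent x ^ 2 + 1 / 2 * tent (x + w) ^ 2) :=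
      (i1.const_mul _).add (i2.const_mul _)
    rw [integral_sub i12 (i3.const_mul _),
      integral_add (i1.const_mul _) (i2.const_mul _), integral_const_mul, integral_const_mul,
      integral_const_mul, e2, pr_integral_tent_sq]
    norm_num
  have e4 : ∫ x, (tent (x + w) - tent x) ^ 2 ≤ 6 * w ^ 2 := by
    have h1 : ∫ x, (tent (x + w) - tent x) ^ 2 = ∫ x in Set.Icc (-2 : ℝ) 2, (tent (x + w) - tent x) ^ 2 := by
      symm
      apply setIntegral_eq_integral_of_forall_compl_eq_zero
      intro x hx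
      have hx2 : 2 < |x| := by
        by_contra hcon
        exact hx (abs_le.1 (not_lt.1 hcon))
      have h2 : tent x = 0 := pr_tent_eq_zero' (by linarith)
      have h3 : tent (x + w) = 0 := by
        apply pr_tent_eq_zero'
        have := abs_sub_abs_le_abs_sub x (-w)
        rw [abs_neg, sub_neg_eq_add] at this
        linarith
      rw [h2, h3]
      norm_num
    rw [h1]
    calc ∫ x in Set.Icc (-2 : ℝ) 2, (tent (x + w) - tent x) ^ 2
        ≤ ∫ _x in Set.Icc (-2 : ℝ) 2, 3 / 2 * w ^ 2 := by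
          apply setIntegral_mono_on i3.integrableOn
          · exact integrableOn_const (by simp) 
          · exact measurableSet_Icc
          · intro x _
            exact pr_tent_diff_sq x w
      _ = 6 * w ^ 2 := by
          rw [setIntegral_const]
          simp [Measure.real]
          ring
  rw [e3]
  linarith

theorem measurable_dens : Measurable (dens : (J → ℝ) → ℝ) := by
  unfold dens
  apply Finset.measurable_prod
  intro j _
  exact (pr_measurable_tent.comp (measurable_pi_apply j)).pow_const 2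

theorem dens_nonneg (g : J → ℝ) : 0 ≤ dens g := by
  unfold dens
  exact Finset.prod_nonneg fun j _ => sq_nonneg _

theorem dens_eq_zero {g : J → ℝ} {j : J} (h : 1 ≤ |g j|) : dens g = 0 := by
  unfold dens
  apply Finset.prod_eq_zero (Finset.mem_univ j)
  rw [pr_tent_eq_zero' h]
  norm_num

theorem pr_integrable_dens : Integrable (dens : (J → ℝ) → ℝ) := by
  unfold dens
  exact Integrable.fintype_prod (f := fun _ x => tent x ^ 2) fun _ => pr_integrable_tent_sq

theorem pr_integral_dens : ∫ g : J → ℝ, dens g = 1 := by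
  unfold dens
  rw [integral_fintype_prod_volume_eq_prod (fun (_ : J) x => tent x ^ 2)]
  simp [pr_integral_tent_sq]

theorem lintegral_dens : ∫⁻ g : J → ℝ, ENNReal.ofReal (dens g) = 1 := by
  rw [← ofReal_integral_eq_lintegral_ofReal pr_integrable_dens
    (Filter.Eventually.of_forall fun g => dens_nonneg g), pr_integral_dens, ENNReal.ofReal_one]

omit [Fintype J] in
theorem pr_one_sub_sum_le_prod (s : Finset J) (x : J → ℝ) (h0 : ∀ j ∈ s, 0 ≤ x j)
    (h1 : ∀ j ∈ s, x j ≤ 1) : 1 - ∑ j ∈ s, x j ≤ ∏ j ∈ s, (1 - x j) := by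
  classical
  induction s using Finset.induction_on with
  | empty => simp
  | insert a s ha ih =>
    rw [Finset.sum_insert ha, Finset.prod_insert ha]
    have ih' := ih (fun j hj => h0 j (Finset.mem_insert_of_mem hj))
      (fun j hj => h1 j (Finset.mem_insert_of_mem hj))
    have ha0 := h0 a (Finset.mem_insert_self _ _)
    have ha1 := h1 a (Finset.mem_insert_self _ _)
    have hs : 0 ≤ ∑ j ∈ s, x j := Finset.sum_nonneg fun j hj => h0 j (Finset.mem_insert_of_mem hj)
    calc 1 - (x a + ∑ j ∈ s, x j) ≤ (1 - x a) * (1 - ∑ j ∈ s, x j) := by nlinarith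
      _ ≤ (1 - x a) * ∏ j ∈ s, (1 - x j) := mul_le_mul_of_nonneg_left ih' (by linarith)

theorem pr_integral_affinity (w : J → ℝ) (hw : ∑ j, w j ^ 2 ≤ 1 / 6) :
    1 / 2 ≤ ∫ g : J → ℝ, ∏ j, (tent (g j) * tent (g j + w j)) := by
  rw [integral_fintype_prod_volume_eq_prod (fun (j : J) x => tent x * tent (x + w j))]
  have hj : ∀ j, w j ^ 2 ≤ 1 / 6 := fun j =>
    le_trans (Finset.single_le_sum (f := fun j => w j ^ 2) (fun _ _ => sq_nonneg _) (Finset.mem_univ j)) hw
  calc (1 : ℝ) / 2 ≤ 1 - ∑ j, 3 * w j ^ 2 := by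
        rw [← Finset.mul_sum]; linarith
    _ ≤ ∏ j, (1 - 3 * w j ^ 2) := pr_one_sub_sum_le_prod _ _ (fun j _ => by positivity)
        (fun j _ => by linarith [hj j])
    _ ≤ ∏ j, ∫ x, tent x * tent (x + w j) := by
        apply Finset.prod_le_prod
        · intro j _
          linarith [hj j]
        · intro j _
          exact pr_integral_tent_mul (by linarith [hj j])

theorem pr_prod_le_min (a b : ℝ) :
    a * b ≤ 2 * min (a ^ 2) (b ^ 2) + (a ^ 2 + b ^ 2) / 8 := by
  rcases le_total (a ^ 2) (b ^ 2) with h | h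
  · rw [min_eq_left h]
    nlinarith [sq_nonneg (4 * a - b), sq_nonneg a]
  · rw [min_eq_right h]
    nlinarith [sq_nonneg (4 * b - a), sq_nonneg b]

theorem pr_integral_min (w : J → ℝ) (hw : ∑ j, w j ^ 2 ≤ 1 / 6) :
    1 / 8 ≤ ∫ g : J → ℝ, min (dens g) (dens (g + w)) := by
  have i1 : Integrable (dens : (J → ℝ) → ℝ) := pr_integrable_dens
  have i2 : Integrable (fun g : J → ℝ => dens (g + w)) := i1.comp_add_right w
  have i3 : Integrable (fun g : J → ℝ => min (dens g) (dens (g + w))) := i1.inf i2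
  have e2 : ∫ g : J → ℝ, dens (g + w) = 1 := by
    rw [integral_add_right_eq_self (fun g : J → ℝ => dens g) w, pr_integral_dens]
  have h1 := pr_integral_affinity w hw
  have h2 : ∫ g : J → ℝ, ∏ j, (tent (g j) * tent (g j + w j)) ≤
      ∫ g : J → ℝ, (2 * min (dens g) (dens (g + w)) + (dens g + dens (g + w)) / 8) := by
    apply integral_mono
    · exact Integrable.fintype_prod (f := fun j x => tent x * tent (x + w j))
        fun j => pr_integrable_tent_mul (w j)
    · exact (i3.const_mul 2).add ((i1.add i2).div_const 8)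
    · intro g
      have h3 := pr_prod_le_min (∏ j, tent (g j)) (∏ j, tent (g j + w j))
      rw [← Finset.prod_mul_distrib, ← Finset.prod_pow, ← Finset.prod_pow] at h3
      exact h3
  have i12 : Integrable (fun g : J → ℝ => (dens g + dens (g + w)) / 8) := (i1.add i2).div_const 8
  rw [integral_add (i3.const_mul 2) i12, integral_const_mul,
    integral_div, integral_add i1 i2, pr_integral_dens, e2] at h2
  linarith

/-- Shift inequality: (1) affinity `∫ √(p p_w) = ∏ ∫ tent(x) tent(x + w_j) ≥ ∏ (1 - 3 w_j²) ≥ 1/2`,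
(2) `√(p q) ≤ 2 min(p, q) + (p + q) / 8`,
(3) `G(g) p(g) + G(g+w) p(g+w) ≥ D min(p(g), p(g+w))`, integrate. -/
theorem prior_bound {G : (J → ℝ) → ℝ≥0∞} (hG : Measurable G) (w : J → ℝ)
    (hw : ∑ j, w j ^ 2 ≤ 1 / 6) {D : ℝ≥0∞} (hD : ∀ g, D ≤ G g + G (g + w)) :
    D / 16 ≤ ∫⁻ g, G g * ENNReal.ofReal (dens g) := by
  have i1 : Integrable (dens : (J → ℝ) → ℝ) := pr_integrable_dens
  have i2 : Integrable (fun g : J → ℝ => dens (g + w)) := i1.comp_add_right w
  have i3 : Integrable (fun g : J → ℝ => min (dens g) (dens (g + w))) := i1.inf i2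
  have hmin := pr_integral_min w hw
  have h1 : ENNReal.ofReal (1 / 8) ≤ ∫⁻ g : J → ℝ, ENNReal.ofReal (min (dens g) (dens (g + w))) := by
    rw [← ofReal_integral_eq_lintegral_ofReal i3
      (Filter.Eventually.of_forall fun g => le_min (dens_nonneg g) (dens_nonneg _))]
    exact ENNReal.ofReal_le_ofReal hmin
  have hm : Measurable fun g : J → ℝ => G g * ENNReal.ofReal (dens g) :=
    hG.mul measurable_dens.ennreal_ofReal
  have h2 : ∫⁻ g, G (g + w) * ENNReal.ofReal (dens (g + w)) = ∫⁻ g, G g * ENNReal.ofReal (dens g) :=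
    lintegral_add_right_eq_self (fun g => G g * ENNReal.ofReal (dens g)) w
  have h3 : D * ∫⁻ g : J → ℝ, ENNReal.ofReal (min (dens g) (dens (g + w))) ≤
      2 * ∫⁻ g, G g * ENNReal.ofReal (dens g) := by
    rw [two_mul]
    nth_rewrite 2 [← h2]
    have hmm : Measurable fun g : J → ℝ => ENNReal.ofReal (min (dens g) (dens (g + w))) :=
      (measurable_dens.min (measurable_dens.comp (measurable_add_const w))).ennreal_ofReal
    rw [← lintegral_add_left hm, ← lintegral_const_mul _ hmm]
    apply lintegral_mono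
    intro g
    calc D * ENNReal.ofReal (min (dens g) (dens (g + w)))
        ≤ (G g + G (g + w)) * ENNReal.ofReal (min (dens g) (dens (g + w))) := by gcongr; exact hD g
      _ = G g * ENNReal.ofReal (min (dens g) (dens (g + w))) +
          G (g + w) * ENNReal.ofReal (min (dens g) (dens (g + w))) := add_mul _ _ _
      _ ≤ G g * ENNReal.ofReal (dens g) + G (g + w) * ENNReal.ofReal (dens (g + w)) := by
          gcongr
          · exact min_le_left _ _
          · exact min_le_right _ _
  have h4 : D * ENNReal.ofReal (1 / 8) ≤ 2 * ∫⁻ g, G g * ENNReal.ofReal (dens g) :=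
    le_trans (by gcongr) h3
  have h5 : D / 16 = D * ENNReal.ofReal (1 / 8) / 2 := by
    rw [show (1 / 8 : ℝ) = (8 : ℝ)⁻¹ by norm_num, ENNReal.ofReal_inv_of_pos (by norm_num),
      div_eq_mul_inv, div_eq_mul_inv, mul_assoc]
    congr 1
    rw [show ENNReal.ofReal 8 = 8 by norm_num, ← ENNReal.mul_inv (by simp) (by simp)]
    norm_num
  rw [h5]
  apply ENNReal.div_le_of_le_mul'
  exact h4

end Pool.Agent.Helper6.MixRan
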