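import Pool.Agent.Helper6.MixRan.Digits

open MeasureTheory UnitAddTorus Filter Topology Set
open scoped ENNReal

noncomputable section

namespace Pool.Agent.Helper6.MixRan

open Pool.Agent.Helper59.MixInt

/-- Fourier coefficients of a translate. -/
theorem mFourierCoeff_translate2 {d : ℕ} (f : Tor d → ℂ) (z : Tor d) (h : Fin d → ℤ) :
    mFourierCoeff (fun x => f (x + z)) h = mFourier h z * mFourierCoeff f h := by
  rw [mFourierCoeff_eq, mFourierCoeff_eq]
  have h1 := integral_add_right_eq_self (μ := unif d) (fun x => mFourier (-h) (x - z) * f x) z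
  have h2 : ∀ x : Tor d, mFourier (-h) (x + z - z) * f (x + z) = mFourier (-h) x * f (x + z) := by
    intro x
    rw [add_sub_cancel_right]
  simp only [h2] at h1
  rw [h1]
  have h3 : ∀ x : Tor d, mFourier (-h) (x - z) * f x = mFourier h z * (mFourier (-h) x * f x) := by
    intro x
    rw [mFourier_sub_apply, neg_neg]
    ring
  simp only [h3]
  rw [integral_const_mul]

/-- A continuous function on the torus is bounded. -/
theorem exists_bdd {d : ℕ} {f : Tor d → ℝ} (hf : Continuous f) : ∃ B : ℝ, ∀ x, |f x| ≤ B := by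
  obtain ⟨B, hB⟩ := isCompact_univ.exists_bound_of_continuousOn (f := f) hf.continuousOn
  exact ⟨B, fun x => by simpa using hB x (mem_univ x)⟩

/-- the error of the shifted rule -/
def errS {N : ℕ} (f : Tor 2 → ℝ) (z : Fin N → Tor 2) (x : Tor 2) : ℝ :=
  integ f - (∑ i, f (x + z i)) / N

theorem continuous_errS {N : ℕ} {f : Tor 2 → ℝ} (hf : Continuous f) (z : Fin N → Tor 2) :
    Continuous (errS f z) := by
  unfold errS
  refine continuous_const.sub (Continuous.div_const ?_ _)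
  exact continuous_finsetSum _ fun i _ => hf.comp (continuous_id.add continuous_const)

/-- Fourier coefficients of the error of the shifted rule -/
theorem coeff_errS {N : ℕ} (hN : 0 < N) {f : Tor 2 → ℝ} (hf : Continuous f) (z : Fin N → Tor 2)
    (h : Fin 2 → ℤ) :
    mFourierCoeff (fun x => (errS f z x : ℂ)) h =
      if h = 0 then 0 else
        -(mFourierCoeff (fun x => (f x : ℂ)) h * ((∑ i, mFourier h (z i)) / N)) := by
  have hN' : (N : ℂ) ≠ 0 := by exact_mod_cast hN.ne'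
  have hcf : Continuous fun x => (f x : ℂ) := Complex.continuous_ofReal.comp hf
  obtain ⟨B, hB⟩ := exists_bdd hf
  have hint : ∀ i, Integrable (fun x => mFourier (-h) x * (f (x + z i) : ℂ)) (unif 2) := by
    intro i
    refine integrable_of_bdd_complex (B := B) ?_ ?_
    · exact ((mFourier (-h)).continuous.mul
        (hcf.comp (continuous_id.add continuous_const))).measurable
    · intro x
      rw [norm_mul, norm_mFourier_apply, one_mul, Complex.norm_real]
      exact hB _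
  have hint0 : Integrable (fun x => mFourier (-h) x * (integ f : ℂ)) (unif 2) := by
    refine integrable_of_bdd_complex (B := |integ f|) ?_ ?_
    · exact ((mFourier (-h)).continuous.mul continuous_const).measurable
    · intro x
      rw [norm_mul, norm_mFourier_apply, one_mul, Complex.norm_real]
      exact le_rfl
  have e1 : mFourierCoeff (fun x => (errS f z x : ℂ)) h =
      (integ f : ℂ) * (if h = 0 then 1 else 0) -
        mFourierCoeff (fun x => (f x : ℂ)) h * ((∑ i, mFourier h (z i)) / N) := by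
    rw [mFourierCoeff_eq]
    have h1 : ∀ x : Tor 2, mFourier (-h) x * (errS f z x : ℂ) =
        mFourier (-h) x * (integ f : ℂ) -
          (∑ i, mFourier (-h) x * (f (x + z i) : ℂ)) / N := by
      intro x
      unfold errS
      push_cast
      rw [mul_sub, ← Finset.mul_sum, mul_div_assoc]
    simp only [h1]
    rw [integral_sub hint0 ((integrable_finsetSum _ fun i _ => hint i).div_const _),
      integral_div, integral_finsetSum _ fun i _ => hint i, integral_mul_const,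
      integral_mFourier]
    have h2 : ∀ i, ∫ x, mFourier (-h) x * (f (x + z i) : ℂ) ∂(unif 2) =
        mFourier h (z i) * mFourierCoeff (fun x => (f x : ℂ)) h := by
      intro i
      rw [← mFourierCoeff_translate2, mFourierCoeff_eq]
    simp only [h2]
    rw [← Finset.sum_mul]
    simp only [neg_eq_zero]
    ring
  rw [e1]
  split_ifs with h0
  · subst h0
    have h2 : mFourierCoeff (fun x => (f x : ℂ)) 0 = (integ f : ℂ) := by
      rw [mFourierCoeff_eq]
      unfold integ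
      refine Eq.trans ?_ (integral_ofReal (𝕜 := ℂ) (f := f) (μ := unif 2))
      refine integral_congr_ae (Eventually.of_forall fun x => ?_)
      simp only [neg_zero, mFourier_zero_left, one_mul]
      rfl
    rw [h2]
    simp only [mFourier_zero_left, Finset.sum_const, Finset.card_univ, Fintype.card_fin,
      nsmul_eq_mul, mul_one]
    rw [div_self hN']
    ring
  · ring

/-- second moment of the error, summed over the finite randomisation -/
theorem second_moment {N : ℕ} (hN : 0 < N) {Θ : Type} [Fintype Θ] [Nonempty Θ]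
    (Z : Θ → Fin N → Tor 2) {a : ℝ} (ha : 0 ≤ a)
    (hZ : ∀ h : Fin 2 → ℤ, h ≠ 0 → (∑ θ, ‖∑ i, mFourier h (Z θ i)‖ ^ 2) / (Fintype.card Θ : ℝ) ≤
      a * ∏ j, (1 + (h j : ℝ) ^ 2) ^ k₀)
    {f : Tor 2 → ℝ} (hf : f ∈ mixBall 2 k₀) :
    ∑ θ, ENNReal.ofReal (∫ x, errS f (Z θ) x ^ 2 ∂(unif 2)) ≤
      (Fintype.card Θ : ℝ≥0∞) * ENNReal.ofReal (a / (N : ℝ) ^ 2) := by
  have hN' : (0 : ℝ) < N := by exact_mod_cast hN
  have hc : (0 : ℝ) < Fintype.card Θ := by exact_mod_cast Fintype.card_pos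
  have h1 : ∀ θ, ENNReal.ofReal (∫ x, errS f (Z θ) x ^ 2 ∂(unif 2)) =
      ∑' h, ENNReal.ofReal (‖mFourierCoeff (fun x => (errS f (Z θ) x : ℂ)) h‖ ^ 2) := by
    intro θ
    obtain ⟨B, hB⟩ := exists_bdd (continuous_errS hf.1 (Z θ))
    exact (tsum_sq_coeff (continuous_errS hf.1 (Z θ)).measurable hB).symm
  simp only [h1]
  rw [← Summable.tsum_finsetSum (fun θ _ => ENNReal.summable)]
  have h2 : ∀ h : Fin 2 → ℤ,
      ∑ θ, ENNReal.ofReal (‖mFourierCoeff (fun x => (errS f (Z θ) x : ℂ)) h‖ ^ 2) ≤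
        ((Fintype.card Θ : ℝ≥0∞) * ENNReal.ofReal (a / (N : ℝ) ^ 2)) * ENNReal.ofReal
          (‖mFourierCoeff (fun x => (f x : ℂ)) h‖ ^ 2 * ∏ j, (1 + (h j : ℝ) ^ 2) ^ k₀) := by
    intro h
    rcases eq_or_ne h 0 with h0 | h0
    · subst h0
      have : ∀ θ, mFourierCoeff (fun x => (errS f (Z θ) x : ℂ)) 0 = 0 := by
        intro θ
        rw [coeff_errS hN hf.1, if_pos rfl]
      simp only [this]
      simp
    · have e1 : ∀ θ, ‖mFourierCoeff (fun x => (errS f (Z θ) x : ℂ)) h‖ ^ 2 =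
          ‖mFourierCoeff (fun x => (f x : ℂ)) h‖ ^ 2 / (N : ℝ) ^ 2 *
            ‖∑ i, mFourier h (Z θ i)‖ ^ 2 := by
        intro θ
        rw [coeff_errS hN hf.1, if_neg h0, norm_neg, norm_mul, norm_div, Complex.norm_natCast]
        ring
      simp only [e1]
      rw [← ENNReal.ofReal_sum_of_nonneg (fun θ _ => by positivity), ← Finset.mul_sum,
        ← ENNReal.ofReal_natCast, ← ENNReal.ofReal_mul hc.le,
        ← ENNReal.ofReal_mul (by positivity)]
      apply ENNReal.ofReal_le_ofReal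
      have e2 := hZ h h0
      rw [div_le_iff₀ hc] at e2
      calc ‖mFourierCoeff (fun x => (f x : ℂ)) h‖ ^ 2 / (N : ℝ) ^ 2 *
            ∑ θ, ‖∑ i, mFourier h (Z θ i)‖ ^ 2
          ≤ ‖mFourierCoeff (fun x => (f x : ℂ)) h‖ ^ 2 / (N : ℝ) ^ 2 *
            ((a * ∏ j, (1 + (h j : ℝ) ^ 2) ^ k₀) * (Fintype.card Θ : ℝ)) :=
            mul_le_mul_of_nonneg_left e2 (by positivity)
        _ = _ := by ring
  refine (ENNReal.tsum_le_tsum h2).trans ?_
  rw [ENNReal.tsum_mul_left]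
  calc _ ≤ ((Fintype.card Θ : ℝ≥0∞) * ENNReal.ofReal (a / (N : ℝ) ^ 2)) * 1 := by
        gcongr
        exact hf.2
    _ = _ := mul_one _

/-- first moment of the error from the second one -/
theorem first_moment {g : Tor 2 → ℝ} (hg : Continuous g) {ε : ℝ} (hε : 0 < ε) :
    ∫⁻ x, ENNReal.ofReal |g x| ∂(unif 2) ≤
      ENNReal.ofReal (ε / 2) + ENNReal.ofReal (1 / (2 * ε)) *
        ENNReal.ofReal (∫ x, g x ^ 2 ∂(unif 2)) := by
  obtain ⟨B, hB⟩ := exists_bdd hg
  have hB0 : 0 ≤ B := (abs_nonneg _).trans (hB 0)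
  have hint : Integrable (fun x => g x ^ 2) (unif 2) := by
    refine integrable_of_bdd (B := B ^ 2) (hg.pow 2).measurable ?_
    intro x
    rw [abs_pow]
    exact pow_le_pow_left₀ (abs_nonneg _) (hB x) 2
  rw [ofReal_integral_eq_lintegral_ofReal hint (Eventually.of_forall fun x => sq_nonneg _)]
  have h1 : ∀ x, ENNReal.ofReal |g x| ≤ ENNReal.ofReal (ε / 2) +
      ENNReal.ofReal (1 / (2 * ε)) * ENNReal.ofReal (g x ^ 2) := by
    intro x
    rw [← ENNReal.ofReal_mul (by positivity), ← ENNReal.ofReal_add (by positivity) (by positivity)]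
    apply ENNReal.ofReal_le_ofReal
    have h2 : 0 ≤ (|g x| - ε) ^ 2 / (2 * ε) := by positivity
    have h3 : ε / 2 + 1 / (2 * ε) * g x ^ 2 - |g x| = (|g x| - ε) ^ 2 / (2 * ε) := by
      rw [← sq_abs (g x)]
      field_simp
      ring
    linarith
  refine (lintegral_mono h1).trans ?_
  rw [lintegral_add_left measurable_const, lintegral_const, measure_univ, mul_one,
    lintegral_const_mul _ (by exact (hg.pow 2).measurable.ennreal_ofReal)]

/-- the law of the shift and the finite randomisation -/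
def lawS (Θ : Type) [Fintype Θ] [MeasurableSpace Θ] : Measure (Tor 2 × Θ) :=
  ((Fintype.card Θ : ℝ≥0∞))⁻¹ • ∑ θ, (unif 2).map (fun x => (x, θ))

theorem lintegral_lawS (Θ : Type) [Fintype Θ] [MeasurableSpace Θ] {g : Tor 2 × Θ → ℝ≥0∞}
    (hg : Measurable g) :
    ∫⁻ ω, g ω ∂(lawS Θ) = ((Fintype.card Θ : ℝ≥0∞))⁻¹ * ∑ θ, ∫⁻ x, g (x, θ) ∂(unif 2) := by
  unfold lawS
  rw [lintegral_smul_measure, lintegral_finsetSum_measure]
  congr 1
  refine Finset.sum_congr rfl fun θ _ => ?_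
  rw [lintegral_map hg measurable_prodMk_right]

instance (Θ : Type) [Fintype Θ] [Nonempty Θ] [MeasurableSpace Θ] :
    IsProbabilityMeasure (lawS Θ) := by
  constructor
  have h := lintegral_lawS Θ (g := fun _ => 1) measurable_const
  simp only [lintegral_const, one_mul, measure_univ, Finset.sum_const, Finset.card_univ,
    nsmul_eq_mul, mul_one] at h
  rw [h]
  exact ENNReal.inv_mul_cancel (by simp) (by simp)

/-- the shifted rule with finite randomisation -/
def algS {m n : ℕ} (hmn : 2 ^ m ≤ n) (Θ : Type) [Fintype Θ] [Nonempty Θ]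
    (Z : Θ → Fin (2 ^ m) → Tor 2) : RandAlg 2 n :=
  letI : MeasurableSpace Θ := ⊤
  { Ω := Tor 2 × Θ
    mΩ := inferInstance
    μ := lawS Θ
    prob := inferInstance
    pts := fun ω i => if h : (i : ℕ) < 2 ^ m then ω.1 + Z ω.2 ⟨i, h⟩ else 0
    meas := by
      refine measurable_pi_lambda _ fun i => ?_
      by_cases h : (i : ℕ) < 2 ^ m
      · simp only [h, dite_true]
        exact measurable_fst.add ((measurable_from_top (f := fun θ => Z θ ⟨i, h⟩)).comp
          measurable_snd)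
      · simp only [h, dite_false]
        exact measurable_const
    φ := fun _ y => (∑ i : Fin (2 ^ m), y ⟨i, i.2.trans_le hmn⟩) / ((2 ^ m : ℕ) : ℝ) }

theorem jmeas_algS {m n : ℕ} (hmn : 2 ^ m ≤ n) (Θ : Type) [Fintype Θ] [Nonempty Θ]
    (Z : Θ → Fin (2 ^ m) → Tor 2) : JMeas (algS hmn Θ Z) := by
  have h1 : Measurable fun y : Fin n → ℝ =>
      (∑ i : Fin (2 ^ m), y ⟨i, i.2.trans_le hmn⟩) / ((2 ^ m : ℕ) : ℝ) := by
    refine Measurable.div_const (Finset.measurable_sum _ fun i _ => ?_) _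
    exact measurable_pi_apply (⟨i, i.2.trans_le hmn⟩ : Fin n)
  exact h1.comp measurable_snd

theorem errRan_algS {m n : ℕ} (hmn : 2 ^ m ≤ n) (Θ : Type) [Fintype Θ] [Nonempty Θ]
    (Z : Θ → Fin (2 ^ m) → Tor 2) {a : ℝ} (ha : 0 < a)
    (hZ : ∀ h : Fin 2 → ℤ, h ≠ 0 → (∑ θ, ‖∑ i, mFourier h (Z θ i)‖ ^ 2) / (Fintype.card Θ : ℝ) ≤
      a * ∏ j, (1 + (h j : ℝ) ^ 2) ^ k₀) :
    errRan k₀ (algS hmn Θ Z) ≤ ENNReal.ofReal (Real.sqrt a / 2 ^ m) := by
  let _ : MeasurableSpace Θ := ⊤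
  refine iSup₂_le fun f hf => ?_
  have hN : 0 < 2 ^ m := by positivity
  set ε : ℝ := Real.sqrt a / 2 ^ m with hε
  have hε0 : 0 < ε := by positivity
  have hε2 : a / (((2 ^ m : ℕ) : ℝ)) ^ 2 = ε ^ 2 := by
    rw [hε, div_pow, Real.sq_sqrt ha.le]
    push_cast
    rfl
  have hcard : (Fintype.card Θ : ℝ≥0∞) ≠ 0 := by simp
  have hcard' : (Fintype.card Θ : ℝ≥0∞) ≠ ⊤ := by simp
  have h1 : ∀ ω : Tor 2 × Θ, integ f - (algS hmn Θ Z).out ω f = errS f (Z ω.2) ω.1 := by
    intro ω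
    unfold errS RandAlg.out
    have h2 : (algS hmn Θ Z).φ ω (fun i => f ((algS hmn Θ Z).pts ω i)) =
        (∑ i : Fin (2 ^ m), f (if h : (i : ℕ) < 2 ^ m then ω.1 + Z ω.2 ⟨i, h⟩ else 0)) /
          ((2 ^ m : ℕ) : ℝ) := rfl
    rw [h2]
    congr 2
    refine Finset.sum_congr rfl fun i _ => ?_
    rw [dif_pos i.2]
  have hmeas : Measurable fun ω : Tor 2 × Θ => ENNReal.ofReal |errS f (Z ω.2) ω.1| := by
    refine ENNReal.measurable_ofReal.comp (continuous_abs.measurable.comp ?_)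
    unfold errS
    refine measurable_const.sub (Measurable.div_const (Finset.measurable_sum _ fun i _ => ?_) _)
    exact hf.1.measurable.comp (measurable_fst.add
      ((measurable_from_top (f := fun θ => Z θ i)).comp measurable_snd))
  calc ∫⁻ ω, ENNReal.ofReal |integ f - (algS hmn Θ Z).out ω f| ∂(algS hmn Θ Z).μ
      = ∫⁻ ω : Tor 2 × Θ, ENNReal.ofReal |errS f (Z ω.2) ω.1| ∂(lawS Θ) :=
        lintegral_congr fun ω => by rw [h1]
    _ = ((Fintype.card Θ : ℝ≥0∞))⁻¹ * ∑ θ, ∫⁻ x, ENNReal.ofReal |errS f (Z θ) x| ∂(unif 2) :=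
        lintegral_lawS Θ hmeas
    _ ≤ ((Fintype.card Θ : ℝ≥0∞))⁻¹ * ∑ θ, (ENNReal.ofReal (ε / 2) +
          ENNReal.ofReal (1 / (2 * ε)) * ENNReal.ofReal (∫ x, errS f (Z θ) x ^ 2 ∂(unif 2))) := by
        gcongr with θ _
        exact first_moment (continuous_errS hf.1 (Z θ)) hε0
    _ = ((Fintype.card Θ : ℝ≥0∞))⁻¹ * ((Fintype.card Θ : ℝ≥0∞) * ENNReal.ofReal (ε / 2) +
          ENNReal.ofReal (1 / (2 * ε)) *
            ∑ θ, ENNReal.ofReal (∫ x, errS f (Z θ) x ^ 2 ∂(unif 2))) := by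
        rw [Finset.sum_add_distrib, Finset.sum_const, Finset.card_univ, nsmul_eq_mul,
          Finset.mul_sum]
    _ ≤ ((Fintype.card Θ : ℝ≥0∞))⁻¹ * ((Fintype.card Θ : ℝ≥0∞) * ENNReal.ofReal (ε / 2) +
          ENNReal.ofReal (1 / (2 * ε)) *
            ((Fintype.card Θ : ℝ≥0∞) * ENNReal.ofReal (a / (((2 ^ m : ℕ) : ℝ)) ^ 2))) := by
        gcongr
        exact second_moment hN Z ha.le hZ hf
    _ = ((Fintype.card Θ : ℝ≥0∞))⁻¹ * ((Fintype.card Θ : ℝ≥0∞) * ENNReal.ofReal ε) := by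
        congr 1
        rw [hε2, mul_left_comm, ← mul_add, ← ENNReal.ofReal_mul (by positivity),
          ← ENNReal.ofReal_add (by positivity) (by positivity)]
        congr 2
        field_simp
        ring
    _ = ENNReal.ofReal ε := by
        rw [← mul_assoc, ENNReal.inv_mul_cancel hcard hcard', one_mul]

/-- Proof: for `2^m ≤ n < 2^(m+1)` take `Ω = Tor 2 × Θ` (uniform shift and uniform `θ`), points
`Δ + Z θ i` (`i < 2^m`, the other points `0`), `φ` = average of the first `2^m` values; Parseval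
in `Δ` for fixed `θ`: `∫ |(1/N)∑ f(Δ+Z_i) - S f|² = ∑_{h≠0} |f̂(h)|² |(1/N) ∑ e_h(Z_i)|²`, average
over `θ`, `hammersley`; `E|Y| ≤ ε/2 + E|Y|²/(2ε)`. -/
theorem eRan_le : ∃ C : ℝ, 0 < C ∧ ∀ n : ℕ, 1 ≤ n →
    eRan 2 k₀ n ≤ ENNReal.ofReal (C * (n : ℝ) ^ (-(5 / 4) : ℝ)) := by
  obtain ⟨CU, hCU, hH⟩ := hammersley
  refine ⟨Real.sqrt CU * (2 : ℝ) ^ (5 / 4 : ℝ), by positivity, fun n hn => ?_⟩
  set m := Nat.log 2 n with hm
  have hmn : 2 ^ m ≤ n := Nat.pow_log_le_self 2 (by omega)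
  have hnm : n < 2 ^ (m + 1) := Nat.lt_pow_succ_log_self (by norm_num) n
  obtain ⟨Θ, _, _, Z, hZ⟩ := hH m
  have hn0 : (0 : ℝ) < n := by exact_mod_cast hn
  have h1 := errRan_algS hmn Θ Z (a := CU * ((2 : ℝ) ^ m) ^ (-(1 / 2 : ℝ))) (by positivity) hZ
  refine (iInf₂_le (algS hmn Θ Z) (jmeas_algS hmn Θ Z)).trans (h1.trans ?_)
  apply ENNReal.ofReal_le_ofReal
  set N : ℝ := (2 : ℝ) ^ m with hN
  have hN0 : 0 < N := by positivity
  have h2 : (n : ℝ) / 2 ≤ N := by
    have : (n : ℝ) < 2 ^ (m + 1) := by exact_mod_cast hnm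
    rw [pow_succ, ← hN] at this
    linarith
  have h3 : Real.sqrt (CU * N ^ (-(1 / 2 : ℝ))) / N = Real.sqrt CU * N ^ (-(5 / 4) : ℝ) := by
    rw [Real.sqrt_mul hCU.le, Real.sqrt_eq_rpow (N ^ (-(1 / 2 : ℝ))), ← Real.rpow_mul hN0.le,
      mul_div_assoc]
    congr 1
    rw [div_eq_iff hN0.ne', ← Real.rpow_add_one hN0.ne']
    norm_num
  rw [h3, mul_assoc]
  apply mul_le_mul_of_nonneg_left _ (Real.sqrt_nonneg _)
  calc N ^ (-(5 / 4) : ℝ) ≤ ((n : ℝ) / 2) ^ (-(5 / 4) : ℝ) :=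
        Real.rpow_le_rpow_of_nonpos (by positivity) h2 (by norm_num)
    _ = (2 : ℝ) ^ (5 / 4 : ℝ) * (n : ℝ) ^ (-(5 / 4) : ℝ) := by
        rw [Real.div_rpow hn0.le (by norm_num), Real.rpow_neg (by norm_num : (0 : ℝ) ≤ 2)]
        field_simp

end Pool.Agent.Helper6.MixRan
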